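import Mathlib

/-!
# Polynomial functionals of finite measures on a compact space (MP_55470d_pr, module D0)
-/

set_option autoImplicit false
open MeasureTheory ProbabilityTheory Filter Topology
open scoped NNReal ENNReal BoundedContinuousFunction

namespace Pool.Agent.helper84.SG

variable {S : Type*} [MetricSpace S] [CompactSpace S] [MeasurableSpace S] [BorelSpace S]

/-- evaluation of a continuous function against a finite measure -/
noncomputable def evl (f : C(S, ℝ)) (μ : FiniteMeasure S) : ℝ := ∫ x, f x ∂(μ : Measure S)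

lemma continuous_evl (f : C(S, ℝ)) : Continuous (evl f) := by
  have := FiniteMeasure.continuous_integral_boundedContinuousFunction
    (BoundedContinuousFunction.mkOfCompact f)
  exact this

/-- monomial functionals -/
noncomputable def mono (L : List C(S, ℝ)) (μ : FiniteMeasure S) : ℝ :=
  (L.map fun f => evl f μ).prod

lemma continuous_mono (L : List C(S, ℝ)) : Continuous (mono L) := by
  induction L with
  | nil =>
    have : (mono ([] : List C(S, ℝ))) = fun _ => 1 := by
      funext μ; simp [mono]
    rw [this]; exact continuous_const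
  | cons f L ih =>
    have : (mono (f :: L)) = fun μ => evl f μ * mono L μ := by
      funext μ; simp [mono]
    rw [this]; exact (continuous_evl f).mul ih

/-- polynomial functionals -/
noncomputable def Poly (S : Type*) [MetricSpace S] [CompactSpace S] [MeasurableSpace S]
    [BorelSpace S] : Submodule ℝ (FiniteMeasure S → ℝ) :=
  Submodule.span ℝ (Set.range (mono (S := S)))

lemma mono_mem (L : List C(S, ℝ)) : mono L ∈ Poly S := Submodule.subset_span ⟨L, rfl⟩

lemma mono_append (L L' : List C(S, ℝ)) : mono (L ++ L') = mono L * mono L' := by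
  funext μ; simp [mono]

lemma poly_mul_mem {p q : FiniteMeasure S → ℝ} (hp : p ∈ Poly S) (hq : q ∈ Poly S) :
    p * q ∈ Poly S := by
  unfold Poly at hp hq ⊢
  induction hp using Submodule.span_induction with
  | mem x hx =>
    obtain ⟨L, rfl⟩ := hx
    induction hq using Submodule.span_induction with
    | mem y hy =>
      obtain ⟨L', rfl⟩ := hy
      rw [← mono_append]
      exact Submodule.subset_span ⟨_, rfl⟩
    | zero => rw [mul_zero]; exact Submodule.zero_mem _
    | add y z _ _ hy hz => rw [mul_add]; exact Submodule.add_mem _ hy hz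
    | smul a y _ hy => rw [mul_smul_comm]; exact Submodule.smul_mem _ _ hy
  | zero => rw [zero_mul]; exact Submodule.zero_mem _
  | add y z _ _ hy hz => rw [add_mul]; exact Submodule.add_mem _ hy hz
  | smul a y _ hy => rw [smul_mul_assoc]; exact Submodule.smul_mem _ _ hy

lemma continuous_of_mem_poly {p : FiniteMeasure S → ℝ} (hp : p ∈ Poly S) : Continuous p := by
  unfold Poly at hp
  induction hp using Submodule.span_induction with
  | mem x hx => obtain ⟨L, rfl⟩ := hx; exact continuous_mono L
  | zero => exact continuous_const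
  | add y z _ _ hy hz => exact hy.add hz
  | smul a y _ hy => exact hy.const_smul a

/-- finite measures are determined by integrals of continuous functions -/
lemma ext_evl {μ μ' : FiniteMeasure S} (h : ∀ f : C(S, ℝ), evl f μ = evl f μ') : μ = μ' := by
  apply FiniteMeasure.toMeasure_injective
  apply ext_of_forall_integral_eq_of_IsFiniteMeasure
  intro f
  exact h f.toContinuousMap

/-- density of polynomial functionals on balls -/
theorem exists_poly_approx (R : ℝ≥0) (Φ : FiniteMeasure S → ℝ) (hΦ : Continuous Φ) {ε : ℝ}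
    (hε : 0 < ε) : ∃ p ∈ Poly S, ∀ μ : FiniteMeasure S, μ.mass ≤ R → |Φ μ - p μ| ≤ ε := by
  have hK : IsCompact {μ : FiniteMeasure S | μ.mass ≤ R} :=
    isCompact_setOfPred_finiteMeasure_le_of_compactSpace S R
  have : CompactSpace {μ : FiniteMeasure S | μ.mass ≤ R} := isCompact_iff_compactSpace.mp hK
  let e : C(S, ℝ) → C({μ : FiniteMeasure S | μ.mass ≤ R}, ℝ) := fun f =>
    ⟨fun μ => evl f μ.1, (continuous_evl f).comp continuous_subtype_val⟩
  let A : Subalgebra ℝ C({μ : FiniteMeasure S | μ.mass ≤ R}, ℝ) :=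
    Algebra.adjoin ℝ (Set.range e)
  have hA : ∀ a ∈ A, ∃ p ∈ Poly S, ∀ μ : {μ : FiniteMeasure S | μ.mass ≤ R}, a μ = p μ.1 := by
    intro a ha
    induction ha using Algebra.adjoin_induction with
    | mem x hx =>
      obtain ⟨f, rfl⟩ := hx
      refine ⟨mono [f], mono_mem _, fun μ => by simp [mono, e]⟩
    | algebraMap r =>
      refine ⟨r • mono [], Submodule.smul_mem _ _ (mono_mem _), fun μ => ?_⟩
      simp [mono]
    | add x y _ _ hx hy =>
      obtain ⟨p, hp, h1⟩ := hx
      obtain ⟨q, hq, h2⟩ := hy
      exact ⟨p + q, Submodule.add_mem _ hp hq, fun μ => by simp [h1, h2]⟩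
    | mul x y _ _ hx hy =>
      obtain ⟨p, hp, h1⟩ := hx
      obtain ⟨q, hq, h2⟩ := hy
      exact ⟨p * q, poly_mul_mem hp hq, fun μ => by simp [h1, h2]⟩
  have hsep : A.SeparatesPoints := by
    intro μ μ' hne
    have : ∃ f : C(S, ℝ), evl f μ.1 ≠ evl f μ'.1 := by
      by_contra hcon
      push Not at hcon
      exact hne (Subtype.ext (ext_evl hcon))
    obtain ⟨f, hf⟩ := this
    refine ⟨e f, ⟨e f, Algebra.subset_adjoin ⟨f, rfl⟩, rfl⟩, hf⟩
  have htop := ContinuousMap.subalgebra_topologicalClosure_eq_top_of_separatesPoints A hsep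
  let Φ' : C({μ : FiniteMeasure S | μ.mass ≤ R}, ℝ) := ⟨fun μ => Φ μ.1, hΦ.comp continuous_subtype_val⟩
  have hmem : Φ' ∈ A.topologicalClosure := by rw [htop]; trivial
  have hmem' : Φ' ∈ closure (A : Set C({μ : FiniteMeasure S | μ.mass ≤ R}, ℝ)) := hmem
  rw [Metric.mem_closure_iff] at hmem'
  obtain ⟨a, ha, hd⟩ := hmem' ε hε
  obtain ⟨p, hp, hpe⟩ := hA a ha
  refine ⟨p, hp, fun μ hμ => ?_⟩
  have h1 := ContinuousMap.dist_apply_le_dist (f := Φ') (g := a) ⟨μ, hμ⟩
  rw [hpe, Real.dist_eq] at h1
  exact h1.trans hd.le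

end Pool.Agent.helper84.SG
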