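import Mathlib
import Pool.Agent.helper84.SG.SW

/-!
# Random measures with bounded densities (MP_55470d_pr, module D1)
-/

set_option autoImplicit false
set_option linter.unusedSectionVars false
open MeasureTheory ProbabilityTheory Filter Topology
open scoped NNReal ENNReal BoundedContinuousFunction

namespace Pool.Agent.helper84.SG

/-- a sequence that is approximable by convergent sequences converges -/
lemma conv_of_approx {E : Type*} [NormedAddCommGroup E] [CompleteSpace E] (a : ℕ → E)
    (h : ∀ ε > 0, ∃ b : ℕ → E, (∃ L, Tendsto b atTop (𝓝 L)) ∧ ∀ᶠ n in atTop, ‖a n - b n‖ ≤ ε) :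
    ∃ L, Tendsto a atTop (𝓝 L) := by
  apply cauchySeq_tendsto_of_complete
  rw [Metric.cauchySeq_iff']
  intro ε hε
  obtain ⟨b, ⟨L, hL⟩, hb⟩ := h (ε / 8) (by positivity)
  have h1 : ∀ᶠ n in atTop, ‖b n - L‖ < ε / 8 := by
    have := (Metric.tendsto_nhds.1 hL) (ε / 8) (by positivity)
    filter_upwards [this] with n hn
    rwa [dist_eq_norm] at hn
  obtain ⟨N, hN⟩ := eventually_atTop.1 (hb.and h1)
  refine ⟨N, fun n hn => ?_⟩
  have h2 : ∀ k ≥ N, ‖a k - L‖ ≤ ε / 4 := by
    intro k hk
    obtain ⟨h3, h4⟩ := hN k hk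
    calc ‖a k - L‖ = ‖(a k - b k) + (b k - L)‖ := by congr 1; abel
      _ ≤ ‖a k - b k‖ + ‖b k - L‖ := norm_add_le _ _
      _ ≤ ε / 8 + ε / 8 := by gcongr
      _ = ε / 4 := by ring
  rw [dist_eq_norm]
  calc ‖a n - a N‖ = ‖(a n - L) - (a N - L)‖ := by congr 1; abel
    _ ≤ ‖a n - L‖ + ‖a N - L‖ := norm_sub_le _ _
    _ ≤ ε / 4 + ε / 4 := add_le_add (h2 n hn) (h2 N le_rfl)
    _ < ε := by linarith

variable {S : Type*} [MetricSpace S] [CompactSpace S] [MeasurableSpace S] [BorelSpace S]

open Classical in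
/-- the finite measure with density `z` with respect to `ν` (zero if it is not finite) -/
noncomputable def dm (ν : Measure S) (z : S → ℝ) : FiniteMeasure S :=
  if h : IsFiniteMeasure (ν.withDensity fun x => ENNReal.ofReal (z x)) then ⟨_, h⟩ else 0

variable (ν : Measure S)

lemma isFinite_of_integrable {z : S → ℝ} (hi : Integrable z ν) :
    IsFiniteMeasure (ν.withDensity fun x => ENNReal.ofReal (z x)) :=
  isFiniteMeasure_withDensity_ofReal hi.2

lemma coe_dm {z : S → ℝ} (hi : Integrable z ν) :
    ((dm ν z : FiniteMeasure S) : Measure S) = ν.withDensity fun x => ENNReal.ofReal (z x) := by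
  unfold dm
  rw [dif_pos (isFinite_of_integrable ν hi)]
  rfl

lemma evl_dm {z : S → ℝ} (hz : Measurable z) (h0 : ∀ x, 0 ≤ z x) (hi : Integrable z ν)
    (f : C(S, ℝ)) : evl f (dm ν z) = ∫ x, f x * z x ∂ν := by
  unfold evl
  rw [coe_dm ν hi]
  rw [integral_withDensity_eq_integral_toReal_smul hz.ennreal_ofReal
    (by filter_upwards with x using ENNReal.ofReal_lt_top)]
  refine integral_congr_ae (by
    filter_upwards with x
    rw [ENNReal.toReal_ofReal (h0 x), smul_eq_mul, mul_comm])

lemma mass_dm {z : S → ℝ} (hz : Measurable z) (h0 : ∀ x, 0 ≤ z x) (hi : Integrable z ν) :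
    ((dm ν z : FiniteMeasure S).mass : ℝ) = ∫ x, z x ∂ν := by
  have h1 := evl_dm ν hz h0 hi (1 : C(S, ℝ))
  unfold evl at h1
  simp only [ContinuousMap.one_apply, one_mul] at h1
  rw [← h1]
  simp [integral_const, Measure.real, FiniteMeasure.mass, FiniteMeasure.ennreal_mass]
  rfl

/-- the mass as an evaluation -/
lemma evl_one (μ : FiniteMeasure S) : evl (1 : C(S, ℝ)) μ = (μ.mass : ℝ) := by
  unfold evl
  simp [integral_const, Measure.real, FiniteMeasure.mass]
  rfl

lemma abs_evl_le (f : C(S, ℝ)) (μ : FiniteMeasure S) : |evl f μ| ≤ ‖f‖ * μ.mass := by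
  unfold evl
  have h1 : ‖∫ x, f x ∂(μ : Measure S)‖ ≤ ‖f‖ * (μ : Measure S).real Set.univ :=
    norm_integral_le_of_norm_le_const (by filter_upwards with x using f.norm_coe_le_norm x)
  exact h1

lemma evl_nonneg {f : C(S, ℝ)} (hf : ∀ x, 0 ≤ f x) (μ : FiniteMeasure S) : 0 ≤ evl f μ :=
  integral_nonneg hf

lemma abs_mono_le (L : List C(S, ℝ)) (μ : FiniteMeasure S) :
    |mono L μ| ≤ (L.map fun f => ‖f‖ * (μ.mass : ℝ)).prod := by
  induction L with
  | nil => simp [mono]
  | cons f L ih =>
    have : mono (f :: L) μ = evl f μ * mono L μ := by simp [mono]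
    rw [this, abs_mul, List.map_cons, List.prod_cons]
    exact mul_le_mul (abs_evl_le f μ) ih (abs_nonneg _) (by positivity)

lemma exists_bound_poly {p : FiniteMeasure S → ℝ} (hp : p ∈ Poly S) (R : ℝ≥0) :
    ∃ C : ℝ, 0 ≤ C ∧ ∀ μ : FiniteMeasure S, μ.mass ≤ R → |p μ| ≤ C := by
  unfold Poly at hp
  induction hp using Submodule.span_induction with
  | mem x hx =>
    obtain ⟨L, rfl⟩ := hx
    refine ⟨(L.map fun f => ‖f‖ * (R : ℝ)).prod, List.prod_nonneg (by
      intro a ha
      obtain ⟨f, _, rfl⟩ := List.mem_map.1 ha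
      positivity), fun μ hμ => ?_⟩
    refine (abs_mono_le L μ).trans ?_
    induction L with
    | nil => simp
    | cons f L ih =>
      rw [List.map_cons, List.prod_cons, List.map_cons, List.prod_cons]
      have hμ' : (μ.mass : ℝ) ≤ R := by exact_mod_cast hμ
      refine mul_le_mul (by gcongr) ih (List.prod_nonneg (by
        intro a ha
        obtain ⟨f, _, rfl⟩ := List.mem_map.1 ha
        positivity)) (by positivity)
  | zero => exact ⟨0, le_rfl, fun μ _ => by simp⟩
  | add y z _ _ hy hz =>
    obtain ⟨C, hC, h1⟩ := hy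
    obtain ⟨C', hC', h2⟩ := hz
    exact ⟨C + C', by positivity, fun μ hμ => by
      calc |(y + z) μ| = |y μ + z μ| := rfl
        _ ≤ |y μ| + |z μ| := abs_add_le _ _
        _ ≤ C + C' := add_le_add (h1 μ hμ) (h2 μ hμ)⟩
  | smul a y _ hy =>
    obtain ⟨C, hC, h1⟩ := hy
    exact ⟨|a| * C, by positivity, fun μ hμ => by
      calc |(a • y) μ| = |a * y μ| := rfl
        _ = |a| * |y μ| := abs_mul _ _
        _ ≤ |a| * C := by gcongr; exact h1 μ hμ⟩

section meas

variable {Ω : Type*} [MeasurableSpace Ω] (M : Ω → FiniteMeasure S)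

lemma measurable_mono_comp (hM : ∀ f : C(S, ℝ), Measurable fun ω => evl f (M ω))
    (L : List C(S, ℝ)) : Measurable fun ω => mono L (M ω) := by
  induction L with
  | nil => simp only [mono, List.map_nil, List.prod_nil]; exact measurable_const
  | cons f L ih =>
    have : (fun ω => mono (f :: L) (M ω)) = fun ω => evl f (M ω) * mono L (M ω) := by
      funext ω; simp [mono]
    rw [this]; exact (hM f).mul ih

lemma measurable_poly_comp (hM : ∀ f : C(S, ℝ), Measurable fun ω => evl f (M ω))
    {p : FiniteMeasure S → ℝ} (hp : p ∈ Poly S) : Measurable fun ω => p (M ω) := by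
  unfold Poly at hp
  induction hp using Submodule.span_induction with
  | mem x hx => obtain ⟨L, rfl⟩ := hx; exact measurable_mono_comp M hM L
  | zero => exact measurable_const
  | add y z _ _ hy hz => exact hy.add hz
  | smul a y _ hy => exact hy.const_smul a

/-- measurability of continuous functionals of a random measure -/
lemma measurable_cont_comp (hM : ∀ f : C(S, ℝ), Measurable fun ω => evl f (M ω))
    {Φ : FiniteMeasure S → ℝ} (hΦ : Continuous Φ) : Measurable fun ω => Φ (M ω) := by
  have h1 : ∀ k : ℕ, ∃ p ∈ Poly S, ∀ μ : FiniteMeasure S, μ.mass ≤ (k : ℝ≥0) →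
      |Φ μ - p μ| ≤ 1 / ((k : ℝ) + 1) := fun k =>
    exists_poly_approx k Φ hΦ (by positivity)
  choose p hp hpa using h1
  refine measurable_of_tendsto_metrizable (f := fun k ω => p k (M ω))
    (fun k => measurable_poly_comp M hM (hp k)) ?_
  rw [tendsto_pi_nhds]
  intro ω
  rw [tendsto_iff_norm_sub_tendsto_zero]
  refine squeeze_zero' (Eventually.of_forall fun k => norm_nonneg _) ?_
    tendsto_one_div_add_atTop_nhds_zero_nat
  obtain ⟨k0, hk0⟩ := exists_nat_ge ((M ω).mass)
  filter_upwards [eventually_ge_atTop k0] with k hk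
  rw [← norm_neg, neg_sub]
  exact hpa k (M ω) (hk0.trans (by exact_mod_cast hk))

end meas

section conv

variable {Ω : ℕ → Type*} [∀ n, MeasurableSpace (Ω n)] (P : ∀ n, Measure (Ω n))
  [∀ n, IsProbabilityMeasure (P n)]

/-- convergence of monomials implies convergence of continuous functionals, bounded masses -/
theorem conv_of_mono (M : ∀ n, Ω n → FiniteMeasure S)
    (hM : ∀ n (f : C(S, ℝ)), Measurable fun ω => evl f (M n ω)) (R : ℝ≥0)
    (hR : ∀ n ω, (M n ω).mass ≤ R)
    (hmono : ∀ L : List C(S, ℝ), ∃ l, Tendsto (fun n => ∫ ω, mono L (M n ω) ∂(P n)) atTop (𝓝 l))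
    {Φ : FiniteMeasure S → ℝ} (hΦ : Continuous Φ) :
    ∃ l, Tendsto (fun n => ∫ ω, Φ (M n ω) ∂(P n)) atTop (𝓝 l) := by
  have hint : ∀ (p : FiniteMeasure S → ℝ), p ∈ Poly S → ∀ n,
      Integrable (fun ω => p (M n ω)) (P n) := by
    intro p hp n
    obtain ⟨C, _, hC⟩ := exists_bound_poly hp R
    exact Integrable.of_bound (measurable_poly_comp (M n) (hM n) hp).aestronglyMeasurable C
      (by filter_upwards with ω using hC _ (hR n ω))
  have hpoly : ∀ p ∈ Poly S, ∃ l, Tendsto (fun n => ∫ ω, p (M n ω) ∂(P n)) atTop (𝓝 l) := by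
    intro p hp
    have hp' := hp
    unfold Poly at hp'
    induction hp' using Submodule.span_induction with
    | mem x hx => obtain ⟨L, rfl⟩ := hx; exact hmono L
    | zero => exact ⟨0, by simp⟩
    | add y z hy' hz' hy hz =>
      obtain ⟨l, hl⟩ := hy hy'
      obtain ⟨l', hl'⟩ := hz hz'
      refine ⟨l + l', (hl.add hl').congr fun n => ?_⟩
      rw [← integral_add (hint y hy' n) (hint z hz' n)]
      rfl
    | smul a y hy' hy =>
      obtain ⟨l, hl⟩ := hy hy'
      refine ⟨a * l, (hl.const_mul a).congr fun n => ?_⟩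
      rw [← integral_const_mul]
      rfl
  apply conv_of_approx
  intro ε hε
  obtain ⟨p, hp, hpa⟩ := exists_poly_approx R Φ hΦ hε
  refine ⟨fun n => ∫ ω, p (M n ω) ∂(P n), hpoly p hp, Eventually.of_forall fun n => ?_⟩
  have hΦi : Integrable (fun ω => Φ (M n ω)) (P n) := by
    obtain ⟨C, _, hC⟩ := exists_bound_poly hp R
    refine Integrable.of_bound (measurable_cont_comp (M n) (hM n) hΦ).aestronglyMeasurable (C + ε)
      ?_
    filter_upwards with ω
    have h1 := hpa _ (hR n ω)
    have h2 := hC _ (hR n ω)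
    rw [Real.norm_eq_abs]
    calc |Φ (M n ω)| = |(Φ (M n ω) - p (M n ω)) + p (M n ω)| := by ring_nf
      _ ≤ |Φ (M n ω) - p (M n ω)| + |p (M n ω)| := abs_add_le _ _
      _ ≤ C + ε := by linarith
  rw [← integral_sub hΦi (hint p hp n)]
  refine (norm_integral_le_of_norm_le_const (C := ε) ?_).trans ?_
  · filter_upwards with ω using hpa _ (hR n ω)
  · simp

/-- random densities bounded by `K`: convergence of the mixed moments implies convergence in law -/
theorem trunc_conv [IsProbabilityMeasure ν] (Z : ∀ n, Ω n → S → ℝ)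
    (hZm : ∀ n, Measurable (Function.uncurry (Z n))) (K : ℝ≥0)
    (h0 : ∀ n ω x, 0 ≤ Z n ω x) (hK : ∀ n ω x, Z n ω x ≤ K)
    (hfdd : ∀ (l : ℕ) (x : Fin l → S), ∃ L, Tendsto (fun n => ∫ ω, ∏ i, Z n ω (x i) ∂(P n))
      atTop (𝓝 L))
    {Φ : FiniteMeasure S → ℝ} (hΦ : Continuous Φ) :
    ∃ l, Tendsto (fun n => ∫ ω, Φ (dm ν (Z n ω)) ∂(P n)) atTop (𝓝 l) := by
  have hzm : ∀ n ω, Measurable (Z n ω) := fun n ω => (hZm n).comp measurable_prodMk_left
  have hzi : ∀ n ω, Integrable (Z n ω) ν := fun n ω =>
    Integrable.of_bound (hzm n ω).aestronglyMeasurable K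
      (by filter_upwards with x; rw [Real.norm_eq_abs, abs_of_nonneg (h0 n ω x)]; exact hK n ω x)
  have hev : ∀ n ω (f : C(S, ℝ)), evl f (dm ν (Z n ω)) = ∫ x, f x * Z n ω x ∂ν := fun n ω f =>
    evl_dm ν (hzm n ω) (h0 n ω) (hzi n ω) f
  refine conv_of_mono P (fun n ω => dm ν (Z n ω)) ?_ K ?_ ?_ hΦ
  · intro n f
    simp_rw [hev]
    have h1 : StronglyMeasurable (Function.uncurry fun (ω : Ω n) (x : S) => f x * Z n ω x) :=
      ((f.continuous.measurable.comp measurable_snd).mul (hZm n)).stronglyMeasurable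
    exact (h1.integral_prod_right).measurable
  · intro n ω
    rw [← NNReal.coe_le_coe, mass_dm ν (hzm n ω) (h0 n ω) (hzi n ω)]
    calc ∫ x, Z n ω x ∂ν ≤ ∫ _, (K : ℝ) ∂ν :=
          integral_mono (hzi n ω) (integrable_const _) (hK n ω)
      _ = K := by simp
  · intro L
    set l := L.length with hl
    set f : Fin l → C(S, ℝ) := fun i => L.get i with hf
    have hmono : ∀ μ : FiniteMeasure S, mono L μ = ∏ i, evl (f i) μ := by
      intro μ
      unfold mono
      rw [← List.prod_ofFn]
      congr 1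
      apply List.ext_get
      · simp [hl]
      · intro k h1 h2
        simp [hf]
    have h1 : ∀ n, ∫ ω, mono L (dm ν (Z n ω)) ∂(P n) =
        ∫ x : Fin l → S, (∏ i, f i (x i)) * (∫ ω, ∏ i, Z n ω (x i) ∂(P n))
          ∂(Measure.pi fun _ => ν) := by
      intro n
      have h2 : ∀ ω, mono L (dm ν (Z n ω)) =
          ∫ x : Fin l → S, (∏ i, f i (x i)) * ∏ i, Z n ω (x i) ∂(Measure.pi fun _ => ν) := by
        intro ω
        rw [hmono]
        simp_rw [hev, ← Finset.prod_mul_distrib]
        exact (integral_fintype_prod_eq_prod (fun i x => f i x * Z n ω x)).symm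
      simp_rw [h2]
      rw [integral_integral_swap]
      · simp_rw [integral_const_mul]
      · have hm : Measurable (Function.uncurry fun (ω : Ω n) (x : Fin l → S) =>
            (∏ i, f i (x i)) * ∏ i, Z n ω (x i)) := by
          apply Measurable.mul
          · refine Finset.measurable_prod _ fun i _ => ?_
            exact (f i).continuous.measurable.comp ((measurable_pi_apply i).comp measurable_snd)
          · refine Finset.measurable_prod _ fun i _ => ?_
            exact (hZm n).comp (measurable_fst.prodMk ((measurable_pi_apply i).comp measurable_snd))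
        refine Integrable.of_bound hm.aestronglyMeasurable ((∏ i, ‖f i‖) * ∏ _i : Fin l, (K : ℝ)) ?_
        filter_upwards with q
        simp only [Function.uncurry]
        rw [norm_mul, norm_prod, norm_prod]
        gcongr with i _ i _
        · exact (f i).norm_coe_le_norm _
        · rw [Real.norm_eq_abs, abs_of_nonneg (h0 _ _ _)]
          exact hK _ _ _
    simp_rw [h1]
    choose Lx hLx using hfdd l
    refine ⟨∫ x : Fin l → S, (∏ i, f i (x i)) * Lx x ∂(Measure.pi fun _ => ν), ?_⟩
    refine tendsto_integral_of_dominated_convergence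
      (fun _ => (∏ i, ‖f i‖) * ∏ _i : Fin l, (K : ℝ)) ?_ (integrable_const _) ?_ ?_
    · intro n
      have hm : StronglyMeasurable (Function.uncurry fun (x : Fin l → S) (ω : Ω n) =>
          ∏ i, Z n ω (x i)) := by
        refine Measurable.stronglyMeasurable (Finset.measurable_prod _ fun i _ => ?_)
        exact (hZm n).comp (measurable_snd.prodMk ((measurable_pi_apply i).comp measurable_fst))
      refine AEStronglyMeasurable.mul ?_ (hm.integral_prod_right).aestronglyMeasurable
      refine Measurable.aestronglyMeasurable (Finset.measurable_prod _ fun i _ => ?_)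
      exact (f i).continuous.measurable.comp (measurable_pi_apply i)
    · intro n
      filter_upwards with x
      rw [norm_mul, norm_prod]
      refine mul_le_mul (Finset.prod_le_prod (fun i _ => norm_nonneg _)
        fun i _ => (f i).norm_coe_le_norm _) ?_ (norm_nonneg _)
        (Finset.prod_nonneg fun i _ => norm_nonneg _)
      refine (norm_integral_le_of_norm_le_const (C := ∏ _i : Fin l, (K : ℝ)) ?_).trans (by simp)
      filter_upwards with ω
      rw [norm_prod]
      refine Finset.prod_le_prod (fun i _ => norm_nonneg _) fun i _ => ?_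
      rw [Real.norm_eq_abs, abs_of_nonneg (h0 _ _ _)]
      exact hK _ _ _
    · filter_upwards with x
      exact (hLx x).const_mul _

end conv

end Pool.Agent.helper84.SG
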