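import Mathlib
import Pool.Agent.helper84.SG.Trunc

/-!
# Convergence of the masses of a sequence of random densities (MP_55470d_pr, module D2)
-/

set_option autoImplicit false
set_option linter.unusedSectionVars false
open MeasureTheory ProbabilityTheory Filter Topology
open scoped NNReal ENNReal BoundedContinuousFunction

namespace Pool.Agent.helper84.SG

variable {S : Type*} [MetricSpace S] [CompactSpace S] [MeasurableSpace S] [BorelSpace S]

section two

variable (ν : Measure S) [IsProbabilityMeasure ν] {Ω : Type*} [MeasurableSpace Ω]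
  (P : Measure Ω) [IsProbabilityMeasure P]

lemma triple_integrable {Y Y' : Ω → S → ℝ} (hY : Measurable (Function.uncurry Y))
    (hY' : Measurable (Function.uncurry Y')) (h0 : ∀ ω x, 0 ≤ Y ω x) (h0' : ∀ ω x, 0 ≤ Y' ω x)
    {K : S × S → ℝ} (hK : Integrable K (ν.prod ν))
    (h1 : ∀ᵐ p ∂(ν.prod ν), Integrable (fun ω => Y ω p.1 * Y' ω p.2) P ∧
      ∫ ω, Y ω p.1 * Y' ω p.2 ∂P ≤ K p) :
    Integrable (fun q : Ω × (S × S) => Y q.1 q.2.1 * Y' q.1 q.2.2) (P.prod (ν.prod ν)) := by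
  have hm : Measurable (fun q : Ω × (S × S) => Y q.1 q.2.1 * Y' q.1 q.2.2) := by
    apply Measurable.mul
    · exact hY.comp (measurable_fst.prodMk (measurable_fst.comp measurable_snd))
    · exact hY'.comp (measurable_fst.prodMk (measurable_snd.comp measurable_snd))
  rw [integrable_prod_iff' hm.aestronglyMeasurable]
  refine ⟨h1.mono fun p hp => hp.1, ?_⟩
  refine Integrable.mono' hK ?_ ?_
  · have : StronglyMeasurable (fun p : S × S => ∫ ω, ‖Y ω p.1 * Y' ω p.2‖ ∂P) := by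
      apply StronglyMeasurable.integral_prod_left (f := fun (ω : Ω) (p : S × S) => ‖Y ω p.1 * Y' ω p.2‖)
      exact hm.norm.stronglyMeasurable
    exact this.aestronglyMeasurable
  · filter_upwards [h1] with p hp
    rw [Real.norm_eq_abs, abs_of_nonneg (integral_nonneg fun ω => norm_nonneg _)]
    refine le_trans (le_of_eq ?_) hp.2
    refine integral_congr_ae (Eventually.of_forall fun ω => ?_)
    exact abs_of_nonneg (mul_nonneg (h0 _ _) (h0' _ _))

lemma two_fold {Y Y' : Ω → S → ℝ}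
    (hi : Integrable (fun q : Ω × (S × S) => Y q.1 q.2.1 * Y' q.1 q.2.2) (P.prod (ν.prod ν)))
    (f f' : C(S, ℝ)) :
    Integrable (fun ω => (∫ x, f x * Y ω x ∂ν) * (∫ x, f' x * Y' ω x ∂ν)) P ∧
    ∫ ω, (∫ x, f x * Y ω x ∂ν) * (∫ x, f' x * Y' ω x ∂ν) ∂P =
      ∫ p : S × S, (f p.1 * f' p.2) * (∫ ω, Y ω p.1 * Y' ω p.2 ∂P) ∂(ν.prod ν) := by
  have hi' : Integrable (fun q : Ω × (S × S) => (f q.2.1 * f' q.2.2) *
      (Y q.1 q.2.1 * Y' q.1 q.2.2)) (P.prod (ν.prod ν)) := by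
    refine hi.bdd_mul (c := ‖f‖ * ‖f'‖) ?_ ?_
    · apply Measurable.aestronglyMeasurable
      apply Measurable.mul
      · exact f.continuous.measurable.comp (measurable_fst.comp measurable_snd)
      · exact f'.continuous.measurable.comp (measurable_snd.comp measurable_snd)
    · filter_upwards with q
      rw [norm_mul]
      gcongr
      · exact f.norm_coe_le_norm _
      · exact f'.norm_coe_le_norm _
  have h1 : ∀ ω, (∫ x, f x * Y ω x ∂ν) * (∫ x, f' x * Y' ω x ∂ν) =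
      ∫ p : S × S, (f p.1 * f' p.2) * (Y ω p.1 * Y' ω p.2) ∂(ν.prod ν) := by
    intro ω
    rw [← integral_prod_mul]
    refine integral_congr_ae (Eventually.of_forall fun p => ?_)
    ring
  simp_rw [h1]
  refine ⟨hi'.integral_prod_left, ?_⟩
  rw [integral_integral_swap hi']
  refine integral_congr_ae (Eventually.of_forall fun p => ?_)
  exact integral_const_mul _ _

end two

section main

variable (ν : Measure S) [IsProbabilityMeasure ν]
variable {Ω : ℕ → Type*} [∀ n, MeasurableSpace (Ω n)] (P : ∀ n, Measure (Ω n))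
  [∀ n, IsProbabilityMeasure (P n)]

/-- the hypotheses on the field and its truncations -/
structure FieldHyp (Y : ∀ n, Ω n → S → ℝ) (Yt : ℕ → ∀ n, Ω n → S → ℝ) (K : S × S → ℝ)
    (Kt : ℕ → S × S → ℝ) : Prop where
  mY : ∀ n, Measurable (Function.uncurry (Y n))
  mYt : ∀ j n, Measurable (Function.uncurry (Yt j n))
  Y0 : ∀ n ω x, 0 ≤ Y n ω x
  Yt0 : ∀ j n ω x, 0 ≤ Yt j n ω x
  mK : Measurable K
  mKt : ∀ j, Measurable (Kt j)
  Kt0 : ∀ j p, 0 ≤ Kt j p
  KtK : ∀ j, ∀ᵐ p ∂(ν.prod ν), Kt j p ≤ K p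
  Kint : Integrable K (ν.prod ν)
  H1 : ∀ n, ∀ᵐ p ∂(ν.prod ν), Integrable (fun ω => Y n ω p.1 * Y n ω p.2) (P n) ∧
    ∫ ω, Y n ω p.1 * Y n ω p.2 ∂(P n) ≤ K p
  H1b : ∀ᵐ p ∂(ν.prod ν), Tendsto (fun n => ∫ ω, Y n ω p.1 * Y n ω p.2 ∂(P n)) atTop (𝓝 (K p))
  H2 : ∀ j n x y, Integrable (fun ω => Y n ω x * Yt j n ω y) (P n) ∧
    ∫ ω, Y n ω x * Yt j n ω y ∂(P n) = ∫ ω, Yt j n ω x * Yt j n ω y ∂(P n)
  H3 : ∀ j, ∃ C : ℝ, ∀ n x, Integrable (fun ω => Yt j n ω x ^ 2) (P n) ∧
    ∫ ω, Yt j n ω x ^ 2 ∂(P n) ≤ C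
  H4 : ∀ j (B : ℝ≥0) (l : ℕ) (x : Fin l → S), ∃ L, Tendsto
    (fun n => ∫ ω, ∏ i, min (Yt j n ω (x i)) B ∂(P n)) atTop (𝓝 L)
  H5 : ∀ j, ∀ᵐ p ∂(ν.prod ν), Tendsto
    (fun n => min (∫ ω, Yt j n ω p.1 * Yt j n ω p.2 ∂(P n)) (Kt j p)) atTop (𝓝 (Kt j p))
  H6 : ∀ᵐ p ∂(ν.prod ν), Tendsto (fun j => Kt j p) atTop (𝓝 (K p))

variable {P ν} {Y : ∀ n, Ω n → S → ℝ} {Yt : ℕ → ∀ n, Ω n → S → ℝ} {K : S × S → ℝ}
  {Kt : ℕ → S × S → ℝ} (H : FieldHyp ν P Y Yt K Kt)

include H

lemma FieldHyp.tt (j n : ℕ) (x y : S) : Integrable (fun ω => Yt j n ω x * Yt j n ω y) (P n) := by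
  obtain ⟨C, hC⟩ := H.H3 j
  refine Integrable.mono' (((hC n x).1.add (hC n y).1)) ?_ ?_
  · exact (((H.mYt j n).comp measurable_prodMk_right).mul
      ((H.mYt j n).comp measurable_prodMk_right)).aestronglyMeasurable
  · filter_upwards with ω
    rw [Real.norm_eq_abs, abs_of_nonneg (mul_nonneg (H.Yt0 _ _ _ _) (H.Yt0 _ _ _ _))]
    simp only [Pi.add_apply]
    nlinarith [sq_nonneg (Yt j n ω x - Yt j n ω y), sq_nonneg (Yt j n ω x),
      sq_nonneg (Yt j n ω y)]

lemma FieldHyp.tt_le (j : ℕ) : ∃ C : ℝ, 0 ≤ C ∧ ∀ n x y,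
    ∫ ω, Yt j n ω x * Yt j n ω y ∂(P n) ≤ C := by
  obtain ⟨C, hC⟩ := H.H3 j
  refine ⟨|C| + |C|, by positivity, fun n x y => ?_⟩
  calc ∫ ω, Yt j n ω x * Yt j n ω y ∂(P n)
      ≤ ∫ ω, (Yt j n ω x ^ 2 + Yt j n ω y ^ 2) ∂(P n) := by
        refine integral_mono (H.tt j n x y) ((hC n x).1.add (hC n y).1) fun ω => ?_
        simp only
        nlinarith [sq_nonneg (Yt j n ω x - Yt j n ω y), sq_nonneg (Yt j n ω x),
          sq_nonneg (Yt j n ω y)]
    _ = ∫ ω, Yt j n ω x ^ 2 ∂(P n) + ∫ ω, Yt j n ω y ^ 2 ∂(P n) :=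
        integral_add (hC n x).1 (hC n y).1
    _ ≤ |C| + |C| := add_le_add ((hC n x).2.trans (le_abs_self _))
        ((hC n y).2.trans (le_abs_self _))

lemma FieldHyp.intYY (n : ℕ) : Integrable (fun q : Ω n × (S × S) => Y n q.1 q.2.1 * Y n q.1 q.2.2)
    ((P n).prod (ν.prod ν)) :=
  triple_integrable ν (P n) (H.mY n) (H.mY n) (H.Y0 n) (H.Y0 n) H.Kint (H.H1 n)

lemma FieldHyp.intTT (j n : ℕ) :
    Integrable (fun q : Ω n × (S × S) => Yt j n q.1 q.2.1 * Yt j n q.1 q.2.2)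
    ((P n).prod (ν.prod ν)) := by
  obtain ⟨C, hC0, hC⟩ := H.tt_le j
  exact triple_integrable ν (P n) (H.mYt j n) (H.mYt j n) (H.Yt0 j n) (H.Yt0 j n)
    (integrable_const C) (Eventually.of_forall fun p => ⟨H.tt j n _ _, hC n _ _⟩)

lemma FieldHyp.intYT (j n : ℕ) :
    Integrable (fun q : Ω n × (S × S) => Y n q.1 q.2.1 * Yt j n q.1 q.2.2)
    ((P n).prod (ν.prod ν)) := by
  obtain ⟨C, hC0, hC⟩ := H.tt_le j
  exact triple_integrable ν (P n) (H.mY n) (H.mYt j n) (H.Y0 n) (H.Yt0 j n)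
    (integrable_const C) (Eventually.of_forall fun p => ⟨(H.H2 j n _ _).1, by
      rw [(H.H2 j n _ _).2]; exact hC n _ _⟩)

/-- the squared distance is a difference of second moments -/
lemma FieldHyp.sq_dist (j n : ℕ) (f : C(S, ℝ)) :
    Integrable (fun ω => (∫ x, f x * Y n ω x ∂ν - ∫ x, f x * Yt j n ω x ∂ν) ^ 2) (P n) ∧
    ∫ ω, (∫ x, f x * Y n ω x ∂ν - ∫ x, f x * Yt j n ω x ∂ν) ^ 2 ∂(P n) =
      ∫ p : S × S, (f p.1 * f p.2) * (∫ ω, Y n ω p.1 * Y n ω p.2 ∂(P n)) ∂(ν.prod ν) -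
      ∫ p : S × S, (f p.1 * f p.2) * (∫ ω, Yt j n ω p.1 * Yt j n ω p.2 ∂(P n)) ∂(ν.prod ν) := by
  obtain ⟨i1, e1⟩ := two_fold ν (P n) (H.intYY n) f f
  obtain ⟨i2, e2⟩ := two_fold ν (P n) (H.intTT j n) f f
  obtain ⟨i3, e3⟩ := two_fold ν (P n) (H.intYT j n) f f
  have hexp : (fun ω => (∫ x, f x * Y n ω x ∂ν - ∫ x, f x * Yt j n ω x ∂ν) ^ 2) =
      fun ω => ((∫ x, f x * Y n ω x ∂ν) * (∫ x, f x * Y n ω x ∂ν) -
        2 * ((∫ x, f x * Y n ω x ∂ν) * (∫ x, f x * Yt j n ω x ∂ν))) +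
        (∫ x, f x * Yt j n ω x ∂ν) * (∫ x, f x * Yt j n ω x ∂ν) := by
    funext ω; ring
  rw [hexp]
  have i4 : Integrable (fun ω => (∫ x, f x * Y n ω x ∂ν) * (∫ x, f x * Y n ω x ∂ν) -
      2 * ((∫ x, f x * Y n ω x ∂ν) * (∫ x, f x * Yt j n ω x ∂ν))) (P n) :=
    i1.sub (i3.const_mul 2)
  refine ⟨i4.add i2, ?_⟩
  rw [integral_add i4 i2, integral_sub i1 (i3.const_mul 2), integral_const_mul, e1, e2, e3]
  have h5 : ∫ p : S × S, (f p.1 * f p.2) * (∫ ω, Y n ω p.1 * Yt j n ω p.2 ∂(P n)) ∂(ν.prod ν) =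
      ∫ p : S × S, (f p.1 * f p.2) * (∫ ω, Yt j n ω p.1 * Yt j n ω p.2 ∂(P n)) ∂(ν.prod ν) := by
    refine integral_congr_ae (Eventually.of_forall fun p => ?_)
    simp only
    rw [(H.H2 j n _ _).2]
  rw [h5]
  ring

/-- for nonnegative `f`, the truncation error is asymptotically small -/
lemma FieldHyp.small (f : C(S, ℝ)) (hf : ∀ x, 0 ≤ f x) {ε : ℝ} (hε : 0 < ε) :
    ∀ᶠ j in atTop, ∀ᶠ n in atTop,
      ∫ ω, (∫ x, f x * Y n ω x ∂ν - ∫ x, f x * Yt j n ω x ∂ν) ^ 2 ∂(P n) ≤ ε := by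
  have hfb : ∀ p : S × S, |f p.1 * f p.2| ≤ ‖f‖ * ‖f‖ := by
    intro p
    rw [abs_mul]
    gcongr
    · exact f.norm_coe_le_norm _
    · exact f.norm_coe_le_norm _
  have hfm : Measurable fun p : S × S => f p.1 * f p.2 :=
    (f.continuous.measurable.comp measurable_fst).mul (f.continuous.measurable.comp measurable_snd)
  have hKint' : Integrable (fun p : S × S => (f p.1 * f p.2) * K p) (ν.prod ν) := by
    refine H.Kint.bdd_mul (c := ‖f‖ * ‖f‖) hfm.aestronglyMeasurable ?_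
    filter_upwards with p using hfb p
  have hK0 : ∀ᵐ p ∂(ν.prod ν), 0 ≤ K p := by
    filter_upwards [H.KtK 0] with p hp using (H.Kt0 0 p).trans hp
  -- second moments converge
  have c1 : Tendsto (fun n => ∫ p : S × S, (f p.1 * f p.2) *
      (∫ ω, Y n ω p.1 * Y n ω p.2 ∂(P n)) ∂(ν.prod ν)) atTop
      (𝓝 (∫ p : S × S, (f p.1 * f p.2) * K p ∂(ν.prod ν))) := by
    refine tendsto_integral_of_dominated_convergence (fun p => (‖f‖ * ‖f‖) * K p) ?_
      (H.Kint.const_mul _) ?_ ?_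
    · intro n
      refine hfm.aestronglyMeasurable.mul ?_
      exact (H.intYY n).integral_prod_right.aestronglyMeasurable
    · intro n
      filter_upwards [H.H1 n] with p hp
      rw [norm_mul, Real.norm_eq_abs, Real.norm_eq_abs,
        abs_of_nonneg (integral_nonneg fun ω => mul_nonneg (H.Y0 _ _ _) (H.Y0 _ _ _))]
      exact mul_le_mul (hfb p) hp.2
        (integral_nonneg fun ω => mul_nonneg (H.Y0 _ _ _) (H.Y0 _ _ _)) (by positivity)
    · filter_upwards [H.H1b] with p hp using hp.const_mul _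
  -- truncated kernels
  have c2 : Tendsto (fun j => ∫ p : S × S, (f p.1 * f p.2) * Kt j p ∂(ν.prod ν)) atTop
      (𝓝 (∫ p : S × S, (f p.1 * f p.2) * K p ∂(ν.prod ν))) := by
    refine tendsto_integral_of_dominated_convergence (fun p => (‖f‖ * ‖f‖) * K p) ?_
      (H.Kint.const_mul _) ?_ ?_
    · intro j
      exact hfm.aestronglyMeasurable.mul (H.mKt j).aestronglyMeasurable
    · intro j
      filter_upwards [H.KtK j] with p hp
      rw [norm_mul, Real.norm_eq_abs, Real.norm_eq_abs, abs_of_nonneg (H.Kt0 j p)]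
      exact mul_le_mul (hfb p) hp (H.Kt0 j p) (by positivity)
    · filter_upwards [H.H6] with p hp using hp.const_mul _
  have c3 := (tendsto_order.1 c2).1 _ (sub_lt_self
    (∫ p : S × S, (f p.1 * f p.2) * K p ∂(ν.prod ν)) (show 0 < ε / 3 by positivity))
  filter_upwards [c3] with j hj
  have c4 : Tendsto (fun n => ∫ p : S × S, (f p.1 * f p.2) *
      min (∫ ω, Yt j n ω p.1 * Yt j n ω p.2 ∂(P n)) (Kt j p) ∂(ν.prod ν)) atTop
      (𝓝 (∫ p : S × S, (f p.1 * f p.2) * Kt j p ∂(ν.prod ν))) := by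
    refine tendsto_integral_of_dominated_convergence (fun p => (‖f‖ * ‖f‖) * K p) ?_
      (H.Kint.const_mul _) ?_ ?_
    · intro n
      refine hfm.aestronglyMeasurable.mul ?_
      exact ((H.intTT j n).integral_prod_right.aestronglyMeasurable.inf
        (H.mKt j).aestronglyMeasurable)
    · intro n
      filter_upwards [H.KtK j] with p hp
      have h0 : 0 ≤ min (∫ ω, Yt j n ω p.1 * Yt j n ω p.2 ∂(P n)) (Kt j p) :=
        le_min (integral_nonneg fun ω => mul_nonneg (H.Yt0 _ _ _ _) (H.Yt0 _ _ _ _)) (H.Kt0 j p)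
      rw [norm_mul, Real.norm_eq_abs, Real.norm_eq_abs, abs_of_nonneg h0]
      exact mul_le_mul (hfb p) ((min_le_right _ _).trans hp) h0 (by positivity)
    · filter_upwards [H.H5 j] with p hp using hp.const_mul _
  have c5 := (tendsto_order.1 c4).1 _ (sub_lt_self
    (∫ p : S × S, (f p.1 * f p.2) * Kt j p ∂(ν.prod ν)) (show 0 < ε / 3 by positivity))
  have c6 := (tendsto_order.1 c1).2 _ (lt_add_of_pos_right
    (∫ p : S × S, (f p.1 * f p.2) * K p ∂(ν.prod ν)) (show 0 < ε / 3 by positivity))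
  filter_upwards [c5, c6] with n h5 h6
  rw [(H.sq_dist j n f).2]
  have h7 : ∫ p : S × S, (f p.1 * f p.2) *
      min (∫ ω, Yt j n ω p.1 * Yt j n ω p.2 ∂(P n)) (Kt j p) ∂(ν.prod ν) ≤
      ∫ p : S × S, (f p.1 * f p.2) * (∫ ω, Yt j n ω p.1 * Yt j n ω p.2 ∂(P n)) ∂(ν.prod ν) := by
    obtain ⟨C, hC0, hC⟩ := H.tt_le j
    have hTm := (H.intTT j n).integral_prod_right.aestronglyMeasurable
    refine integral_mono ?_ ?_ ?_
    · refine Integrable.mono' (integrable_const ((‖f‖ * ‖f‖) * C))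
        (hfm.aestronglyMeasurable.mul (hTm.inf (H.mKt j).aestronglyMeasurable)) ?_
      filter_upwards with p
      have h0 : 0 ≤ min (∫ ω, Yt j n ω p.1 * Yt j n ω p.2 ∂(P n)) (Kt j p) :=
        le_min (integral_nonneg fun ω => mul_nonneg (H.Yt0 _ _ _ _) (H.Yt0 _ _ _ _)) (H.Kt0 j p)
      rw [norm_mul, Real.norm_eq_abs, Real.norm_eq_abs]
      refine mul_le_mul (hfb p) ?_ (abs_nonneg _) (by positivity)
      show |min (∫ ω, Yt j n ω p.1 * Yt j n ω p.2 ∂(P n)) (Kt j p)| ≤ C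
      rw [abs_of_nonneg h0]
      exact (min_le_left _ _).trans (hC n _ _)
    · refine Integrable.mono' (integrable_const ((‖f‖ * ‖f‖) * C))
        (hfm.aestronglyMeasurable.mul hTm) ?_
      filter_upwards with p
      have h0 : 0 ≤ ∫ ω, Yt j n ω p.1 * Yt j n ω p.2 ∂(P n) :=
        integral_nonneg fun ω => mul_nonneg (H.Yt0 _ _ _ _) (H.Yt0 _ _ _ _)
      rw [norm_mul, Real.norm_eq_abs, Real.norm_eq_abs]
      refine mul_le_mul (hfb p) ?_ (abs_nonneg _) (by positivity)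
      rw [abs_of_nonneg h0]
      exact hC n _ _
    · intro p
      exact mul_le_mul_of_nonneg_left (min_le_left _ _) (mul_nonneg (hf _) (hf _))
  linarith

lemma FieldHyp.measA (n : ℕ) (f : C(S, ℝ)) : Measurable fun ω => ∫ x, f x * Y n ω x ∂ν := by
  have h1 : StronglyMeasurable (Function.uncurry fun (ω : Ω n) (x : S) => f x * Y n ω x) :=
    ((f.continuous.measurable.comp measurable_snd).mul (H.mY n)).stronglyMeasurable
  exact (h1.integral_prod_right).measurable

lemma FieldHyp.measAt (j n : ℕ) (f : C(S, ℝ)) :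
    Measurable fun ω => ∫ x, f x * Yt j n ω x ∂ν := by
  have h1 : StronglyMeasurable (Function.uncurry fun (ω : Ω n) (x : S) => f x * Yt j n ω x) :=
    ((f.continuous.measurable.comp measurable_snd).mul (H.mYt j n)).stronglyMeasurable
  exact (h1.integral_prod_right).measurable

lemma FieldHyp.ae_int (n : ℕ) : ∀ᵐ ω ∂(P n), Integrable (Y n ω) ν := by
  have h1 := (H.intYY n).prod_right_ae
  filter_upwards [h1] with ω hω
  have hm : Measurable (Y n ω) := (H.mY n).comp measurable_prodMk_left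
  by_cases h0 : ∀ᵐ x ∂ν, Y n ω x = 0
  · exact (integrable_zero _ _ _).congr (h0.mono fun x hx => hx.symm)
  · have h2 : ∃ᵐ x ∂ν, Y n ω x ≠ 0 := Filter.not_eventually.1 h0
    have h3 := hω.prod_right_ae
    obtain ⟨x, hx0, hx⟩ := (h2.and_eventually h3).exists
    have := hx.const_mul (Y n ω x)⁻¹
    refine this.congr (Eventually.of_forall fun y => ?_)
    simp only
    rw [← mul_assoc, inv_mul_cancel₀ hx0, one_mul]

lemma FieldHyp.intT (j n : ℕ) (ω : Ω n) : Measurable (Yt j n ω) :=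
  (H.mYt j n).comp measurable_prodMk_left

lemma FieldHyp.int_t_prod (j n : ℕ) : Integrable (fun q : Ω n × S => Yt j n q.1 q.2 ^ 2)
    ((P n).prod ν) := by
  obtain ⟨C, hC⟩ := H.H3 j
  have hm : Measurable (fun q : Ω n × S => Yt j n q.1 q.2 ^ 2) := (H.mYt j n).pow_const 2
  rw [integrable_prod_iff' hm.aestronglyMeasurable]
  refine ⟨Eventually.of_forall fun x => (hC n x).1, ?_⟩
  refine Integrable.mono' (integrable_const C) ?_ ?_
  · have : StronglyMeasurable (fun x : S => ∫ ω, ‖Yt j n ω x ^ 2‖ ∂(P n)) :=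
      StronglyMeasurable.integral_prod_left (f := fun (ω : Ω n) (x : S) => ‖Yt j n ω x ^ 2‖)
        hm.norm.stronglyMeasurable
    exact this.aestronglyMeasurable
  · filter_upwards with x
    rw [Real.norm_eq_abs, abs_of_nonneg (integral_nonneg fun ω => norm_nonneg _)]
    refine le_trans (le_of_eq ?_) (hC n x).2
    refine integral_congr_ae (Eventually.of_forall fun ω => ?_)
    exact abs_of_nonneg (sq_nonneg _)

lemma FieldHyp.ae_int_t (j n : ℕ) : ∀ᵐ ω ∂(P n), Integrable (Yt j n ω) ν := by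
  filter_upwards [(H.int_t_prod j n).prod_right_ae] with ω hω
  refine Integrable.mono' (hω.add (integrable_const 1)) (H.intT j n ω).aestronglyMeasurable ?_
  filter_upwards with x
  rw [Real.norm_eq_abs, abs_of_nonneg (H.Yt0 _ _ _ _)]
  simp only [Pi.add_apply]
  nlinarith [sq_nonneg (Yt j n ω x - 1)]

/-- general continuous `f` -/
lemma FieldHyp.small' (f : C(S, ℝ)) {ε : ℝ} (hε : 0 < ε) :
    ∀ᶠ j in atTop, ∀ᶠ n in atTop,
      ∫ ω, |∫ x, f x * Y n ω x ∂ν - ∫ x, f x * Yt j n ω x ∂ν| ∂(P n) ≤ ε := by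
  let c : C(S, ℝ) := ContinuousMap.const S ‖f‖
  have hfc : ∀ x, 0 ≤ (f + c) x := by
    intro x
    have := f.norm_coe_le_norm x
    rw [Real.norm_eq_abs] at this
    have h2 := neg_abs_le (f x)
    simp only [ContinuousMap.add_apply, c, ContinuousMap.const_apply]
    linarith
  have hc : ∀ x, 0 ≤ c x := fun x => norm_nonneg f
  have hη : 0 < ε ^ 2 / 16 := by positivity
  filter_upwards [H.small (f + c) hfc hη, H.small c hc hη] with j h1 h2
  filter_upwards [h1, h2] with n h1 h2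
  obtain ⟨i1, -⟩ := H.sq_dist j n (f + c)
  obtain ⟨i2, -⟩ := H.sq_dist j n c
  have key : ∀ᵐ ω ∂(P n), |∫ x, f x * Y n ω x ∂ν - ∫ x, f x * Yt j n ω x ∂ν| ≤
      (2 / ε) * ((∫ x, (f + c) x * Y n ω x ∂ν - ∫ x, (f + c) x * Yt j n ω x ∂ν) ^ 2
        + (∫ x, c x * Y n ω x ∂ν - ∫ x, c x * Yt j n ω x ∂ν) ^ 2) + ε / 4 := by
    filter_upwards [H.ae_int n, H.ae_int_t j n] with ω hi hit
    have e1 : ∀ z : S → ℝ, Integrable z ν → ∫ x, (f + c) x * z x ∂ν =
        ∫ x, f x * z x ∂ν + ∫ x, c x * z x ∂ν := by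
      intro z hz
      rw [← integral_add]
      · refine integral_congr_ae (Eventually.of_forall fun x => ?_)
        simp only [ContinuousMap.add_apply]; ring
      · exact hz.bdd_mul (c := ‖f‖) f.continuous.measurable.aestronglyMeasurable
          (Eventually.of_forall fun x => f.norm_coe_le_norm x)
      · exact hz.bdd_mul (c := ‖c‖) c.continuous.measurable.aestronglyMeasurable
          (Eventually.of_forall fun x => c.norm_coe_le_norm x)
    rw [e1 _ hi, e1 _ hit]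
    set a := ∫ x, f x * Y n ω x ∂ν
    set b := ∫ x, f x * Yt j n ω x ∂ν
    set a' := ∫ x, c x * Y n ω x ∂ν
    set b' := ∫ x, c x * Yt j n ω x ∂ν
    have h3 : |a - b| ≤ |(a + a') - (b + b')| + |a' - b'| := by
      have : a - b = ((a + a') - (b + b')) - (a' - b') := by ring
      rw [this]
      exact abs_sub _ _
    have h4 : ∀ u : ℝ, |u| ≤ (2 / ε) * u ^ 2 + ε / 8 := by
      intro u
      rw [← sq_abs]
      have h5 : 0 ≤ (2 / ε) * (|u| - ε / 4) ^ 2 := by positivity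
      have h6 : (2 / ε) * (|u| - ε / 4) ^ 2 = (2 / ε) * |u| ^ 2 - |u| + ε / 8 := by
        field_simp
        ring
      linarith
    have h7 := h4 ((a + a') - (b + b'))
    have h8 := h4 (a' - b')
    have h9 : 2 / ε * (((a + a') - (b + b')) ^ 2 + (a' - b') ^ 2) + ε / 4 =
      (2 / ε * ((a + a') - (b + b')) ^ 2 + ε / 8) + (2 / ε * (a' - b') ^ 2 + ε / 8) := by ring
    rw [h9]
    linarith
  have hb : Integrable (fun ω => (2 / ε) * ((∫ x, (f + c) x * Y n ω x ∂ν -
      ∫ x, (f + c) x * Yt j n ω x ∂ν) ^ 2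
        + (∫ x, c x * Y n ω x ∂ν - ∫ x, c x * Yt j n ω x ∂ν) ^ 2) + ε / 4) (P n) :=
    ((i1.add i2).const_mul _).add (integrable_const _)
  calc ∫ ω, |∫ x, f x * Y n ω x ∂ν - ∫ x, f x * Yt j n ω x ∂ν| ∂(P n)
      ≤ ∫ ω, ((2 / ε) * ((∫ x, (f + c) x * Y n ω x ∂ν - ∫ x, (f + c) x * Yt j n ω x ∂ν) ^ 2
        + (∫ x, c x * Y n ω x ∂ν - ∫ x, c x * Yt j n ω x ∂ν) ^ 2) + ε / 4) ∂(P n) := by
        refine integral_mono_ae ?_ hb key
        refine Integrable.mono' hb ?_ ?_
        · exact ((H.measA n f).sub (H.measAt j n f)).norm.aestronglyMeasurable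
        · filter_upwards [key] with ω hω
          rw [Real.norm_eq_abs, abs_abs]
          exact hω
    _ = (2 / ε) * (∫ ω, (∫ x, (f + c) x * Y n ω x ∂ν - ∫ x, (f + c) x * Yt j n ω x ∂ν) ^ 2 ∂(P n)
        + ∫ ω, (∫ x, c x * Y n ω x ∂ν - ∫ x, c x * Yt j n ω x ∂ν) ^ 2 ∂(P n)) + ε / 4 := by
        have i3 : Integrable (fun ω => (2 / ε) * ((∫ x, (f + c) x * Y n ω x ∂ν -
          ∫ x, (f + c) x * Yt j n ω x ∂ν) ^ 2
          + (∫ x, c x * Y n ω x ∂ν - ∫ x, c x * Yt j n ω x ∂ν) ^ 2)) (P n) :=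
            (i1.add i2).const_mul _
        rw [integral_add i3 (integrable_const _), integral_const_mul, integral_add i1 i2]
        simp
    _ ≤ (2 / ε) * (ε ^ 2 / 16 + ε ^ 2 / 16) + ε / 4 := by gcongr
    _ = ε / 2 := by field_simp; ring
    _ ≤ ε := by linarith

/-- cutting the truncated density at level `B` -/
lemma FieldHyp.cut (f : C(S, ℝ)) (j : ℕ) {ε : ℝ} (hε : 0 < ε) :
    ∃ B0 : ℝ≥0, ∀ B ≥ B0, ∀ n,
      ∫ ω, |∫ x, f x * Yt j n ω x ∂ν - ∫ x, f x * min (Yt j n ω x) B ∂ν| ∂(P n) ≤ ε := by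
  obtain ⟨C, hC⟩ := H.H3 j
  refine ⟨⟨(‖f‖ * |C|) / ε + 1, by positivity⟩, fun B hB n => ?_⟩
  have hB' : (‖f‖ * |C|) / ε + 1 ≤ (B : ℝ) := by exact_mod_cast hB
  have hB0 : 0 < (B : ℝ) := lt_of_lt_of_le (by positivity) hB'
  have hptw : ∀ y : ℝ, 0 ≤ y → |y - min y B| ≤ y ^ 2 / B := by
    intro y hy
    rcases le_total y B with h | h
    · rw [min_eq_left h, sub_self, abs_zero]; positivity
    · rw [min_eq_right h, abs_of_nonneg (by linarith), le_div_iff₀ hB0]
      nlinarith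
  have key : ∀ᵐ ω ∂(P n), |∫ x, f x * Yt j n ω x ∂ν - ∫ x, f x * min (Yt j n ω x) B ∂ν| ≤
      (‖f‖ / B) * ∫ x, Yt j n ω x ^ 2 ∂ν := by
    filter_upwards [H.ae_int_t j n, (H.int_t_prod j n).prod_right_ae] with ω h1 h2
    have hm := H.intT j n ω
    have i1 : Integrable (fun x => f x * Yt j n ω x) ν :=
      h1.bdd_mul (c := ‖f‖) f.continuous.measurable.aestronglyMeasurable
          (Eventually.of_forall fun x => f.norm_coe_le_norm x)
    have i2 : Integrable (fun x => f x * min (Yt j n ω x) B) ν := by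
      refine Integrable.bdd_mul (c := ‖f‖) ?_ f.continuous.measurable.aestronglyMeasurable
          (Eventually.of_forall fun x => f.norm_coe_le_norm x)
      exact h1.inf (integrable_const _)
    rw [← integral_sub i1 i2, ← integral_const_mul, ← Real.norm_eq_abs]
    refine norm_integral_le_of_norm_le (h2.const_mul (‖f‖ / B)) ?_
    filter_upwards with x
    rw [← mul_sub, norm_mul, div_mul_eq_mul_div, mul_div_assoc]
    exact mul_le_mul (f.norm_coe_le_norm x) (hptw _ (H.Yt0 _ _ _ _)) (norm_nonneg _)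
      (norm_nonneg _)
  have hint : Integrable (fun ω => ∫ x, Yt j n ω x ^ 2 ∂ν) (P n) :=
    (H.int_t_prod j n).integral_prod_left
  have hval : ∫ ω, ∫ x, Yt j n ω x ^ 2 ∂ν ∂(P n) ≤ |C| := by
    rw [integral_integral_swap (H.int_t_prod j n)]
    calc ∫ x, ∫ ω, Yt j n ω x ^ 2 ∂(P n) ∂ν ≤ ∫ _, C ∂ν := by
          refine integral_mono (H.int_t_prod j n).integral_prod_right (integrable_const _) ?_
          intro x
          exact (hC n x).2
      _ = C := by simp
      _ ≤ |C| := le_abs_self _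
  have hmeas : AEStronglyMeasurable (fun ω => |∫ x, f x * Yt j n ω x ∂ν -
      ∫ x, f x * min (Yt j n ω x) B ∂ν|) (P n) := by
    have h1 : StronglyMeasurable (Function.uncurry fun (ω : Ω n) (x : S) =>
        f x * min (Yt j n ω x) B) :=
      ((f.continuous.measurable.comp measurable_snd).mul
        ((H.mYt j n).min measurable_const)).stronglyMeasurable
    exact ((H.measAt j n f).sub (h1.integral_prod_right).measurable).norm.aestronglyMeasurable
  calc ∫ ω, |∫ x, f x * Yt j n ω x ∂ν - ∫ x, f x * min (Yt j n ω x) B ∂ν| ∂(P n)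
      ≤ ∫ ω, (‖f‖ / B) * ∫ x, Yt j n ω x ^ 2 ∂ν ∂(P n) := by
        refine integral_mono_ae ?_ (hint.const_mul _) key
        refine Integrable.mono' (hint.const_mul (‖f‖ / B)) hmeas ?_
        filter_upwards [key] with ω hω
        rw [Real.norm_eq_abs, abs_abs]
        exact hω
    _ = (‖f‖ / B) * ∫ ω, ∫ x, Yt j n ω x ^ 2 ∂ν ∂(P n) := integral_const_mul _ _
    _ ≤ (‖f‖ / B) * |C| := by gcongr
    _ ≤ ε := by
        rw [div_mul_eq_mul_div, div_le_iff₀ hB0]
        have h3 : (‖f‖ * |C|) / ε ≤ B := by linarith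
        rw [div_le_iff₀ hε] at h3
        linarith

/-- main result of module D2 -/
theorem FieldHyp.conv (l : ℕ) (f : Fin l → C(S, ℝ)) (g : (Fin l → ℝ) → ℝ)
    (hg : UniformContinuous g) (hgb : ∃ B, ∀ y, |g y| ≤ B) :
    ∃ L, Tendsto (fun n => ∫ ω, g (fun i => ∫ x, f i x * Y n ω x ∂ν) ∂(P n)) atTop (𝓝 L) := by
  obtain ⟨G, hG⟩ := hgb
  have hG0 : 0 ≤ G := (abs_nonneg _).trans (hG 0)
  apply conv_of_approx
  intro ε hε
  obtain ⟨η, hη, hηg⟩ := Metric.uniformContinuous_iff.1 hg (ε / 2) (by positivity)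
  -- choose the levels
  set δ : ℝ := ε * η / (8 * (G + 1) * (l + 1)) with hδ
  have hδ0 : 0 < δ := by positivity
  have h1 : ∀ᶠ j in atTop, ∀ i : Fin l, ∀ᶠ n in atTop,
      ∫ ω, |∫ x, f i x * Y n ω x ∂ν - ∫ x, f i x * Yt j n ω x ∂ν| ∂(P n) ≤ δ :=
    eventually_all.2 fun i => H.small' (f i) hδ0
  obtain ⟨j, hj⟩ := h1.exists
  have h2 : ∀ i : Fin l, ∃ B0 : ℝ≥0, ∀ B ≥ B0, ∀ n,
      ∫ ω, |∫ x, f i x * Yt j n ω x ∂ν - ∫ x, f i x * min (Yt j n ω x) B ∂ν| ∂(P n) ≤ δ :=
    fun i => H.cut (f i) j hδ0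
  choose B0 hB0 using h2
  set B : ℝ≥0 := ∑ i, B0 i with hBdef
  have hB : ∀ i, B0 i ≤ B := fun i => Finset.single_le_sum (fun _ _ => zero_le) (Finset.mem_univ i)
  have hZm : ∀ n, Measurable (Function.uncurry fun (ω : Ω n) (x : S) => min (Yt j n ω x) B) :=
    fun n => (H.mYt j n).min measurable_const
  have hZ0 : ∀ n (ω : Ω n) x, 0 ≤ min (Yt j n ω x) (B : ℝ) := fun n ω x =>
    le_min (H.Yt0 _ _ _ _) B.2
  have hZB : ∀ n (ω : Ω n) x, min (Yt j n ω x) (B : ℝ) ≤ B := fun n ω x => min_le_right _ _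
  have hZev : ∀ n (ω : Ω n) (f : C(S, ℝ)), evl f (dm ν fun x => min (Yt j n ω x) B) =
      ∫ x, f x * min (Yt j n ω x) B ∂ν := by
    intro n ω f
    refine evl_dm ν ((hZm n).comp measurable_prodMk_left) (hZ0 n ω) ?_ f
    refine Integrable.of_bound ((hZm n).comp measurable_prodMk_left).aestronglyMeasurable B ?_
    filter_upwards with x
    rw [Function.comp, Function.uncurry, Real.norm_eq_abs, abs_of_nonneg (hZ0 n ω x)]
    exact hZB n ω x
  refine ⟨fun n => ∫ ω, g (fun i => ∫ x, f i x * min (Yt j n ω x) B ∂ν) ∂(P n), ?_, ?_⟩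
  · have := trunc_conv ν P (fun n ω x => min (Yt j n ω x) B) hZm B hZ0 hZB
      (fun l x => H.H4 j B l x) (Φ := fun μ => g fun i => evl (f i) μ)
      (hg.continuous.comp (continuous_pi fun i => continuous_evl (f i)))
    simp_rw [hZev] at this
    exact this
  · have h3 : ∀ᶠ n in atTop, ∀ i : Fin l,
      ∫ ω, |∫ x, f i x * Y n ω x ∂ν - ∫ x, f i x * Yt j n ω x ∂ν| ∂(P n) ≤ δ :=
      eventually_all.2 hj
    filter_upwards [h3] with n hn
    have mA : ∀ i, Measurable fun ω => ∫ x, f i x * Y n ω x ∂ν := fun i => H.measA n (f i)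
    have mT : ∀ i, Measurable fun ω => ∫ x, f i x * Yt j n ω x ∂ν := fun i => H.measAt j n (f i)
    have mC : ∀ i, Measurable fun ω => ∫ x, f i x * min (Yt j n ω x) B ∂ν := by
      intro i
      have h1 : StronglyMeasurable (Function.uncurry fun (ω : Ω n) (x : S) =>
          f i x * min (Yt j n ω x) B) :=
        (((f i).continuous.measurable.comp measurable_snd).mul (hZm n)).stronglyMeasurable
      exact (h1.integral_prod_right).measurable
    have gm := hg.continuous.measurable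
    have iA : Integrable (fun ω => g (fun i => ∫ x, f i x * Y n ω x ∂ν)) (P n) :=
      Integrable.of_bound (gm.comp (measurable_pi_lambda _ mA)).aestronglyMeasurable G
        (Eventually.of_forall fun ω => hG _)
    have iC : Integrable (fun ω => g (fun i => ∫ x, f i x * min (Yt j n ω x) B ∂ν)) (P n) :=
      Integrable.of_bound (gm.comp (measurable_pi_lambda _ mC)).aestronglyMeasurable G
        (Eventually.of_forall fun ω => hG _)
    -- integrability of the errors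
    have iE1 : ∀ i, Integrable (fun ω => |∫ x, f i x * Y n ω x ∂ν -
        ∫ x, f i x * Yt j n ω x ∂ν|) (P n) := by
      intro i
      obtain ⟨i1, -⟩ := H.sq_dist j n (f i)
      refine Integrable.mono' (i1.add (integrable_const 1))
        ((mA i).sub (mT i)).norm.aestronglyMeasurable ?_
      filter_upwards with ω
      rw [Real.norm_eq_abs, abs_abs]
      simp only [Pi.add_apply]
      rw [← sq_abs]
      nlinarith [sq_nonneg (|∫ x, f i x * Y n ω x ∂ν - ∫ x, f i x * Yt j n ω x ∂ν| - 1)]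
    have iE2 : ∀ i, Integrable (fun ω => |∫ x, f i x * Yt j n ω x ∂ν -
        ∫ x, f i x * min (Yt j n ω x) B ∂ν|) (P n) := by
      intro i
      have hC0 : Integrable (fun ω => ∫ x, f i x * min (Yt j n ω x) B ∂ν) (P n) := by
        refine Integrable.of_bound (mC i).aestronglyMeasurable (‖f i‖ * B) ?_
        filter_upwards with ω
        refine (norm_integral_le_of_norm_le_const (C := ‖f i‖ * B) ?_).trans (by simp)
        filter_upwards with x
        rw [norm_mul]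
        refine mul_le_mul ((f i).norm_coe_le_norm x) ?_ (norm_nonneg _) (norm_nonneg _)
        rw [Real.norm_eq_abs, abs_of_nonneg (hZ0 n ω x)]
        exact hZB n ω x
      have hT0 : Integrable (fun ω => ∫ x, f i x * Yt j n ω x ∂ν) (P n) := by
        have h5 : Integrable (fun q : Ω n × S => f i q.2 * Yt j n q.1 q.2) ((P n).prod ν) := by
          refine Integrable.mono' (((H.int_t_prod j n).add (integrable_const 1)).const_mul ‖f i‖)
            ?_ ?_
          · exact (((f i).continuous.measurable.comp measurable_snd).mul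
              (H.mYt j n)).aestronglyMeasurable
          · filter_upwards with q
            rw [norm_mul, Real.norm_eq_abs (Yt j n q.1 q.2), abs_of_nonneg (H.Yt0 _ _ _ _)]
            simp only [Pi.add_apply]
            refine mul_le_mul ((f i).norm_coe_le_norm _) ?_ (H.Yt0 _ _ _ _) (norm_nonneg _)
            nlinarith [sq_nonneg (Yt j n q.1 q.2 - 1)]
        exact h5.integral_prod_left
      exact (hT0.sub hC0).abs
    rw [← integral_sub iA iC]
    set E : Ω n → ℝ := fun ω => ∑ i, (|∫ x, f i x * Y n ω x ∂ν - ∫ x, f i x * Yt j n ω x ∂ν| +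
      |∫ x, f i x * Yt j n ω x ∂ν - ∫ x, f i x * min (Yt j n ω x) B ∂ν|) with hE
    have iE : Integrable E (P n) :=
      integrable_finsetSum _ fun i _ => (iE1 i).add (iE2 i)
    have hpt : ∀ ω, ‖g (fun i => ∫ x, f i x * Y n ω x ∂ν) -
        g (fun i => ∫ x, f i x * min (Yt j n ω x) B ∂ν)‖ ≤ ε / 2 + (2 * G / η) * E ω := by
      intro ω
      have hE0 : 0 ≤ E ω := Finset.sum_nonneg fun i _ => by positivity
      have hd : dist (fun i => ∫ x, f i x * Y n ω x ∂ν)
          (fun i => ∫ x, f i x * min (Yt j n ω x) B ∂ν) ≤ E ω := by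
        rw [dist_pi_le_iff hE0]
        intro i
        rw [Real.dist_eq]
        calc |∫ x, f i x * Y n ω x ∂ν - ∫ x, f i x * min (Yt j n ω x) B ∂ν|
            ≤ |∫ x, f i x * Y n ω x ∂ν - ∫ x, f i x * Yt j n ω x ∂ν| +
              |∫ x, f i x * Yt j n ω x ∂ν - ∫ x, f i x * min (Yt j n ω x) B ∂ν| :=
              abs_sub_le _ _ _
          _ ≤ E ω := Finset.single_le_sum (f := fun i =>
              |∫ x, f i x * Y n ω x ∂ν - ∫ x, f i x * Yt j n ω x ∂ν| +
              |∫ x, f i x * Yt j n ω x ∂ν - ∫ x, f i x * min (Yt j n ω x) B ∂ν|)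
              (fun i _ => by positivity) (Finset.mem_univ i)
      by_cases hlt : dist (fun i => ∫ x, f i x * Y n ω x ∂ν)
          (fun i => ∫ x, f i x * min (Yt j n ω x) B ∂ν) < η
      · have h4 := hηg hlt
        rw [dist_eq_norm] at h4
        have : 0 ≤ (2 * G / η) * E ω := by positivity
        linarith
      · push Not at hlt
        have h5 : η ≤ E ω := hlt.trans hd
        have h6 : 2 * G ≤ (2 * G / η) * E ω := by
          rw [div_mul_eq_mul_div, le_div_iff₀ hη]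
          exact mul_le_mul_of_nonneg_left h5 (by positivity)
        have h7 : ‖g (fun i => ∫ x, f i x * Y n ω x ∂ν) -
            g (fun i => ∫ x, f i x * min (Yt j n ω x) B ∂ν)‖ ≤ G + G :=
          (norm_sub_le _ _).trans (add_le_add (hG _) (hG _))
        linarith
    have hEint : ∫ ω, E ω ∂(P n) ≤ l * (2 * δ) := by
      have hI : ∀ i ∈ (Finset.univ : Finset (Fin l)), Integrable (fun ω =>
          |∫ x, f i x * Y n ω x ∂ν - ∫ x, f i x * Yt j n ω x ∂ν| +
          |∫ x, f i x * Yt j n ω x ∂ν - ∫ x, f i x * min (Yt j n ω x) B ∂ν|) (P n) :=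
        fun i _ => (iE1 i).add (iE2 i)
      rw [hE, integral_finsetSum _ hI]
      calc ∑ i, ∫ ω, (|∫ x, f i x * Y n ω x ∂ν - ∫ x, f i x * Yt j n ω x ∂ν| +
            |∫ x, f i x * Yt j n ω x ∂ν - ∫ x, f i x * min (Yt j n ω x) B ∂ν|) ∂(P n)
          ≤ ∑ _i : Fin l, 2 * δ := by
            refine Finset.sum_le_sum fun i _ => ?_
            rw [integral_add (iE1 i) (iE2 i)]
            linarith [hn i, hB0 i B (hB i) n]
        _ = l * (2 * δ) := by simp
    calc ‖∫ ω, (g (fun i => ∫ x, f i x * Y n ω x ∂ν) -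
          g (fun i => ∫ x, f i x * min (Yt j n ω x) B ∂ν)) ∂(P n)‖
        ≤ ∫ ω, (ε / 2 + (2 * G / η) * E ω) ∂(P n) :=
          norm_integral_le_of_norm_le ((integrable_const _).add (iE.const_mul _))
            (Eventually.of_forall hpt)
      _ = ε / 2 + (2 * G / η) * ∫ ω, E ω ∂(P n) := by
          rw [integral_add (integrable_const _) (iE.const_mul _), integral_const_mul]
          simp
      _ ≤ ε / 2 + (2 * G / η) * (l * (2 * δ)) := by gcongr
      _ ≤ ε := by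
          have h8 : (2 * G / η) * (l * (2 * δ)) = (ε / 2) * ((G / (G + 1)) * (l / (l + 1))) := by
            rw [hδ]; field_simp; ring
          have h9 : G / (G + 1) ≤ 1 := by rw [div_le_one (by positivity)]; linarith
          have h10 : (l : ℝ) / (l + 1) ≤ 1 := by rw [div_le_one (by positivity)]; linarith
          have h11 : (G / (G + 1)) * ((l : ℝ) / (l + 1)) ≤ 1 :=
            mul_le_one₀ h9 (by positivity) h10
          rw [h8]
          nlinarith

end main

end Pool.Agent.helper84.SG
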