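import Mathlib

/-!
# A Lévy continuity statement for finite measures on the line (MP_55470d_pr, module D3)
-/

set_option autoImplicit false
open MeasureTheory ProbabilityTheory Filter Topology
open scoped NNReal ENNReal BoundedContinuousFunction

namespace Pool.Agent.helper84.SG

lemma tendsto_charFun_of_tendsto {𝓕 : Filter ℕ} {κ : ℕ → FiniteMeasure ℝ} {μ : FiniteMeasure ℝ}
    (h : Tendsto κ 𝓕 (𝓝 μ)) (s : ℝ) :
    Tendsto (fun n => charFun (κ n : Measure ℝ) s) 𝓕 (𝓝 (charFun (μ : Measure ℝ) s)) := by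
  have h1 := (FiniteMeasure.tendsto_iff_forall_integral_rclike_tendsto ℂ).1 h
  let g : ℝ →ᵇ ℂ := BoundedContinuousFunction.innerProbChar s
  have h2 := h1 g
  simpa [charFun_eq_integral_innerProbChar, g] using h2

theorem conv_of_charFun (κ : ℕ → FiniteMeasure ℝ) (C : ℝ≥0) (hC : ∀ n, (κ n).mass ≤ C)
    (u : ℕ → ℝ≥0) (hu : Tendsto u atTop (𝓝 0))
    (ht : ∀ n (b : ℕ), κ n (Set.Icc (-(b : ℝ)) b)ᶜ ≤ u b)
    (hchar : ∀ s : ℝ, ∃ Θ : ℂ, Tendsto (fun n => charFun (κ n : Measure ℝ) s) atTop (𝓝 Θ))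
    (g : ℝ →ᵇ ℝ) :
    ∃ L, Tendsto (fun n => ∫ y, g y ∂(κ n : Measure ℝ)) atTop (𝓝 L) := by
  have hcomp : IsCompact {μ : FiniteMeasure ℝ | μ.mass ≤ C ∧
      ∀ b : ℕ, μ (Set.Icc (-(b : ℝ)) b)ᶜ ≤ u b} :=
    isCompact_setOfPred_finiteMeasure_mass_le_compl_isCompact_le C hu
      (fun b => isCompact_Icc) (Or.inl inferInstance)
  have hlim : ∀ U : Ultrafilter ℕ, (U : Filter ℕ) ≤ atTop → ∃ μ : FiniteMeasure ℝ,
      Tendsto κ U (𝓝 μ) := by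
    intro U _
    have h1 : ({μ : FiniteMeasure ℝ | μ.mass ≤ C ∧
      ∀ b : ℕ, μ (Set.Icc (-(b : ℝ)) b)ᶜ ≤ u b}) ∈ U.map κ := by
      rw [Ultrafilter.mem_map]
      have : κ ⁻¹' {μ : FiniteMeasure ℝ | μ.mass ≤ C ∧
        ∀ b : ℕ, μ (Set.Icc (-(b : ℝ)) b)ᶜ ≤ u b} = Set.univ := by
        ext n; simp only [Set.mem_preimage, Set.mem_ofPred_eq, Set.mem_univ, iff_true]
        exact ⟨hC n, ht n⟩
      rw [this]; exact Filter.univ_mem
    obtain ⟨μ, -, hμ⟩ := hcomp.ultrafilter_le_nhds' (U.map κ) h1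
    exact ⟨μ, hμ⟩
  choose Θ hΘ using hchar
  have huniq : ∀ (U V : Ultrafilter ℕ), (U : Filter ℕ) ≤ atTop → (V : Filter ℕ) ≤ atTop →
      ∀ μ μ' : FiniteMeasure ℝ, Tendsto κ U (𝓝 μ) → Tendsto κ V (𝓝 μ') → μ = μ' := by
    intro U V hU hV μ μ' h h'
    apply FiniteMeasure.toMeasure_injective
    apply Measure.ext_of_charFun
    funext s
    have e1 := tendsto_nhds_unique (tendsto_charFun_of_tendsto h s) ((hΘ s).mono_left hU)
    have e2 := tendsto_nhds_unique (tendsto_charFun_of_tendsto h' s) ((hΘ s).mono_left hV)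
    rw [e1, e2]
  obtain ⟨U0, hU0⟩ : ∃ U : Ultrafilter ℕ, (U : Filter ℕ) ≤ atTop :=
    ⟨Ultrafilter.of atTop, Ultrafilter.of_le atTop⟩
  obtain ⟨μ0, hμ0⟩ := hlim U0 hU0
  refine ⟨∫ y, g y ∂(μ0 : Measure ℝ), ?_⟩
  rw [tendsto_iff_ultrafilter]
  intro V hV
  obtain ⟨μ1, hμ1⟩ := hlim V hV
  have h3 := huniq U0 V hU0 hV μ0 μ1 hμ0 hμ1
  rw [h3]
  exact (FiniteMeasure.tendsto_iff_forall_integral_tendsto.1 hμ1) g

end Pool.Agent.helper84.SG
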