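import Mathlib
import Pool.Agent.helper84.SG.Approx
import Pool.Agent.helper84.SG.LevyFin

/-!
# Removing an independent factor by Mellin transform (MP_55470d_pr, module D3)
-/

set_option autoImplicit false
set_option linter.unusedSectionVars false
open MeasureTheory ProbabilityTheory Filter Topology
open scoped NNReal ENNReal BoundedContinuousFunction

namespace Pool.Agent.helper84.SG

/-- cutoff function -/
noncomputable def cutf (R t : ℝ) : ℝ := max 0 (min 1 (R + 1 - t))

lemma cutf_nonneg (R t : ℝ) : 0 ≤ cutf R t := le_max_left _ _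

lemma cutf_le_one (R t : ℝ) : cutf R t ≤ 1 := max_le zero_le_one (min_le_left _ _)

lemma cutf_eq_one {R t : ℝ} (h : t ≤ R) : cutf R t = 1 := by
  unfold cutf
  rw [min_eq_left (by linarith), max_eq_right zero_le_one]

lemma cutf_eq_zero {R t : ℝ} (h : R + 1 ≤ t) : cutf R t = 0 := by
  unfold cutf
  rw [max_eq_left]
  exact (min_le_right _ _).trans (by linarith)

lemma continuous_cutf (R : ℝ) : Continuous (cutf R) := by
  unfold cutf
  fun_prop

/-- the homogeneous functional -/
noncomputable def Gf {l : ℕ} (ζ : ℂ) (c : Fin l → ℝ) (y : Fin (l + 1) → ℝ) : ℂ :=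
  ((max (y 0) 0 : ℝ) : ℂ) ^ ζ * ∏ i : Fin l, ((min (max (y i.succ / y 0) 0) (c i) : ℝ) : ℂ)

lemma norm_clamp_le {c : ℝ} (hc : 0 ≤ c) (t : ℝ) : ‖((min (max t 0) c : ℝ) : ℂ)‖ ≤ c := by
  rw [Complex.norm_real, Real.norm_eq_abs, abs_of_nonneg (le_min (le_max_right _ _) hc)]
  exact min_le_right _ _

lemma norm_Gf_le {l : ℕ} {ζ : ℂ} (hζ : 0 < ζ.re) {c : Fin l → ℝ} (hc : ∀ i, 0 ≤ c i)
    (y : Fin (l + 1) → ℝ) : ‖Gf ζ c y‖ ≤ (max (y 0) 0) ^ ζ.re * ∏ i, c i := by
  unfold Gf
  rw [norm_mul, Complex.norm_cpow_eq_rpow_re_of_nonneg (le_max_right _ _) hζ.ne', norm_prod]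
  gcongr with i _
  exact norm_clamp_le (hc i) _

lemma continuous_Gf {l : ℕ} {ζ : ℂ} (hζ : 0 < ζ.re) {c : Fin l → ℝ} (hc : ∀ i, 0 ≤ c i) :
    Continuous (Gf ζ c) := by
  rw [continuous_iff_continuousAt]
  intro y
  rcases le_or_gt (y 0) 0 with h | h
  · have h0 : Gf ζ c y = 0 := by
      unfold Gf
      rw [max_eq_right h, Complex.ofReal_zero, Complex.zero_cpow, zero_mul]
      intro hz; rw [hz] at hζ; simp at hζ
    rw [ContinuousAt, h0, tendsto_zero_iff_norm_tendsto_zero]
    have h1 : Tendsto (fun y' : Fin (l + 1) → ℝ => (max (y' 0) 0) ^ ζ.re * ∏ i, c i) (𝓝 y)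
        (𝓝 ((max (y 0) 0) ^ ζ.re * ∏ i, c i)) := by
      apply Continuous.tendsto
      apply Continuous.mul _ continuous_const
      apply Continuous.rpow_const
      · fun_prop
      · intro x; right; exact hζ.le
    rw [max_eq_right h, Real.zero_rpow hζ.ne', zero_mul] at h1
    exact squeeze_zero (fun _ => norm_nonneg _) (fun y' => norm_Gf_le hζ hc y') h1
  · unfold Gf
    apply ContinuousAt.mul
    · apply ContinuousAt.cpow
      · exact (Complex.continuous_ofReal.comp (by fun_prop)).continuousAt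
      · exact continuousAt_const
      · rw [max_eq_left h.le]
        exact Or.inl (by simpa using h)
    · have : (fun y' : Fin (l + 1) → ℝ => ∏ i : Fin l,
          ((min (max (y' i.succ / y' 0) 0) (c i) : ℝ) : ℂ)) =
          fun y' => ∏ i ∈ (Finset.univ : Finset (Fin l)),
          ((min (max (y' i.succ / y' 0) 0) (c i) : ℝ) : ℂ) := rfl
      rw [this]
      apply tendsto_finsetProd
      intro i _
      have h2 : ContinuousAt (fun y' : Fin (l + 1) → ℝ => y' i.succ / y' 0) y :=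
        ContinuousAt.div (continuous_apply _).continuousAt (continuous_apply _).continuousAt h.ne'
      exact (Complex.continuous_ofReal.continuousAt.comp
        ((h2.max continuousAt_const).min continuousAt_const))

lemma Gf_smul {l : ℕ} (ζ : ℂ) (c : Fin l → ℝ) (y : Fin (l + 1) → ℝ) {w : ℝ} (hw : 0 < w) :
    Gf ζ c (fun i => w * y i) = (w : ℂ) ^ ζ * Gf ζ c y := by
  unfold Gf
  have h1 : max (w * y 0) 0 = w * max (y 0) 0 := by
    rw [← mul_zero w, ← mul_max_of_nonneg _ _ hw.le, mul_zero]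
  rw [h1, Complex.ofReal_mul, Complex.mul_cpow_ofReal_nonneg hw.le (le_max_right _ _), mul_assoc]
  congr 2
  refine Finset.prod_congr rfl fun i _ => ?_
  rw [mul_div_mul_left _ _ hw.ne']

variable {S : Type*} [MetricSpace S] [CompactSpace S] [MeasurableSpace S] [BorelSpace S]
variable {ν : Measure S} [IsProbabilityMeasure ν]
variable {Ω : ℕ → Type*} [∀ n, MeasurableSpace (Ω n)] {P : ∀ n, Measure (Ω n)}
  [∀ n, IsProbabilityMeasure (P n)]
variable {Y : ∀ n, Ω n → S → ℝ} {Yt : ℕ → ∀ n, Ω n → S → ℝ} {K : S × S → ℝ}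
  {Kt : ℕ → S × S → ℝ}

/-- the family `1, f_1, ..., f_l` -/
noncomputable def fam {l : ℕ} (f : Fin l → C(S, ℝ)) : Fin (l + 1) → C(S, ℝ) := Fin.cons 1 f

@[simp] lemma fam_zero {l : ℕ} (f : Fin l → C(S, ℝ)) : fam f 0 = 1 := rfl

@[simp] lemma fam_succ {l : ℕ} (f : Fin l → C(S, ℝ)) (i : Fin l) : fam f i.succ = f i := rfl

/-- convergence of the expectation of the homogeneous functionals of the normalised field -/
theorem FieldHyp.conv_Gf (H : FieldHyp ν P Y Yt K Kt)
    (hmean : ∀ n, Integrable (fun ω => ∫ x, Y n ω x ∂ν) (P n) ∧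
      ∫ ω, ∫ x, Y n ω x ∂ν ∂(P n) ≤ 1)
    {l : ℕ} (f : Fin l → C(S, ℝ)) (ζ : ℂ) (hζ : ζ.re = 1 / 2) :
    ∃ L : ℂ, Tendsto (fun n => ∫ ω, Gf ζ (fun i => ‖f i‖)
      (fun i => ∫ x, fam f i x * Y n ω x ∂ν) ∂(P n)) atTop (𝓝 L) := by
  have hζ0 : 0 < ζ.re := by rw [hζ]; norm_num
  have hc : ∀ i : Fin l, 0 ≤ ‖f i‖ := fun i => norm_nonneg _
  set C2 : ℝ := ∏ i, ‖f i‖ with hC2
  have hC20 : 0 ≤ C2 := Finset.prod_nonneg fun i _ => hc i
  set C1 : ℝ := 1 + ∑ i, ‖f i‖ with hC1
  have hC10 : 0 < C1 := by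
    have : 0 ≤ ∑ i, ‖f i‖ := Finset.sum_nonneg fun i _ => hc i
    linarith
  have mV : ∀ n, Measurable fun ω => (fun i : Fin (l + 1) => ∫ x, fam f i x * Y n ω x ∂ν) :=
    fun n => measurable_pi_lambda _ fun i => H.measA n (fam f i)
  have hG := continuous_Gf hζ0 hc
  apply conv_of_approx
  intro ε hε
  -- choice of R
  obtain ⟨R, hR0, hR⟩ : ∃ R : ℝ, 0 < R ∧ C2 * Real.sqrt (C1 / R) ≤ ε := by
    have h1 : Tendsto (fun R : ℝ => C2 * Real.sqrt (C1 / R)) atTop (𝓝 (C2 * Real.sqrt 0)) := by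
      apply Tendsto.const_mul
      exact (Real.continuous_sqrt.tendsto 0).comp (tendsto_const_nhds.div_atTop tendsto_id)
    rw [Real.sqrt_zero, mul_zero] at h1
    obtain ⟨R, hR, hR'⟩ := ((eventually_gt_atTop (0 : ℝ)).and
      ((tendsto_order.1 h1).2 ε hε)).exists
    exact ⟨R, hR, hR'.le⟩
  set g : (Fin (l + 1) → ℝ) → ℂ := fun y => (cutf R ‖y‖ : ℂ) * Gf ζ (fun i => ‖f i‖) y with hg
  have hgc : Continuous g :=
    (Complex.continuous_ofReal.comp ((continuous_cutf R).comp continuous_norm)).mul hG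
  have hgs : HasCompactSupport g := by
    apply HasCompactSupport.of_support_subset_isCompact (isCompact_closedBall 0 (R + 1))
    intro y hy
    rw [Function.mem_support] at hy
    by_contra hcon
    apply hy
    rw [Metric.mem_closedBall, dist_zero_right, not_le] at hcon
    rw [hg]
    simp only
    rw [cutf_eq_zero hcon.le]
    simp
  have hguc : UniformContinuous g := by
    have h2 : Tendsto g (cocompact _) (𝓝 0) := hgs.is_zero_at_infty
    exact hgc.uniformContinuous_of_tendsto_cocompact h2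
  obtain ⟨G0, hG0⟩ : ∃ G0, ∀ y, ‖g y‖ ≤ G0 := hgc.bounded_above_of_compact_support hgs
  refine ⟨fun n => ∫ ω, g (fun i => ∫ x, fam f i x * Y n ω x ∂ν) ∂(P n), ?_, ?_⟩
  · obtain ⟨L1, hL1⟩ := H.conv (l + 1) (fam f) (fun y => (g y).re)
      (Complex.reCLM.uniformContinuous.comp hguc)
      ⟨G0, fun y => (Complex.abs_re_le_norm _).trans (hG0 y)⟩
    obtain ⟨L2, hL2⟩ := H.conv (l + 1) (fam f) (fun y => (g y).im)
      (Complex.imCLM.uniformContinuous.comp hguc)
      ⟨G0, fun y => (Complex.abs_im_le_norm _).trans (hG0 y)⟩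
    refine ⟨(L1 : ℂ) + L2 * Complex.I, ?_⟩
    have h3 := ((Complex.continuous_ofReal.tendsto L1).comp hL1).add
      (((Complex.continuous_ofReal.tendsto L2).comp hL2).mul_const Complex.I)
    refine h3.congr fun n => ?_
    have hgi : Integrable (fun ω => g (fun i => ∫ x, fam f i x * Y n ω x ∂ν)) (P n) :=
      Integrable.of_bound (hgc.measurable.comp (mV n)).aestronglyMeasurable G0
        (Eventually.of_forall fun ω => hG0 _)
    simp only [Function.comp]
    rw [← integral_re_add_im hgi]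
    rfl
  · refine Eventually.of_forall fun n => ?_
    have hgi : Integrable (fun ω => g (fun i => ∫ x, fam f i x * Y n ω x ∂ν)) (P n) :=
      Integrable.of_bound (hgc.measurable.comp (mV n)).aestronglyMeasurable G0
        (Eventually.of_forall fun ω => hG0 _)
    have hpos : ∀ ω, 0 ≤ ∫ x, Y n ω x ∂ν := fun ω => integral_nonneg (H.Y0 n ω)
    have hGi : Integrable (fun ω => Gf ζ (fun i => ‖f i‖)
        (fun i => ∫ x, fam f i x * Y n ω x ∂ν)) (P n) := by
      refine Integrable.mono' (((hmean n).1.add (integrable_const 1)).const_mul C2)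
        (hG.measurable.comp (mV n)).aestronglyMeasurable ?_
      filter_upwards with ω
      refine (norm_Gf_le hζ0 hc _).trans ?_
      simp only [fam_zero, ContinuousMap.one_apply, one_mul, Pi.add_apply]
      rw [mul_comm, ← hC2]
      refine mul_le_mul_of_nonneg_left ?_ hC20
      rw [max_eq_left (hpos ω), hζ, ← Real.sqrt_eq_rpow]
      have h4 := Real.sq_sqrt (hpos ω)
      nlinarith [sq_nonneg (Real.sqrt (∫ x, Y n ω x ∂ν) - 1)]
    rw [← integral_sub hGi hgi]
    have hpt : ∀ᵐ ω ∂(P n), ‖Gf ζ (fun i => ‖f i‖) (fun i => ∫ x, fam f i x * Y n ω x ∂ν) -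
        g (fun i => ∫ x, fam f i x * Y n ω x ∂ν)‖ ≤
        (C2 * Real.sqrt (C1 / R)) * ∫ x, Y n ω x ∂ν := by
      filter_upwards [H.ae_int n] with ω hω
      set V : Fin (l + 1) → ℝ := fun i => ∫ x, fam f i x * Y n ω x ∂ν with hV
      set m : ℝ := ∫ x, Y n ω x ∂ν with hm
      have hm0 : 0 ≤ m := hpos ω
      have hV0 : V 0 = m := by simp [hV, hm]
      have hVn : ‖V‖ ≤ C1 * m := by
        rw [pi_norm_le_iff_of_nonneg (by positivity)]
        intro i
        refine Fin.cases ?_ (fun i => ?_) i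
        · rw [hV0, Real.norm_eq_abs, abs_of_nonneg hm0]
          have : 0 ≤ ∑ i, ‖f i‖ := Finset.sum_nonneg fun i _ => hc i
          nlinarith
        · have h5 : ‖V i.succ‖ ≤ ‖f i‖ * m := by
            simp only [hV, fam_succ, hm]
            rw [← integral_const_mul]
            refine norm_integral_le_of_norm_le (hω.const_mul _) ?_
            filter_upwards with x
            rw [norm_mul]
            refine mul_le_mul ((f i).norm_coe_le_norm x) ?_ (norm_nonneg _) (norm_nonneg _)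
            rw [Real.norm_eq_abs, abs_of_nonneg (H.Y0 n ω x)]
          refine h5.trans (mul_le_mul_of_nonneg_right ?_ hm0)
          have : ‖f i‖ ≤ ∑ i, ‖f i‖ := Finset.single_le_sum (f := fun i => ‖f i‖)
            (fun i _ => hc i) (Finset.mem_univ i)
          linarith
      rw [hg]
      simp only
      have h6 : Gf ζ (fun i => ‖f i‖) V - (cutf R ‖V‖ : ℂ) * Gf ζ (fun i => ‖f i‖) V =
          ((1 - cutf R ‖V‖ : ℝ) : ℂ) * Gf ζ (fun i => ‖f i‖) V := by push_cast; ring
      rw [h6, norm_mul, Complex.norm_real, Real.norm_eq_abs,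
        abs_of_nonneg (by linarith [cutf_le_one R ‖V‖])]
      rcases le_or_gt ‖V‖ R with hle | hgt
      · rw [cutf_eq_one hle, sub_self, zero_mul]
        positivity
      · have h7 : R < C1 * m := hgt.trans_le hVn
        have hmpos : 0 < m := by
          rcases hm0.lt_or_eq with h | h
          · exact h
          · rw [← h] at h7; linarith
        have h8 : ‖Gf ζ (fun i => ‖f i‖) V‖ ≤ Real.sqrt m * C2 := by
          refine (norm_Gf_le hζ0 hc _).trans (le_of_eq ?_)
          rw [hV0, max_eq_left hm0, hζ, ← Real.sqrt_eq_rpow]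
        have h9 : Real.sqrt m ≤ Real.sqrt (C1 / R) * m := by
          have h10 : m = Real.sqrt m * Real.sqrt m := (Real.mul_self_sqrt hm0).symm
          have h11 : 1 ≤ Real.sqrt (C1 / R) * Real.sqrt m := by
            rw [← Real.sqrt_mul (by positivity), Real.one_le_sqrt]
            rw [div_mul_eq_mul_div, le_div_iff₀ hR0]
            linarith
          calc Real.sqrt m = 1 * Real.sqrt m := (one_mul _).symm
            _ ≤ (Real.sqrt (C1 / R) * Real.sqrt m) * Real.sqrt m := by gcongr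
            _ = Real.sqrt (C1 / R) * (Real.sqrt m * Real.sqrt m) := by ring
            _ = Real.sqrt (C1 / R) * m := by rw [← h10]
        calc (1 - cutf R ‖V‖) * ‖Gf ζ (fun i => ‖f i‖) V‖
            ≤ 1 * (Real.sqrt m * C2) := by
              refine mul_le_mul ?_ h8 (norm_nonneg _) zero_le_one
              linarith [cutf_nonneg R ‖V‖]
          _ ≤ 1 * ((Real.sqrt (C1 / R) * m) * C2) := by gcongr
          _ = C2 * Real.sqrt (C1 / R) * m := by ring
    calc ‖∫ ω, (Gf ζ (fun i => ‖f i‖) (fun i => ∫ x, fam f i x * Y n ω x ∂ν) -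
          g (fun i => ∫ x, fam f i x * Y n ω x ∂ν)) ∂(P n)‖
        ≤ ∫ ω, (C2 * Real.sqrt (C1 / R)) * ∫ x, Y n ω x ∂ν ∂(P n) :=
          norm_integral_le_of_norm_le ((hmean n).1.const_mul _) hpt
      _ = (C2 * Real.sqrt (C1 / R)) * ∫ ω, ∫ x, Y n ω x ∂ν ∂(P n) := integral_const_mul _ _
      _ ≤ (C2 * Real.sqrt (C1 / R)) * 1 := by
          refine mul_le_mul_of_nonneg_left (hmean n).2 (by positivity)
      _ ≤ ε := by rw [mul_one]; exact hR

end Pool.Agent.helper84.SG
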