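import Mathlib
import Pool.Agent.helper84.SG.Mellin

/-!
# Convergence of the unnormalised random measures (MP_55470d_pr, module D3/D4)
-/

set_option autoImplicit false
set_option linter.unusedSectionVars false
open MeasureTheory ProbabilityTheory Filter Topology
open scoped NNReal ENNReal BoundedContinuousFunction

namespace Pool.Agent.helper84.SG

variable {S : Type*} [MetricSpace S] [CompactSpace S] [MeasurableSpace S] [BorelSpace S]
variable {ν : Measure S} [IsProbabilityMeasure ν]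
variable {Ω : ℕ → Type*} [∀ n, MeasurableSpace (Ω n)] {P : ∀ n, Measure (Ω n)}
  [∀ n, IsProbabilityMeasure (P n)]
variable {Y : ∀ n, Ω n → S → ℝ} {Yt : ℕ → ∀ n, Ω n → S → ℝ} {K : S × S → ℝ}
  {Kt : ℕ → S × S → ℝ}

/-- hypotheses on the random measures `M n`, with `Y n · ν = w n • M n` -/
structure MHyp (ν : Measure S) (P : ∀ n, Measure (Ω n)) (Y : ∀ n, Ω n → S → ℝ)
    (M : ∀ n, Ω n → FiniteMeasure S) (w : ∀ n, Ω n → ℝ) : Prop where
  mM : ∀ n (f : C(S, ℝ)), Measurable fun ω => evl f (M n ω)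
  mw : ∀ n, Measurable (w n)
  wpos : ∀ n, ∀ᵐ ω ∂(P n), 0 < w n ω
  rel : ∀ n, ∀ᵐ ω ∂(P n), ∀ f : C(S, ℝ), ∫ x, f x * Y n ω x ∂ν = w n ω * evl f (M n ω)
  indep : ∀ n, IndepFun (w n) (fun ω (f : C(S, ℝ)) => evl f (M n ω)) (P n)
  mell : ∀ s : ℝ, ∃ φ : ℂ, φ ≠ 0 ∧ Tendsto (fun n => ∫ ω,
    ((w n ω : ℝ) : ℂ) ^ ((1 / 2 : ℂ) + s * Complex.I) ∂(P n)) atTop (𝓝 φ)
  Ymean : ∀ n, Integrable (fun ω => ∫ x, Y n ω x ∂ν) (P n) ∧
      ∫ ω, ∫ x, Y n ω x ∂ν ∂(P n) ≤ 1
  Mmean : ∀ n, Integrable (fun ω => evl (1 : C(S, ℝ)) (M n ω)) (P n) ∧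
      ∫ ω, evl (1 : C(S, ℝ)) (M n ω) ∂(P n) ≤ 1

variable {M : ∀ n, Ω n → FiniteMeasure S} {w : ∀ n, Ω n → ℝ}

lemma zeta_re (s : ℝ) : ((1 / 2 : ℂ) + s * Complex.I).re = 1 / 2 := by
  simp

/-- convergence of the homogeneous functionals of `M` -/
theorem MHyp.conv_Gf (H : FieldHyp ν P Y Yt K Kt) (HM : MHyp ν P Y M w)
    {l : ℕ} (f : Fin l → C(S, ℝ)) (s : ℝ) :
    ∃ L : ℂ, Tendsto (fun n => ∫ ω, Gf ((1 / 2 : ℂ) + s * Complex.I) (fun i => ‖f i‖)
      (fun i => evl (fam f i) (M n ω)) ∂(P n)) atTop (𝓝 L) := by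
  set ζ : ℂ := (1 / 2 : ℂ) + s * Complex.I with hζ
  have hζre : ζ.re = 1 / 2 := zeta_re s
  obtain ⟨L, hL⟩ := H.conv_Gf HM.Ymean f ζ hζre
  obtain ⟨φ, hφ, hφL⟩ := HM.mell s
  refine ⟨φ⁻¹ * L, ?_⟩
  have hG := continuous_Gf (l := l) (ζ := ζ) (by rw [hζre]; norm_num)
    (c := fun i => ‖f i‖) (fun i => norm_nonneg _)
  have hrel : ∀ n, ∫ ω, Gf ζ (fun i => ‖f i‖) (fun i => ∫ x, fam f i x * Y n ω x ∂ν) ∂(P n) =
      (∫ ω, ((w n ω : ℝ) : ℂ) ^ ζ ∂(P n)) *
      ∫ ω, Gf ζ (fun i => ‖f i‖) (fun i => evl (fam f i) (M n ω)) ∂(P n) := by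
    intro n
    have h1 : ∫ ω, Gf ζ (fun i => ‖f i‖) (fun i => ∫ x, fam f i x * Y n ω x ∂ν) ∂(P n) =
        ∫ ω, ((w n ω : ℝ) : ℂ) ^ ζ *
          Gf ζ (fun i => ‖f i‖) (fun i => evl (fam f i) (M n ω)) ∂(P n) := by
      refine integral_congr_ae ?_
      filter_upwards [HM.wpos n, HM.rel n] with ω hw hr
      rw [← Gf_smul _ _ _ hw]
      congr 1
      funext i
      exact hr _
    rw [h1]
    have hpm : Measurable fun (u : C(S, ℝ) → ℝ) =>
        Gf ζ (fun i => ‖f i‖) (fun i => u (fam f i)) :=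
      hG.measurable.comp (measurable_pi_lambda _ fun i => measurable_pi_apply _)
    have hwm : Measurable fun t : ℝ => ((t : ℝ) : ℂ) ^ ζ :=
      (Complex.measurable_ofReal).pow_const ζ
    exact (HM.indep n).integral_fun_comp_mul_comp (f := fun t : ℝ => ((t : ℝ) : ℂ) ^ ζ)
      (g := fun (u : C(S, ℝ) → ℝ) => Gf ζ (fun i => ‖f i‖) (fun i => u (fam f i)))
      (HM.mw n).aemeasurable (measurable_pi_lambda _ fun g => HM.mM n g).aemeasurable
      hwm.aestronglyMeasurable hpm.aestronglyMeasurable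
  have h2 : Tendsto (fun n => (∫ ω, ((w n ω : ℝ) : ℂ) ^ ζ ∂(P n))⁻¹ *
      ∫ ω, Gf ζ (fun i => ‖f i‖) (fun i => ∫ x, fam f i x * Y n ω x ∂ν) ∂(P n)) atTop
      (𝓝 (φ⁻¹ * L)) := (hφL.inv₀ hφ).mul hL
  refine h2.congr' ?_
  filter_upwards [hφL.eventually_ne hφ] with n hn
  rw [hrel n, ← mul_assoc, inv_mul_cancel₀ hn, one_mul]

/-- the weight `m^{1/2} ∏ (R_i / m)` -/
noncomputable def rho {l : ℕ} (f : Fin l → C(S, ℝ)) (μ : FiniteMeasure S) : ℝ :=
  Real.sqrt (evl 1 μ) * ∏ i : Fin l, (min (max (evl (f i) μ / evl 1 μ) 0) ‖f i‖)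

lemma rho_nonneg {l : ℕ} (f : Fin l → C(S, ℝ)) (μ : FiniteMeasure S) : 0 ≤ rho f μ := by
  unfold rho
  exact mul_nonneg (Real.sqrt_nonneg _) (Finset.prod_nonneg fun i _ =>
    le_min (le_max_right _ _) (norm_nonneg _))

lemma evl_one_nonneg (μ : FiniteMeasure S) : 0 ≤ evl (1 : C(S, ℝ)) μ :=
  evl_nonneg (fun _ => zero_le_one) μ

lemma rho_le {l : ℕ} (f : Fin l → C(S, ℝ)) (μ : FiniteMeasure S) :
    rho f μ ≤ (∏ i, ‖f i‖) * Real.sqrt (evl 1 μ) := by
  unfold rho
  rw [mul_comm]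
  refine mul_le_mul_of_nonneg_right ?_ (Real.sqrt_nonneg _)
  exact Finset.prod_le_prod (fun i _ => le_min (le_max_right _ _) (norm_nonneg _))
    fun i _ => min_le_right _ _

lemma rho_cexp {l : ℕ} (f : Fin l → C(S, ℝ)) (s : ℝ) (μ : FiniteMeasure S) :
    (rho f μ : ℂ) * Complex.exp (s * Real.log (evl 1 μ) * Complex.I) =
      Gf ((1 / 2 : ℂ) + s * Complex.I) (fun i => ‖f i‖) (fun i => evl (fam f i) μ) := by
  have hm0 := evl_one_nonneg μ
  unfold Gf rho
  simp only [fam_zero, fam_succ]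
  rw [max_eq_left hm0]
  rcases hm0.lt_or_eq with h | h
  · push_cast
    have h1 : ((evl 1 μ : ℝ) : ℂ) ≠ 0 := by exact_mod_cast h.ne'
    rw [Complex.cpow_add _ _ h1]
    have h2 : ((evl 1 μ : ℝ) : ℂ) ^ (1 / 2 : ℂ) = (Real.sqrt (evl 1 μ) : ℂ) := by
      rw [Real.sqrt_eq_rpow, Complex.ofReal_cpow hm0]
      norm_num
    have h3 : ((evl 1 μ : ℝ) : ℂ) ^ ((s : ℂ) * Complex.I) =
        Complex.exp (s * Real.log (evl 1 μ) * Complex.I) := by
      rw [Complex.cpow_def_of_ne_zero h1, ← Complex.ofReal_log hm0]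
      congr 1; ring
    rw [h2, h3]
    ring
  · rw [← h]
    have h4 : ((1 / 2 : ℂ) + s * Complex.I) ≠ 0 := by
      intro h5
      have := congrArg Complex.re h5
      rw [zeta_re] at this
      norm_num at this
    rw [Real.sqrt_zero, Complex.ofReal_zero, Complex.zero_cpow h4]
    simp

/-- convergence of weighted functionals of the mass -/
theorem MHyp.conv_weight (H : FieldHyp ν P Y Yt K Kt) (HM : MHyp ν P Y M w)
    {l : ℕ} (f : Fin l → C(S, ℝ)) (g : ℝ →ᵇ ℝ) :
    ∃ L, Tendsto (fun n => ∫ ω, g (Real.log (evl 1 (M n ω))) * rho f (M n ω) ∂(P n))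
      atTop (𝓝 L) := by
  set C2 : ℝ := ∏ i, ‖f i‖ with hC2
  have hC20 : 0 ≤ C2 := Finset.prod_nonneg fun i _ => norm_nonneg _
  have mm : ∀ n, Measurable fun ω => evl (1 : C(S, ℝ)) (M n ω) := fun n => HM.mM n 1
  have mrho : ∀ n, Measurable fun ω => rho f (M n ω) := by
    intro n
    unfold rho
    refine (Real.continuous_sqrt.measurable.comp (mm n)).mul (Finset.measurable_prod _ fun i _ => ?_)
    exact (((HM.mM n (f i)).div (mm n)).max measurable_const).min measurable_const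
  have irho : ∀ n, Integrable (fun ω => rho f (M n ω)) (P n) := by
    intro n
    refine Integrable.mono' (((HM.Mmean n).1.add (integrable_const 1)).const_mul C2)
      (mrho n).aestronglyMeasurable ?_
    filter_upwards with ω
    rw [Real.norm_eq_abs, abs_of_nonneg (rho_nonneg _ _)]
    refine (rho_le f _).trans (mul_le_mul_of_nonneg_left ?_ hC20)
    simp only [Pi.add_apply]
    have h4 := Real.sq_sqrt (evl_one_nonneg (M n ω))
    nlinarith [sq_nonneg (Real.sqrt (evl 1 (M n ω)) - 1)]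
  have hrho_int : ∀ n, ∫ ω, rho f (M n ω) ∂(P n) ≤ 2 * C2 := by
    intro n
    calc ∫ ω, rho f (M n ω) ∂(P n) ≤ ∫ ω, C2 * (evl 1 (M n ω) + 1) ∂(P n) := by
          refine integral_mono (irho n) (((HM.Mmean n).1.add (integrable_const 1)).const_mul C2)
            fun ω => ?_
          refine (rho_le f _).trans (mul_le_mul_of_nonneg_left ?_ hC20)
          have h4 := Real.sq_sqrt (evl_one_nonneg (M n ω))
          nlinarith [sq_nonneg (Real.sqrt (evl 1 (M n ω)) - 1)]
      _ = C2 * (∫ ω, evl 1 (M n ω) ∂(P n) + 1) := by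
          rw [integral_const_mul, integral_add (HM.Mmean n).1 (integrable_const _)]
          simp
      _ ≤ C2 * (1 + 1) := by
          refine mul_le_mul_of_nonneg_left ?_ hC20
          linarith [(HM.Mmean n).2]
      _ = 2 * C2 := by ring
  -- the finite measures on the line
  have hfin : ∀ n, IsFiniteMeasure ((P n).withDensity fun ω => ENNReal.ofReal (rho f (M n ω))) :=
    fun n => isFiniteMeasure_withDensity_ofReal (irho n).2
  have hlogm : ∀ n, Measurable fun ω => Real.log (evl 1 (M n ω)) := fun n =>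
    Real.measurable_log.comp (mm n)
  let κ : ℕ → FiniteMeasure ℝ := fun n =>
    ⟨((P n).withDensity fun ω => ENNReal.ofReal (rho f (M n ω))).map
      fun ω => Real.log (evl 1 (M n ω)),
      by have := hfin n; exact Measure.isFiniteMeasure_map _ _⟩
  have hκint : ∀ n (φ : ℝ → ℝ), Measurable φ → ∫ y, φ y ∂(κ n : Measure ℝ) =
      ∫ ω, φ (Real.log (evl 1 (M n ω))) * rho f (M n ω) ∂(P n) := by
    intro n φ hφ
    have h1 : ∫ y, φ y ∂(κ n : Measure ℝ) = ∫ ω, φ (Real.log (evl 1 (M n ω)))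
        ∂((P n).withDensity fun ω => ENNReal.ofReal (rho f (M n ω))) :=
      integral_map (hlogm n).aemeasurable hφ.aestronglyMeasurable
    rw [h1, integral_withDensity_eq_integral_toReal_smul (mrho n).ennreal_ofReal
      (by filter_upwards with x using ENNReal.ofReal_lt_top)]
    refine integral_congr_ae (Eventually.of_forall fun ω => ?_)
    simp only
    rw [ENNReal.toReal_ofReal (rho_nonneg _ _), smul_eq_mul, mul_comm]
  have hκintc : ∀ n (φ : ℝ → ℂ), Measurable φ → ∫ y, φ y ∂(κ n : Measure ℝ) =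
      ∫ ω, (rho f (M n ω) : ℂ) * φ (Real.log (evl 1 (M n ω))) ∂(P n) := by
    intro n φ hφ
    have h1 : ∫ y, φ y ∂(κ n : Measure ℝ) = ∫ ω, φ (Real.log (evl 1 (M n ω)))
        ∂((P n).withDensity fun ω => ENNReal.ofReal (rho f (M n ω))) :=
      integral_map (hlogm n).aemeasurable hφ.aestronglyMeasurable
    rw [h1, integral_withDensity_eq_integral_toReal_smul (mrho n).ennreal_ofReal
      (by filter_upwards with x using ENNReal.ofReal_lt_top)]
    refine integral_congr_ae (Eventually.of_forall fun ω => ?_)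
    simp only
    rw [ENNReal.toReal_ofReal (rho_nonneg _ _), Complex.real_smul]
  -- tail estimate
  have htail : ∀ n (b : ℕ), (κ n : Measure ℝ) (Set.Icc (-(b : ℝ)) b)ᶜ ≤
      ENNReal.ofReal (2 * C2 * Real.exp (-(b : ℝ) / 2)) := by
    intro n b
    have hms : MeasurableSet ((Set.Icc (-(b : ℝ)) b)ᶜ) := measurableSet_Icc.compl
    have h1 : (κ n : Measure ℝ) (Set.Icc (-(b : ℝ)) b)ᶜ =
        ∫⁻ ω in (fun ω => Real.log (evl 1 (M n ω))) ⁻¹' (Set.Icc (-(b : ℝ)) b)ᶜ,
          ENNReal.ofReal (rho f (M n ω)) ∂(P n) := by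
      change ((P n).withDensity fun ω => ENNReal.ofReal (rho f (M n ω))).map
        (fun ω => Real.log (evl 1 (M n ω))) _ = _
      rw [Measure.map_apply (hlogm n) hms, withDensity_apply _ ((hlogm n) hms)]
    rw [h1, ← lintegral_indicator ((hlogm n) hms)]
    have h2 : ∀ ω, ((fun ω => Real.log (evl 1 (M n ω))) ⁻¹' (Set.Icc (-(b : ℝ)) b)ᶜ).indicator
        (fun ω => ENNReal.ofReal (rho f (M n ω))) ω ≤
        ENNReal.ofReal (C2 * Real.exp (-(b : ℝ) / 2) * (evl 1 (M n ω) + 1)) := by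
      intro ω
      by_cases hω : ω ∈ (fun ω => Real.log (evl 1 (M n ω))) ⁻¹' (Set.Icc (-(b : ℝ)) b)ᶜ
      · rw [Set.indicator_of_mem hω]
        apply ENNReal.ofReal_le_ofReal
        refine (rho_le f _).trans ?_
        rw [mul_assoc]
        refine mul_le_mul_of_nonneg_left ?_ hC20
        set m := evl 1 (M n ω) with hm
        have hm0 : 0 ≤ m := evl_one_nonneg _
        have hωm : Real.log m ∉ Set.Icc (-(b : ℝ)) b := hω
        rw [Set.mem_Icc, not_and_or, not_le, not_le] at hωm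
        have hmpos : 0 < m := by
          rcases hm0.lt_or_eq with h | h
          · exact h
          · exfalso
            rw [← h, Real.log_zero] at hωm
            rcases hωm with h | h
            · have : (0 : ℝ) ≤ b := Nat.cast_nonneg b
              linarith
            · have : (0 : ℝ) ≤ b := Nat.cast_nonneg b
              linarith
        have hsq : Real.sqrt m = Real.exp (Real.log m / 2) := by
          rw [Real.exp_half, Real.exp_log hmpos]
        rcases hωm with h | h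
        · rw [hsq]
          calc Real.exp (Real.log m / 2) ≤ Real.exp (-(b : ℝ) / 2) := by
                apply Real.exp_le_exp.2; linarith
            _ ≤ Real.exp (-(b : ℝ) / 2) * (m + 1) := by
                nlinarith [Real.exp_pos (-(b : ℝ) / 2)]
        · have h5 : Real.sqrt m ≤ Real.exp (-(b : ℝ) / 2) * m := by
            rw [hsq]
            calc Real.exp (Real.log m / 2) ≤ Real.exp (-(b : ℝ) / 2 + Real.log m) := by
                  apply Real.exp_le_exp.2; linarith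
              _ = Real.exp (-(b : ℝ) / 2) * m := by rw [Real.exp_add, Real.exp_log hmpos]
          calc Real.sqrt m ≤ Real.exp (-(b : ℝ) / 2) * m := h5
            _ ≤ Real.exp (-(b : ℝ) / 2) * (m + 1) := by
                nlinarith [Real.exp_pos (-(b : ℝ) / 2)]
      · rw [Set.indicator_of_notMem hω]
        exact zero_le
    refine (lintegral_mono h2).trans ?_
    have hi : Integrable (fun ω => C2 * Real.exp (-(b : ℝ) / 2) * (evl 1 (M n ω) + 1)) (P n) :=
      ((HM.Mmean n).1.add (integrable_const 1)).const_mul _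
    rw [← ofReal_integral_eq_lintegral_ofReal hi
      (Eventually.of_forall fun ω => mul_nonneg (by positivity)
        (add_nonneg (evl_one_nonneg _) zero_le_one))]
    apply ENNReal.ofReal_le_ofReal
    have h6 : ∫ ω, C2 * Real.exp (-(b : ℝ) / 2) * (evl 1 (M n ω) + 1) ∂(P n) =
        C2 * Real.exp (-(b : ℝ) / 2) * (∫ ω, evl 1 (M n ω) ∂(P n) + 1) := by
      rw [integral_const_mul, integral_add (HM.Mmean n).1 (integrable_const _)]
      simp
    have h7 := (HM.Mmean n).2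
    calc ∫ ω, C2 * Real.exp (-(b : ℝ) / 2) * (evl 1 (M n ω) + 1) ∂(P n)
        = C2 * Real.exp (-(b : ℝ) / 2) * (∫ ω, evl 1 (M n ω) ∂(P n) + 1) := h6
      _ ≤ C2 * Real.exp (-(b : ℝ) / 2) * (1 + 1) := by
          refine mul_le_mul_of_nonneg_left (by linarith) (by positivity)
      _ = 2 * C2 * Real.exp (-(b : ℝ) / 2) := by ring
  have hu : Tendsto (fun b : ℕ => Real.toNNReal (2 * C2 * Real.exp (-(b : ℝ) / 2))) atTop
      (𝓝 0) := by
    have h1 : Tendsto (fun b : ℕ => 2 * C2 * Real.exp (-(b : ℝ) / 2)) atTop (𝓝 (2 * C2 * 0)) := by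
      apply Tendsto.const_mul
      apply Real.tendsto_exp_atBot.comp
      have h2 : Tendsto (fun b : ℕ => (b : ℝ) / 2) atTop atTop :=
        tendsto_natCast_atTop_atTop.atTop_div_const (by norm_num)
      have h3 : (fun b : ℕ => -(b : ℝ) / 2) = fun b : ℕ => -((b : ℝ) / 2) := by
        funext b; ring
      rw [h3]
      exact tendsto_neg_atTop_atBot.comp h2
    rw [mul_zero] at h1
    have h2 := (continuous_real_toNNReal.tendsto 0).comp h1
    rw [Real.toNNReal_zero] at h2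
    exact h2
  have hmass : ∀ n, (κ n).mass ≤ Real.toNNReal (2 * C2) := by
    intro n
    rw [← NNReal.coe_le_coe, Real.coe_toNNReal _ (by positivity)]
    have h1 : ((κ n).mass : ℝ) = ∫ _, (1 : ℝ) ∂(κ n : Measure ℝ) := by
      rw [integral_const, smul_eq_mul, mul_one]
      rfl
    rw [h1, hκint n (fun _ => 1) measurable_const]
    simp only [one_mul]
    exact hrho_int n
  have hchar : ∀ s : ℝ, ∃ Θ : ℂ, Tendsto (fun n => charFun (κ n : Measure ℝ) s) atTop (𝓝 Θ) := by
    intro s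
    obtain ⟨L, hL⟩ := MHyp.conv_Gf H HM f s
    refine ⟨L, hL.congr fun n => ?_⟩
    rw [charFun_apply_real, hκintc n _ (by fun_prop)]
    refine integral_congr_ae (Eventually.of_forall fun ω => ?_)
    simp only
    rw [← rho_cexp]
  obtain ⟨L, hL⟩ := conv_of_charFun κ (Real.toNNReal (2 * C2)) hmass _ hu
    (fun n b => by
      have := htail n b
      rw [← ENNReal.coe_le_coe]
      rw [FiniteMeasure.ennreal_coeFn_eq_coeFn_toMeasure]
      exact this) hchar g
  refine ⟨L, hL.congr fun n => ?_⟩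
  exact hκint n g g.continuous.measurable

end Pool.Agent.helper84.SG
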