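import Mathlib
import Pool.Agent.helper84.SG.Mellin2

/-!
# Convergence in law of the random measures (MP_55470d_pr, module D4/D5)
-/

set_option autoImplicit false
set_option linter.unusedSectionVars false
open MeasureTheory ProbabilityTheory Filter Topology
open scoped NNReal ENNReal BoundedContinuousFunction

namespace Pool.Agent.helper84.SG

variable {S : Type*} [MetricSpace S] [CompactSpace S] [MeasurableSpace S] [BorelSpace S]

/-- span of the monomials with nonnegative test functions -/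
noncomputable def PolyN (S : Type*) [MetricSpace S] [CompactSpace S] [MeasurableSpace S]
    [BorelSpace S] : Submodule ℝ (FiniteMeasure S → ℝ) :=
  Submodule.span ℝ {p | ∃ L : List C(S, ℝ), (∀ f ∈ L, ∀ x, 0 ≤ f x) ∧ p = mono L}

lemma evl_mul_mem_polyN {g : C(S, ℝ)} (hg : ∀ x, 0 ≤ g x) {q : FiniteMeasure S → ℝ}
    (hq : q ∈ PolyN S) : (evl g) * q ∈ PolyN S := by
  unfold PolyN at hq ⊢
  induction hq using Submodule.span_induction with
  | mem x hx =>
    obtain ⟨L, hL, rfl⟩ := hx
    refine Submodule.subset_span ⟨g :: L, ?_, ?_⟩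
    · intro f hf x
      rcases List.mem_cons.1 hf with rfl | h
      · exact hg x
      · exact hL f h x
    · funext μ; simp [mono]
  | zero => rw [mul_zero]; exact Submodule.zero_mem _
  | add y z _ _ hy hz => rw [mul_add]; exact Submodule.add_mem _ hy hz
  | smul a y _ hy => rw [mul_smul_comm]; exact Submodule.smul_mem _ _ hy

lemma integrable_cont (f : C(S, ℝ)) (μ : FiniteMeasure S) : Integrable (fun x => f x)
    (μ : Measure S) :=
  Integrable.of_bound f.continuous.measurable.aestronglyMeasurable ‖f‖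
    (Eventually.of_forall fun x => f.norm_coe_le_norm x)

lemma evl_add (f g : C(S, ℝ)) (μ : FiniteMeasure S) : evl (f + g) μ = evl f μ + evl g μ := by
  unfold evl
  rw [← integral_add (integrable_cont f μ) (integrable_cont g μ)]
  rfl

lemma mono_mem_polyN (L : List C(S, ℝ)) : mono L ∈ PolyN S := by
  induction L with
  | nil => exact Submodule.subset_span ⟨[], by simp, rfl⟩
  | cons f L ih =>
    let c : C(S, ℝ) := ContinuousMap.const S ‖f‖
    have hfc : ∀ x, 0 ≤ (f + c) x := by
      intro x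
      have := f.norm_coe_le_norm x
      rw [Real.norm_eq_abs] at this
      have h2 := neg_abs_le (f x)
      simp only [ContinuousMap.add_apply, c, ContinuousMap.const_apply]
      linarith
    have hc : ∀ x, 0 ≤ c x := fun x => norm_nonneg f
    have h1 : mono (f :: L) = (evl (f + c)) * mono L - (evl c) * mono L := by
      funext μ
      simp only [Pi.sub_apply, Pi.mul_apply, evl_add]
      simp only [mono, List.map_cons, List.prod_cons]
      ring
    rw [h1]
    exact Submodule.sub_mem _ (evl_mul_mem_polyN hfc ih) (evl_mul_mem_polyN hc ih)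

lemma poly_le_polyN : Poly S ≤ PolyN S := by
  unfold Poly
  rw [Submodule.span_le]
  rintro _ ⟨L, rfl⟩
  exact mono_mem_polyN L

lemma mono_eq_prod (L : List C(S, ℝ)) (μ : FiniteMeasure S) :
    mono L μ = ∏ i : Fin L.length, evl (L.get i) μ := by
  unfold mono
  rw [← List.prod_ofFn]
  congr 1
  apply List.ext_get
  · simp
  · intro k h1 h2
    simp

lemma evl_le_norm_mul {f : C(S, ℝ)} (μ : FiniteMeasure S) : evl f μ ≤ ‖f‖ * evl 1 μ := by
  have h := abs_evl_le f μ
  rw [evl_one]
  exact (le_abs_self _).trans h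

variable {ν : Measure S} [IsProbabilityMeasure ν]
variable {Ω : ℕ → Type*} [∀ n, MeasurableSpace (Ω n)] {P : ∀ n, Measure (Ω n)}
  [∀ n, IsProbabilityMeasure (P n)]
variable {Y : ∀ n, Ω n → S → ℝ} {Yt : ℕ → ∀ n, Ω n → S → ℝ} {K : S × S → ℝ}
  {Kt : ℕ → S × S → ℝ} {M : ∀ n, Ω n → FiniteMeasure S} {w : ∀ n, Ω n → ℝ}

/-- cut-off monomials, nonempty nonnegative lists -/
lemma MHyp.conv_mono_cons (H : FieldHyp ν P Y Yt K Kt) (HM : MHyp ν P Y M w)
    (L : List C(S, ℝ)) (hL : ∀ f ∈ L, ∀ x, 0 ≤ f x) (hne : L ≠ []) (R : ℝ) (hR : 0 ≤ R) :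
    ∃ l, Tendsto (fun n => ∫ ω, cutf R (evl 1 (M n ω)) * mono L (M n ω) ∂(P n))
      atTop (𝓝 l) := by
  set l := L.length with hl
  have hl1 : 1 ≤ l := List.length_pos_iff.2 hne
  have hlr : (1 : ℝ) ≤ l := by exact_mod_cast hl1
  set f : Fin l → C(S, ℝ) := fun i => L.get i with hf
  have hf0 : ∀ i x, 0 ≤ f i x := fun i x => hL _ (List.get_mem _ _) x
  have hgb : ∀ y : ℝ, ‖cutf R (Real.exp y) * Real.exp (((l : ℝ) - 1 / 2) * y)‖ ≤
      (R + 1) ^ ((l : ℝ) - 1 / 2) := by
    intro y
    rw [norm_mul, Real.norm_eq_abs, Real.norm_eq_abs, abs_of_nonneg (cutf_nonneg _ _),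
      abs_of_pos (Real.exp_pos _)]
    rcases le_or_gt (R + 1) (Real.exp y) with h | h
    · rw [cutf_eq_zero h, zero_mul]
      positivity
    · have h1 : Real.exp (((l : ℝ) - 1 / 2) * y) = (Real.exp y) ^ ((l : ℝ) - 1 / 2) := by
        rw [← Real.exp_mul]; congr 1; ring
      rw [h1]
      calc cutf R (Real.exp y) * Real.exp y ^ ((l : ℝ) - 1 / 2)
          ≤ 1 * (R + 1) ^ ((l : ℝ) - 1 / 2) := by
            refine mul_le_mul (cutf_le_one _ _) ?_ (by positivity) zero_le_one
            exact Real.rpow_le_rpow (Real.exp_pos y).le h.le (by linarith)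
        _ = (R + 1) ^ ((l : ℝ) - 1 / 2) := one_mul _
  let g : ℝ →ᵇ ℝ := BoundedContinuousFunction.ofNormedAddCommGroup
    (fun y => cutf R (Real.exp y) * Real.exp (((l : ℝ) - 1 / 2) * y))
    (((continuous_cutf R).comp Real.continuous_exp).mul
      (Real.continuous_exp.comp (continuous_const.mul continuous_id))) _ hgb
  obtain ⟨lim, hlim⟩ := MHyp.conv_weight H HM f g
  refine ⟨lim, hlim.congr fun n => ?_⟩
  refine integral_congr_ae (Eventually.of_forall fun ω => ?_)
  simp only
  set μ := M n ω with hμ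
  have hm0 := evl_one_nonneg μ
  change cutf R (Real.exp (Real.log (evl 1 μ))) *
    Real.exp (((l : ℝ) - 1 / 2) * Real.log (evl 1 μ)) * rho f μ = _
  have hmono : mono L μ = ∏ i, evl (f i) μ := mono_eq_prod L μ
  rw [hmono]
  rcases hm0.lt_or_eq with h | h
  · rw [Real.exp_log h]
    have h1 : Real.exp (((l : ℝ) - 1 / 2) * Real.log (evl 1 μ)) =
        (evl 1 μ) ^ l / Real.sqrt (evl 1 μ) := by
      rw [sub_mul, Real.exp_sub, mul_comm (l : ℝ), ← Real.rpow_def_of_pos h, Real.rpow_natCast]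
      congr 1
      rw [Real.sqrt_eq_rpow, Real.rpow_def_of_pos h]
      congr 1; ring
    have h2 : rho f μ = Real.sqrt (evl 1 μ) * ((∏ i, evl (f i) μ) / (evl 1 μ) ^ l) := by
      unfold rho
      congr 1
      rw [div_eq_mul_inv, ← inv_pow]
      have : ((evl 1 μ)⁻¹ : ℝ) ^ l = ∏ _i : Fin l, (evl 1 μ)⁻¹ := by simp
      rw [this, ← Finset.prod_mul_distrib]
      refine Finset.prod_congr rfl fun i _ => ?_
      have h3 : 0 ≤ evl (f i) μ := evl_nonneg (hf0 i) μ
      rw [max_eq_left (by positivity), min_eq_left, div_eq_mul_inv]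
      rw [div_le_iff₀ h]
      exact evl_le_norm_mul μ
    rw [h1, h2]
    have hs : 0 < Real.sqrt (evl 1 μ) := Real.sqrt_pos.2 h
    field_simp
  · have h1 : ∏ i, evl (f i) μ = 0 := by
      have h0 : (⟨0, hl1⟩ : Fin l) ∈ (Finset.univ : Finset (Fin l)) := Finset.mem_univ _
      apply Finset.prod_eq_zero h0
      have h2 := evl_le_norm_mul (f := f ⟨0, hl1⟩) μ
      rw [← h, mul_zero] at h2
      exact le_antisymm h2 (evl_nonneg (hf0 _) μ)
    rw [h1, mul_zero]
    unfold rho
    rw [← h, Real.sqrt_zero]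
    ring

/-- cut-off of the mass -/
lemma MHyp.conv_mono_nil (H : FieldHyp ν P Y Yt K Kt) (HM : MHyp ν P Y M w)
    (R : ℝ) (hR : 0 < R) :
    ∃ l, Tendsto (fun n => ∫ ω, cutf R (evl 1 (M n ω)) ∂(P n)) atTop (𝓝 l) := by
  have hgb : ∀ y : ℝ, ‖(1 - cutf R (Real.exp y)) * Real.exp (-y / 2)‖ ≤ R ^ (-(1 / 2) : ℝ) := by
    intro y
    rw [norm_mul, Real.norm_eq_abs, Real.norm_eq_abs,
      abs_of_nonneg (by linarith [cutf_le_one R (Real.exp y)]), abs_of_pos (Real.exp_pos _)]
    rcases le_or_gt (Real.exp y) R with h | h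
    · rw [cutf_eq_one h, sub_self, zero_mul]
      positivity
    · have h1 : Real.exp (-y / 2) = (Real.exp y) ^ (-(1 / 2) : ℝ) := by
        rw [← Real.exp_mul]; congr 1; ring
      rw [h1]
      calc (1 - cutf R (Real.exp y)) * Real.exp y ^ (-(1 / 2) : ℝ)
          ≤ 1 * R ^ (-(1 / 2) : ℝ) := by
            refine mul_le_mul ?_ ?_ (by positivity) zero_le_one
            · linarith [cutf_nonneg R (Real.exp y)]
            · exact Real.rpow_le_rpow_of_nonpos hR h.le (by norm_num)
        _ = R ^ (-(1 / 2) : ℝ) := one_mul _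
  let g : ℝ →ᵇ ℝ := BoundedContinuousFunction.ofNormedAddCommGroup
    (fun y => (1 - cutf R (Real.exp y)) * Real.exp (-y / 2))
    ((continuous_const.sub ((continuous_cutf R).comp Real.continuous_exp)).mul
      (Real.continuous_exp.comp (by fun_prop))) _ hgb
  obtain ⟨lim, hlim⟩ := MHyp.conv_weight H HM (l := 0) (fun i => i.elim0) g
  refine ⟨1 - lim, (hlim.const_sub 1).congr fun n => ?_⟩
  have mm : Measurable fun ω => evl (1 : C(S, ℝ)) (M n ω) := HM.mM n 1
  have hci : Integrable (fun ω => cutf R (evl 1 (M n ω))) (P n) :=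
    Integrable.of_bound ((continuous_cutf R).measurable.comp mm).aestronglyMeasurable 1
      (Eventually.of_forall fun ω => by
        rw [Real.norm_eq_abs, abs_of_nonneg (cutf_nonneg _ _)]; exact cutf_le_one _ _)
  have h1 : ∫ ω, cutf R (evl 1 (M n ω)) ∂(P n) =
      1 - ∫ ω, (1 - cutf R (evl 1 (M n ω))) ∂(P n) := by
    rw [integral_sub (integrable_const _) hci]
    simp
  rw [h1]
  congr 1
  refine integral_congr_ae (Eventually.of_forall fun ω => ?_)
  simp only
  set μ := M n ω with hμ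
  have hm0 := evl_one_nonneg μ
  change (1 - cutf R (Real.exp (Real.log (evl 1 μ)))) * Real.exp (-Real.log (evl 1 μ) / 2) *
    rho (fun i : Fin 0 => i.elim0) μ = _
  have hrho : rho (fun i : Fin 0 => (i.elim0 : C(S, ℝ))) μ = Real.sqrt (evl 1 μ) := by
    unfold rho; simp
  rw [hrho]
  rcases hm0.lt_or_eq with h | h
  · rw [Real.exp_log h]
    have h2 : Real.exp (-Real.log (evl 1 μ) / 2) = (Real.sqrt (evl 1 μ))⁻¹ := by
      rw [neg_div, Real.exp_neg, Real.exp_half, Real.exp_log h]
    have hs : 0 < Real.sqrt (evl 1 μ) := Real.sqrt_pos.2 h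
    rw [h2, mul_assoc, inv_mul_cancel₀ hs.ne', mul_one]
  · rw [← h, Real.sqrt_zero, cutf_eq_one hR.le]
    ring

/-- cut-off polynomials -/
lemma MHyp.conv_poly (H : FieldHyp ν P Y Yt K Kt) (HM : MHyp ν P Y M w)
    (R : ℝ) (hR : 0 < R) {p : FiniteMeasure S → ℝ} (hp : p ∈ Poly S) :
    ∃ l, Tendsto (fun n => ∫ ω, cutf R (evl 1 (M n ω)) * p (M n ω) ∂(P n)) atTop (𝓝 l) := by
  have hint : ∀ q ∈ Poly S, ∀ n, Integrable (fun ω => cutf R (evl 1 (M n ω)) * q (M n ω))
      (P n) := by
    intro q hq n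
    obtain ⟨C, hC0, hC⟩ := exists_bound_poly hq (Real.toNNReal (R + 1))
    refine Integrable.of_bound (((continuous_cutf R).measurable.comp (HM.mM n 1)).mul
      (measurable_poly_comp (M n) (HM.mM n) hq)).aestronglyMeasurable C ?_
    filter_upwards with ω
    rw [norm_mul, Real.norm_eq_abs, Real.norm_eq_abs, abs_of_nonneg (cutf_nonneg _ _)]
    rcases le_or_gt (R + 1) (evl 1 (M n ω)) with h | h
    · rw [cutf_eq_zero h, zero_mul]; exact hC0
    · have h1 : (M n ω).mass ≤ Real.toNNReal (R + 1) := by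
        rw [← NNReal.coe_le_coe, Real.coe_toNNReal _ (by positivity), ← evl_one]
        exact h.le
      calc cutf R (evl 1 (M n ω)) * |q (M n ω)| ≤ 1 * C :=
            mul_le_mul (cutf_le_one _ _) (hC _ h1) (abs_nonneg _) zero_le_one
        _ = C := one_mul _
  have hp' : p ∈ PolyN S := poly_le_polyN hp
  have key : ∀ q ∈ PolyN S, q ∈ Poly S ∧
      ∃ l, Tendsto (fun n => ∫ ω, cutf R (evl 1 (M n ω)) * q (M n ω) ∂(P n)) atTop (𝓝 l) := by
    intro q hq
    unfold PolyN at hq
    induction hq using Submodule.span_induction with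
    | mem x hx =>
      obtain ⟨L, hL, rfl⟩ := hx
      refine ⟨mono_mem L, ?_⟩
      by_cases hne : L = []
      · subst hne
        obtain ⟨l, hl⟩ := MHyp.conv_mono_nil H HM R hR
        refine ⟨l, hl.congr fun n => ?_⟩
        simp [mono]
      · exact MHyp.conv_mono_cons H HM L hL hne R hR.le
    | zero => exact ⟨Submodule.zero_mem _, 0, by simp⟩
    | add y z _ _ hy hz =>
      obtain ⟨hy', l, hl⟩ := hy
      obtain ⟨hz', l', hl'⟩ := hz
      refine ⟨Submodule.add_mem _ hy' hz', l + l', (hl.add hl').congr fun n => ?_⟩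
      rw [← integral_add (hint y hy' n) (hint z hz' n)]
      refine integral_congr_ae (Eventually.of_forall fun ω => ?_)
      simp only [Pi.add_apply]
      ring
    | smul a y _ hy =>
      obtain ⟨hy', l, hl⟩ := hy
      refine ⟨Submodule.smul_mem _ _ hy', a * l, (hl.const_mul a).congr fun n => ?_⟩
      rw [← integral_const_mul]
      refine integral_congr_ae (Eventually.of_forall fun ω => ?_)
      simp only [Pi.smul_apply, smul_eq_mul]
      ring
  exact (key p hp').2

/-- convergence of all bounded continuous functionals -/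
theorem MHyp.conv_main (H : FieldHyp ν P Y Yt K Kt) (HM : MHyp ν P Y M w)
    (Φ : FiniteMeasure S →ᵇ ℝ) :
    ∃ l, Tendsto (fun n => ∫ ω, Φ (M n ω) ∂(P n)) atTop (𝓝 l) := by
  apply conv_of_approx
  intro ε hε
  set B : ℝ := 2 * ‖Φ‖ + 1 with hB
  have hB0 : 0 < B := by have := norm_nonneg Φ; linarith
  set R : ℝ := 2 * B / ε + 1 with hRdef
  have hR : 0 < R := by positivity
  have hRB : B / R ≤ ε / 2 := by
    rw [div_le_iff₀ hR, hRdef]
    have : ε / 2 * (2 * B / ε + 1) = B + ε / 2 := by field_simp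
    rw [this]; linarith
  obtain ⟨p, hp, hpa⟩ := exists_poly_approx (Real.toNNReal (R + 1)) Φ Φ.continuous
    (ε := min (ε / 2) 1) (by positivity)
  refine ⟨_, MHyp.conv_poly H HM R hR hp, Eventually.of_forall fun n => ?_⟩
  have mΦ : Measurable fun ω => Φ (M n ω) := measurable_cont_comp (M n) (HM.mM n) Φ.continuous
  have iΦ : Integrable (fun ω => Φ (M n ω)) (P n) :=
    Integrable.of_bound mΦ.aestronglyMeasurable ‖Φ‖
      (Eventually.of_forall fun ω => Φ.norm_coe_le_norm _)
  have hpt : ∀ ω, ‖Φ (M n ω) - cutf R (evl 1 (M n ω)) * p (M n ω)‖ ≤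
      ε / 2 + (B / R) * evl 1 (M n ω) := by
    intro ω
    set μ := M n ω with hμ
    have hm0 := evl_one_nonneg μ
    have hBR : 0 ≤ B / R * evl 1 μ := by positivity
    have hΦb : |Φ μ| ≤ ‖Φ‖ := Φ.norm_coe_le_norm μ
    rw [Real.norm_eq_abs]
    rcases le_or_gt (evl 1 μ) R with h | h
    · rw [cutf_eq_one h, one_mul]
      have h1 : μ.mass ≤ Real.toNNReal (R + 1) := by
        rw [← NNReal.coe_le_coe, Real.coe_toNNReal _ (by positivity), ← evl_one]
        linarith
      have h2 := hpa μ h1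
      have h3 : min (ε / 2) 1 ≤ ε / 2 := min_le_left _ _
      linarith
    · have h4 : B ≤ B / R * evl 1 μ := by
        rw [div_mul_eq_mul_div, le_div_iff₀ hR]
        exact mul_le_mul_of_nonneg_left h.le hB0.le
      have h5 : |Φ μ - cutf R (evl 1 μ) * p μ| ≤ B := by
        rcases le_or_gt (R + 1) (evl 1 μ) with h6 | h6
        · rw [cutf_eq_zero h6, zero_mul, sub_zero]
          linarith [norm_nonneg Φ]
        · have h1 : μ.mass ≤ Real.toNNReal (R + 1) := by
            rw [← NNReal.coe_le_coe, Real.coe_toNNReal _ (by positivity), ← evl_one]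
            exact h6.le
          have h2 := hpa μ h1
          have h3 : min (ε / 2) 1 ≤ 1 := min_le_right _ _
          have h7 : |p μ| ≤ ‖Φ‖ + 1 := by
            calc |p μ| = |Φ μ - (Φ μ - p μ)| := by congr 1; ring
              _ ≤ |Φ μ| + |Φ μ - p μ| := abs_sub _ _
              _ ≤ ‖Φ‖ + 1 := by linarith
          calc |Φ μ - cutf R (evl 1 μ) * p μ| ≤ |Φ μ| + |cutf R (evl 1 μ) * p μ| := abs_sub _ _
            _ ≤ ‖Φ‖ + 1 * (‖Φ‖ + 1) := by
                rw [abs_mul, abs_of_nonneg (cutf_nonneg _ _)]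
                refine add_le_add hΦb (mul_le_mul (cutf_le_one _ _) h7 (abs_nonneg _) zero_le_one)
            _ = B := by rw [hB]; ring
      linarith
  have ip : Integrable (fun ω => cutf R (evl 1 (M n ω)) * p (M n ω)) (P n) := by
    have mp : Measurable (fun ω => cutf R (evl 1 (M n ω)) * p (M n ω)) :=
      ((continuous_cutf R).measurable.comp (HM.mM n 1)).mul
      (measurable_poly_comp (M n) (HM.mM n) hp)
    obtain ⟨C, hC0, hC⟩ := exists_bound_poly hp (Real.toNNReal (R + 1))
    refine Integrable.of_bound mp.aestronglyMeasurable C ?_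
    filter_upwards with ω
    rw [norm_mul, Real.norm_eq_abs, Real.norm_eq_abs, abs_of_nonneg (cutf_nonneg _ _)]
    rcases le_or_gt (R + 1) (evl 1 (M n ω)) with h | h
    · rw [cutf_eq_zero h, zero_mul]; exact hC0
    · have h1 : (M n ω).mass ≤ Real.toNNReal (R + 1) := by
        rw [← NNReal.coe_le_coe, Real.coe_toNNReal _ (by positivity), ← evl_one]
        exact h.le
      calc cutf R (evl 1 (M n ω)) * |p (M n ω)| ≤ 1 * C :=
            mul_le_mul (cutf_le_one _ _) (hC _ h1) (abs_nonneg _) zero_le_one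
        _ = C := one_mul _
  rw [← integral_sub iΦ ip]
  calc ‖∫ ω, (Φ (M n ω) - cutf R (evl 1 (M n ω)) * p (M n ω)) ∂(P n)‖
      ≤ ∫ ω, (ε / 2 + (B / R) * evl 1 (M n ω)) ∂(P n) :=
        norm_integral_le_of_norm_le ((integrable_const _).add ((HM.Mmean n).1.const_mul _))
          (Eventually.of_forall hpt)
    _ = ε / 2 + (B / R) * ∫ ω, evl 1 (M n ω) ∂(P n) := by
        rw [integral_add (integrable_const _) ((HM.Mmean n).1.const_mul _), integral_const_mul]
        simp
    _ ≤ ε / 2 + (B / R) * 1 := by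
        have := mul_le_mul_of_nonneg_left (HM.Mmean n).2 (show 0 ≤ B / R by positivity)
        linarith
    _ ≤ ε := by linarith

end Pool.Agent.helper84.SG
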