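import Mathlib
import Pool.Agent.helper84.SG.MainConv

/-!
# Existence of the limiting random measure (MP_55470d_pr, module D5)
-/

set_option autoImplicit false
set_option linter.unusedSectionVars false
open MeasureTheory ProbabilityTheory Filter Topology
open scoped NNReal ENNReal BoundedContinuousFunction

namespace Pool.Agent.helper84.SG

variable {S : Type} [MetricSpace S] [CompactSpace S] [MeasurableSpace S] [BorelSpace S]

/-- the space of finite measures with its Borel σ-algebra (weak topology) -/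
def FM (S : Type) [MeasurableSpace S] : Type := FiniteMeasure S

noncomputable instance : TopologicalSpace (FM S) := inferInstanceAs (TopologicalSpace (FiniteMeasure S))

noncomputable instance : MeasurableSpace (FM S) := borel (FM S)

instance : BorelSpace (FM S) := ⟨rfl⟩

instance : T2Space (FM S) := inferInstanceAs (T2Space (FiniteMeasure S))

variable {ν : Measure S} [IsProbabilityMeasure ν]
variable {Ω : ℕ → Type*} [∀ n, MeasurableSpace (Ω n)] {P : ∀ n, Measure (Ω n)}
  [∀ n, IsProbabilityMeasure (P n)]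
variable {Y : ∀ n, Ω n → S → ℝ} {Yt : ℕ → ∀ n, Ω n → S → ℝ} {K : S × S → ℝ}
  {Kt : ℕ → S × S → ℝ} {M : ∀ n, Ω n → FiniteMeasure S} {w : ∀ n, Ω n → ℝ}

/-- existence of the limit law -/
theorem exists_limit_law (H : FieldHyp ν P Y Yt K Kt) (HM : MHyp ν P Y M w)
    (hB : ∀ n, @Measurable (Ω n) (FiniteMeasure S) _ (borel (FiniteMeasure S)) (M n)) :
    ∃ Q : Measure (FM S), IsProbabilityMeasure Q ∧ ∀ Φ : FiniteMeasure S →ᵇ ℝ,
      Tendsto (fun n => ∫ ω, Φ (M n ω) ∂(P n)) atTop (𝓝 (∫ μ : FM S, Φ μ ∂Q)) := by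
  let M' : ∀ n, Ω n → FM S := M
  have hM' : ∀ n, Measurable (M' n) := hB
  let Qn : ℕ → ProbabilityMeasure (FM S) := fun n =>
    ⟨(P n).map (M' n), Measure.isProbabilityMeasure_map (hM' n).aemeasurable⟩
  have hQint : ∀ n (Φ : FiniteMeasure S →ᵇ ℝ), ∫ μ : FM S, Φ μ ∂(Qn n : Measure (FM S)) =
      ∫ ω, Φ (M n ω) ∂(P n) := by
    intro n Φ
    have hΦc : Continuous (fun μ : FM S => Φ μ) := Φ.continuous
    exact integral_map (hM' n).aemeasurable hΦc.measurable.aestronglyMeasurable
  have htight : IsTightMeasureSet {((μ : ProbabilityMeasure (FM S)) : Measure (FM S)) |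
      μ ∈ Set.range Qn} := by
    rw [isTightMeasureSet_iff_exists_isCompact_measure_compl_le]
    intro ε hε
    obtain ⟨R, hR0, hR⟩ : ∃ R : ℝ≥0, 0 < R ∧ ENNReal.ofReal (1 / R) ≤ ε := by
      rcases eq_or_ne ε ∞ with h | h
      · exact ⟨1, one_pos, by rw [h]; exact le_top⟩
      · have hε' : 0 < ε.toReal := ENNReal.toReal_pos hε.ne' h
        refine ⟨Real.toNNReal (1 / ε.toReal), by simpa using hε', ?_⟩
        rw [Real.coe_toNNReal _ (by positivity), one_div_one_div, ENNReal.ofReal_toReal h]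
    refine ⟨{μ : FM S | FiniteMeasure.mass (μ : FiniteMeasure S) ≤ R},
      isCompact_setOfPred_finiteMeasure_le_of_compactSpace S R, ?_⟩
    rintro _ ⟨_, ⟨n, rfl⟩, rfl⟩
    have hcl : IsClosed {μ : FM S | FiniteMeasure.mass (μ : FiniteMeasure S) ≤ R} :=
      IsCompact.isClosed (isCompact_setOfPred_finiteMeasure_le_of_compactSpace S R)
    change ((P n).map (M' n)) _ ≤ ε
    rw [Measure.map_apply (hM' n) hcl.measurableSet.compl]
    refine le_trans ?_ hR
    have h1 : (M' n) ⁻¹' {μ : FM S | FiniteMeasure.mass (μ : FiniteMeasure S) ≤ R}ᶜ ⊆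
        {ω | (R : ℝ≥0∞) ≤ ENNReal.ofReal (evl 1 (M n ω))} := by
      intro ω hω
      have h2 : ¬ ((M n ω).mass ≤ R) := hω
      rw [Set.mem_ofPred_eq, evl_one, ENNReal.ofReal_coe_nnreal, ENNReal.coe_le_coe]
      exact (not_le.1 h2).le
    refine (measure_mono h1).trans ?_
    have h3 := meas_ge_le_lintegral_div (μ := P n) (f := fun ω => ENNReal.ofReal (evl 1 (M n ω)))
      (HM.mM n 1).ennreal_ofReal.aemeasurable (ε := (R : ℝ≥0∞)) (by simpa using hR0.ne')
      (by simp)
    refine h3.trans ?_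
    rw [← ofReal_integral_eq_lintegral_ofReal (HM.Mmean n).1
      (Eventually.of_forall fun ω => evl_one_nonneg _)]
    rw [ENNReal.ofReal_div_of_pos (by exact_mod_cast hR0), ENNReal.ofReal_coe_nnreal]
    gcongr
    exact (HM.Mmean n).2
  have hcomp := isCompact_closure_of_isTightMeasureSet htight
  obtain ⟨U, hU⟩ : ∃ U : Ultrafilter ℕ, (U : Filter ℕ) ≤ atTop :=
    ⟨Ultrafilter.of atTop, Ultrafilter.of_le atTop⟩
  have hmem : closure (Set.range Qn) ∈ U.map Qn := by
    rw [Ultrafilter.mem_map]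
    have : Qn ⁻¹' closure (Set.range Qn) = Set.univ := by
      ext n
      simp only [Set.mem_preimage, Set.mem_univ, iff_true]
      exact subset_closure ⟨n, rfl⟩
    rw [this]; exact Filter.univ_mem
  obtain ⟨Q, -, hQ⟩ := hcomp.ultrafilter_le_nhds' (U.map Qn) hmem
  have hQt : Tendsto Qn U (𝓝 Q) := hQ
  refine ⟨Q, inferInstance, fun Φ => ?_⟩
  obtain ⟨l, hl⟩ := MHyp.conv_main H HM Φ
  let Φ' : FM S →ᵇ ℝ := BoundedContinuousFunction.ofNormedAddCommGroup (fun μ : FM S => Φ μ)
    Φ.continuous ‖Φ‖ (fun μ => Φ.norm_coe_le_norm μ)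
  have h4 := (ProbabilityMeasure.tendsto_iff_forall_integral_tendsto.1 hQt) Φ'
  have h5 : Tendsto (fun n => ∫ ω, Φ (M n ω) ∂(P n)) U (𝓝 (∫ μ : FM S, Φ μ ∂(Q : Measure (FM S)))) := by
    refine h4.congr fun n => ?_
    exact hQint n Φ
  have h6 := tendsto_nhds_unique (hl.mono_left hU) h5
  rw [← h6]
  exact hl

lemma continuous_evl_FM (f : C(S, ℝ)) : Continuous (fun μ : FM S => evl f μ) := continuous_evl f

/-- the mean of the limit -/
theorem limit_mean (HM : MHyp ν P Y M w) (Q : Measure (FM S)) [IsProbabilityMeasure Q]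
    (hQ : ∀ Φ : FiniteMeasure S →ᵇ ℝ,
      Tendsto (fun n => ∫ ω, Φ (M n ω) ∂(P n)) atTop (𝓝 (∫ μ : FM S, Φ μ ∂Q)))
    (hsq : ∃ C : ℝ, ∀ n, Integrable (fun ω => (evl 1 (M n ω)) ^ 2) (P n) ∧
      ∫ ω, (evl 1 (M n ω)) ^ 2 ∂(P n) ≤ C)
    (hbar : ∀ n (f : C(S, ℝ)), ∫ ω, evl f (M n ω) ∂(P n) = ∫ x, f x ∂ν) (f : C(S, ℝ)) :
    Integrable (fun μ : FM S => evl f μ) Q ∧ ∫ μ : FM S, evl f μ ∂Q = ∫ x, f x ∂ν := by
  obtain ⟨C, hC⟩ := hsq
  have hC0 : 0 ≤ C := (integral_nonneg fun ω => sq_nonneg _).trans (hC 0).2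
  -- integrability of `evl f (M n)`
  have iM : ∀ n, Integrable (fun ω => evl f (M n ω)) (P n) := by
    intro n
    refine Integrable.mono' ((HM.Mmean n).1.const_mul ‖f‖) (HM.mM n f).aestronglyMeasurable ?_
    filter_upwards with ω
    rw [evl_one]
    exact abs_evl_le f (M n ω)
  -- the truncated functionals
  have hcb : ∀ (R : ℝ), 0 ≤ R → ∀ μ : FiniteMeasure S,
      ‖cutf R (evl 1 μ) * evl f μ‖ ≤ ‖f‖ * (R + 1) := by
    intro R hR μ
    rw [norm_mul, Real.norm_eq_abs, Real.norm_eq_abs, abs_of_nonneg (cutf_nonneg _ _)]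
    rcases le_or_gt (R + 1) (evl 1 μ) with h | h
    · rw [cutf_eq_zero h, zero_mul]; positivity
    · have h1 := abs_evl_le f μ
      rw [← evl_one] at h1
      calc cutf R (evl 1 μ) * |evl f μ| ≤ 1 * (‖f‖ * (R + 1)) := by
            refine mul_le_mul (cutf_le_one _ _) (h1.trans ?_) (abs_nonneg _) zero_le_one
            exact mul_le_mul_of_nonneg_left h.le (norm_nonneg _)
        _ = ‖f‖ * (R + 1) := one_mul _
  have hcc : ∀ R : ℝ, Continuous fun μ : FiniteMeasure S => cutf R (evl 1 μ) * evl f μ := fun R =>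
    ((continuous_cutf R).comp (continuous_evl 1)).mul (continuous_evl f)
  -- error bound at level `R`
  have hR : ∀ R : ℝ, 0 < R →
      |∫ μ : FM S, cutf R (evl 1 μ) * evl f μ ∂Q - ∫ x, f x ∂ν| ≤ ‖f‖ * C / R := by
    intro R hR0
    let Φ : FiniteMeasure S →ᵇ ℝ := BoundedContinuousFunction.ofNormedAddCommGroup
      (fun μ => cutf R (evl 1 μ) * evl f μ) (hcc R) _ (hcb R hR0.le)
    have h1 := hQ Φ
    have h2 : ∀ n, |∫ ω, Φ (M n ω) ∂(P n) - ∫ x, f x ∂ν| ≤ ‖f‖ * C / R := by
      intro n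
      have hi : Integrable (fun ω => Φ (M n ω)) (P n) :=
        Integrable.of_bound (measurable_cont_comp (M n) (HM.mM n) Φ.continuous).aestronglyMeasurable
          _ (Eventually.of_forall fun ω => hcb R hR0.le _)
      rw [← hbar n f, ← integral_sub hi (iM n)]
      calc |∫ ω, (Φ (M n ω) - evl f (M n ω)) ∂(P n)|
          ≤ ∫ ω, (‖f‖ / R) * (evl 1 (M n ω)) ^ 2 ∂(P n) := by
            rw [← Real.norm_eq_abs]
            refine norm_integral_le_of_norm_le ((hC n).1.const_mul _)
              (Eventually.of_forall fun ω => ?_)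
            change ‖cutf R (evl 1 (M n ω)) * evl f (M n ω) - evl f (M n ω)‖ ≤ _
            have h3 : cutf R (evl 1 (M n ω)) * evl f (M n ω) - evl f (M n ω) =
              -((1 - cutf R (evl 1 (M n ω))) * evl f (M n ω)) := by ring
            rw [h3, norm_neg, norm_mul, Real.norm_eq_abs, Real.norm_eq_abs,
              abs_of_nonneg (by linarith [cutf_le_one R (evl 1 (M n ω))])]
            have h4 := abs_evl_le f (M n ω)
            rw [← evl_one] at h4
            set m := evl 1 (M n ω)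
            have hm0 : 0 ≤ m := evl_one_nonneg _
            rcases le_or_gt m R with h | h
            · rw [cutf_eq_one h, sub_self, zero_mul]
              positivity
            · calc (1 - cutf R m) * |evl f (M n ω)| ≤ 1 * (‖f‖ * m) := by
                    refine mul_le_mul ?_ h4 (abs_nonneg _) zero_le_one
                    linarith [cutf_nonneg R m]
                _ ≤ ‖f‖ / R * m ^ 2 := by
                    rw [one_mul, div_mul_eq_mul_div, le_div_iff₀ hR0]
                    have : ‖f‖ * m * R ≤ ‖f‖ * m * m :=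
                      mul_le_mul_of_nonneg_left h.le (by positivity)
                    nlinarith
        _ = (‖f‖ / R) * ∫ ω, (evl 1 (M n ω)) ^ 2 ∂(P n) := integral_const_mul _ _
        _ ≤ (‖f‖ / R) * C := mul_le_mul_of_nonneg_left (hC n).2 (by positivity)
        _ = ‖f‖ * C / R := by ring
    have h3 : Tendsto (fun n => |∫ ω, Φ (M n ω) ∂(P n) - ∫ x, f x ∂ν|) atTop
        (𝓝 |∫ μ : FM S, Φ μ ∂Q - ∫ x, f x ∂ν|) := (h1.sub_const _).abs
    exact le_of_tendsto h3 (Eventually.of_forall h2)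
  -- integrability of the mass under `Q`
  have hmass : Integrable (fun μ : FM S => evl 1 μ) Q := by
    have hmm : Measurable fun μ : FM S => evl 1 μ := (continuous_evl_FM 1).measurable
    refine ⟨hmm.aestronglyMeasurable, ?_⟩
    rw [hasFiniteIntegral_iff_norm]
    have hle : ∀ k : ℕ, ∫⁻ μ : FM S, ENNReal.ofReal (cutf (k + 1) (evl 1 μ) * evl 1 μ) ∂Q ≤
        ENNReal.ofReal 1 := by
      intro k
      have hb : ∀ μ : FiniteMeasure S, ‖cutf ((k : ℝ) + 1) (evl 1 μ) * evl 1 μ‖ ≤
          ((k : ℝ) + 1) + 1 := by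
        intro μ
        have hm0 := evl_one_nonneg μ
        rw [norm_mul, Real.norm_eq_abs, Real.norm_eq_abs, abs_of_nonneg (cutf_nonneg _ _),
          abs_of_nonneg hm0]
        rcases le_or_gt (((k : ℝ) + 1) + 1) (evl 1 μ) with h | h
        · rw [cutf_eq_zero h, zero_mul]; positivity
        · calc cutf ((k : ℝ) + 1) (evl 1 μ) * evl 1 μ ≤ 1 * (((k : ℝ) + 1) + 1) :=
                mul_le_mul (cutf_le_one _ _) h.le hm0 zero_le_one
            _ = _ := one_mul _
      let Φ : FiniteMeasure S →ᵇ ℝ := BoundedContinuousFunction.ofNormedAddCommGroup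
        (fun μ => cutf ((k : ℝ) + 1) (evl 1 μ) * evl 1 μ)
        (((continuous_cutf _).comp (continuous_evl 1)).mul (continuous_evl 1)) _ hb
      have hΦm : Continuous (fun μ : FM S => Φ μ) := Φ.continuous
      rw [← ofReal_integral_eq_lintegral_ofReal]
      · apply ENNReal.ofReal_le_ofReal
        refine le_of_tendsto (hQ Φ) (Eventually.of_forall fun n => ?_)
        refine le_trans (integral_mono (Integrable.of_bound
          (measurable_cont_comp (M n) (HM.mM n) Φ.continuous).aestronglyMeasurable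
          _ (Eventually.of_forall fun ω => hb _)) (HM.Mmean n).1 fun ω => ?_) (HM.Mmean n).2
        change cutf ((k : ℝ) + 1) (evl 1 (M n ω)) * evl 1 (M n ω) ≤ evl 1 (M n ω)
        have hm0 := evl_one_nonneg (M n ω)
        nlinarith [cutf_le_one ((k : ℝ) + 1) (evl 1 (M n ω))]
      · exact Integrable.of_bound hΦm.measurable.aestronglyMeasurable _
          (Eventually.of_forall fun μ => hb μ)
      · exact Eventually.of_forall fun μ => mul_nonneg (cutf_nonneg _ _) (evl_one_nonneg _)
    have hconv : ∀ μ : FM S, Tendsto (fun k : ℕ => ENNReal.ofReal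
        (cutf (k + 1) (evl 1 μ) * evl 1 μ)) atTop (𝓝 (ENNReal.ofReal ‖evl 1 μ‖)) := by
      intro μ
      have hm0 := evl_one_nonneg (μ : FiniteMeasure S)
      apply tendsto_const_nhds.congr'
      obtain ⟨k0, hk0⟩ := exists_nat_ge (evl 1 (μ : FiniteMeasure S))
      filter_upwards [eventually_ge_atTop k0] with k hk
      have h5 : evl 1 (μ : FiniteMeasure S) ≤ (k : ℝ) + 1 := by
        have : (k0 : ℝ) ≤ k := by exact_mod_cast hk
        linarith
      rw [cutf_eq_one h5, one_mul, Real.norm_eq_abs, abs_of_nonneg hm0]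
    have hfatou := lintegral_liminf_le (μ := Q) (u := atTop) (f := fun (k : ℕ) (μ : FM S) => ENNReal.ofReal
        (cutf (k + 1) (evl 1 μ) * evl 1 μ)) (fun k =>
          ((((continuous_cutf _).comp (continuous_evl_FM 1)).mul
            (continuous_evl_FM 1)).measurable).ennreal_ofReal)
    have h6 : ∫⁻ μ : FM S, ENNReal.ofReal ‖evl 1 μ‖ ∂Q ≤ ENNReal.ofReal 1 := by
      calc ∫⁻ μ : FM S, ENNReal.ofReal ‖evl 1 μ‖ ∂Q
          = ∫⁻ μ : FM S, liminf (fun k : ℕ => ENNReal.ofReal
            (cutf (k + 1) (evl 1 μ) * evl 1 μ)) atTop ∂Q := by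
            refine lintegral_congr fun μ => ?_
            rw [(hconv μ).liminf_eq]
        _ ≤ liminf (fun k : ℕ => ∫⁻ μ : FM S, ENNReal.ofReal
            (cutf (k + 1) (evl 1 μ) * evl 1 μ) ∂Q) atTop := hfatou
        _ ≤ ENNReal.ofReal 1 := by
            refine liminf_le_of_le (by isBoundedDefault) fun b hb => ?_
            obtain ⟨k, hk⟩ := hb.exists
            exact hk.trans (hle k)
    exact h6.trans_lt ENNReal.ofReal_lt_top
  have hfi : Integrable (fun μ : FM S => evl f μ) Q := by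
    refine Integrable.mono' (hmass.const_mul ‖f‖) (continuous_evl_FM f).measurable.aestronglyMeasurable
      ?_
    filter_upwards with μ
    rw [evl_one]
    exact abs_evl_le f μ
  refine ⟨hfi, ?_⟩
  have hlim : Tendsto (fun k : ℕ => ∫ μ : FM S, cutf (k + 1) (evl 1 μ) * evl f μ ∂Q) atTop
      (𝓝 (∫ μ : FM S, evl f μ ∂Q)) := by
    refine tendsto_integral_of_dominated_convergence (fun μ : FM S => ‖f‖ * evl 1 μ) ?_
      (hmass.const_mul _) ?_ ?_
    · intro k
      exact (((continuous_cutf _).comp (continuous_evl_FM 1)).mul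
            (continuous_evl_FM f)).measurable.aestronglyMeasurable
    · intro k
      filter_upwards with μ
      rw [norm_mul, Real.norm_eq_abs, Real.norm_eq_abs, abs_of_nonneg (cutf_nonneg _ _)]
      have h1 := abs_evl_le f μ
      rw [← evl_one] at h1
      calc cutf (k + 1) (evl 1 μ) * |evl f μ| ≤ 1 * (‖f‖ * evl 1 μ) :=
            mul_le_mul (cutf_le_one _ _) h1 (abs_nonneg _) zero_le_one
        _ = ‖f‖ * evl 1 μ := one_mul _
    · filter_upwards with μ
      apply tendsto_const_nhds.congr'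
      obtain ⟨k0, hk0⟩ := exists_nat_ge (evl 1 (μ : FiniteMeasure S))
      filter_upwards [eventually_ge_atTop k0] with k hk
      have h5 : evl 1 (μ : FiniteMeasure S) ≤ (k : ℝ) + 1 := by
        have : (k0 : ℝ) ≤ k := by exact_mod_cast hk
        linarith
      rw [cutf_eq_one h5, one_mul]
  have hlim2 : Tendsto (fun k : ℕ => ∫ μ : FM S, cutf (k + 1) (evl 1 μ) * evl f μ ∂Q) atTop
      (𝓝 (∫ x, f x ∂ν)) := by
    rw [tendsto_iff_norm_sub_tendsto_zero]
    have h7 : Tendsto (fun k : ℕ => ‖f‖ * C / ((k : ℝ) + 1)) atTop (𝓝 0) := by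
      apply Tendsto.div_atTop tendsto_const_nhds
      exact tendsto_atTop_add_const_right _ _ tendsto_natCast_atTop_atTop
    refine squeeze_zero (fun _ => norm_nonneg _) (fun k => ?_) h7
    exact hR ((k : ℝ) + 1) (by positivity)
  exact tendsto_nhds_unique hlim hlim2

end Pool.Agent.helper84.SG
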