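import Mathlib

/-!
# Common definitions for the spherical ensemble project (MP_55470d_pr)

`cg` is the standard complex Gaussian law, `pen n` the law of a pair `(A, B)` of independent
`n × n` matrices with i.i.d. standard complex Gaussian entries, and
`pf (A, B) (α, β) = det (α B - β A)`.
-/

set_option autoImplicit false
open MeasureTheory ProbabilityTheory Filter Topology
open scoped NNReal ENNReal

namespace Pool.Agent.helper84.SG

/-- the standard complex Gaussian law -/
noncomputable def cg : Measure ℂ :=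
  ((gaussianReal 0 (1 / 2)).prod (gaussianReal 0 (1 / 2))).map
    (fun p : ℝ × ℝ => (p.1 : ℂ) + (p.2 : ℂ) * Complex.I)

lemma measurable_toC : Measurable (fun p : ℝ × ℝ => (p.1 : ℂ) + (p.2 : ℂ) * Complex.I) := by
  fun_prop

instance : IsProbabilityMeasure cg := by
  unfold cg
  exact Measure.isProbabilityMeasure_map measurable_toC.aemeasurable

/-- `m × n` arrays with i.i.d. standard complex Gaussian entries -/
noncomputable def gin (m n : ℕ) : Measure (Fin m → Fin n → ℂ) :=
  Measure.pi fun _ => Measure.pi fun _ => cg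

instance (m n : ℕ) : IsProbabilityMeasure (gin m n) := by
  unfold gin; infer_instance

/-- the law of the pair `(A, B)` of independent Gaussian matrices -/
noncomputable def pen (n : ℕ) : Measure ((Fin n → Fin n → ℂ) × (Fin n → Fin n → ℂ)) :=
  (gin n n).prod (gin n n)

instance (n : ℕ) : IsProbabilityMeasure (pen n) := by
  unfold pen; infer_instance

/-- `det (α B - β A)` for `M = (A, B)` and `e = (α, β)` -/
noncomputable def pf {n : ℕ} (M : (Fin n → Fin n → ℂ) × (Fin n → Fin n → ℂ)) (e : ℂ × ℂ) : ℂ :=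
  (e.1 • Matrix.of M.2 - e.2 • Matrix.of M.1).det

/-- unit vectors of `ℂ²` -/
def Unit2 (e : ℂ × ℂ) : Prop := ‖e.1‖ ^ 2 + ‖e.2‖ ^ 2 = 1

/-- `|⟨e, e'⟩|²` -/
noncomputable def ip2 (e e' : ℂ × ℂ) : ℝ :=
  ‖e.1 * (starRingEnd ℂ) e'.1 + e.2 * (starRingEnd ℂ) e'.2‖ ^ 2

/-- the polynomial `det (X B - A)` of the pencil `(A, B)` -/
noncomputable def ppoly {n : ℕ} (M : (Fin n → Fin n → ℂ) × (Fin n → Fin n → ℂ)) :
    Polynomial ℂ :=
  ((Polynomial.X : Polynomial ℂ) • (Matrix.of M.2).map Polynomial.C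
    - (Matrix.of M.1).map Polynomial.C).det

/-- the polynomial `∏ (X b_k - a_k)` of a family of vectors `v_k = (a_k, b_k)` -/
noncomputable def vpoly {n : ℕ} (v : Fin n → ℂ × ℂ) : Polynomial ℂ :=
  ∏ k, (Polynomial.C (v k).2 * Polynomial.X - Polynomial.C (v k).1)

/-- the vector of the coefficients of degree `0, ..., n` -/
noncomputable def pcoef (n : ℕ) (P : Polynomial ℂ) : Fin (n + 1) → ℂ := fun k => P.coeff k

/-- the polynomial with a given coefficient vector -/
noncomputable def ofc {n : ℕ} (f : Fin (n + 1) → ℂ) : Polynomial ℂ :=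
  ∑ k, Polynomial.C (f k) * Polynomial.X ^ (k : ℕ)

/-- homogeneous evaluation `∑ f_k s^k t^(n-k)` at `e = (s, t)` -/
noncomputable def hev {n : ℕ} (f : Fin (n + 1) → ℂ) (e : ℂ × ℂ) : ℂ :=
  ∑ k, f k * e.1 ^ (k : ℕ) * e.2 ^ (n - (k : ℕ))

/-- `∏_{i<j} |a_i b_j - a_j b_i|²` -/
noncomputable def vand {n : ℕ} (v : Fin n → ℂ × ℂ) : ℝ :=
  ∏ i, ∏ j ∈ Finset.Ioi i, ‖(v i).1 * (v j).2 - (v j).1 * (v i).2‖ ^ 2

/-- `n` independent standard Gaussian vectors of `ℂ²` -/
noncomputable def ens (n : ℕ) : Measure (Fin n → ℂ × ℂ) :=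
  Measure.pi fun _ => cg.prod cg

instance (n : ℕ) : IsProbabilityMeasure (ens n) := by
  unfold ens; infer_instance

/-- the `W` functional: `|leading coefficient| ∏ √(1 + |root|²)` -/
noncomputable def Wc {n : ℕ} (f : Fin (n + 1) → ℂ) : ℝ :=
  ‖(ofc f).leadingCoeff‖ * (((ofc f).roots.map fun z => Real.sqrt (1 + ‖z‖ ^ 2))).prod

end Pool.Agent.helper84.SG
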