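import Mathlib
import Pool.Agent.helper84.SG.Defs

/-!
# Definitions used by the modules A, B, C (MP_55470d_pr)
-/

set_option autoImplicit false
open MeasureTheory ProbabilityTheory Filter Topology
open scoped NNReal ENNReal ComplexConjugate

namespace Pool.Agent.helper84.SG

/-- put the column `c` in front of the columns `P` -/
def mk {N : ℕ} (c : Fin (N + 1) → ℂ) (P : Fin (N + 1) → Fin N → ℂ) :
    Fin (N + 1) → Fin (N + 1) → ℂ := fun i => Fin.cons (c i) (P i)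

/-- `[t^k] (1-t)^h = (-h)_k / k!` -/
noncomputable def cc (h : ℝ) (k : ℕ) : ℝ := ∏ i ∈ Finset.range k, (((i : ℝ) - h) / ((i : ℝ) + 1))

/-- `N_ij = ∑_{k ≥ i, j} r^{2k-i-j} (n-i+h)_{k-j}/(k-j)! (i+h+1)_{k-i}/(k-i)!` -/
noncomputable def Nmat (n : ℕ) (h r : ℝ) : Matrix (Fin n) (Fin n) ℝ := fun i j =>
  ∑' k : ℕ, if (i : ℕ) ≤ k ∧ (j : ℕ) ≤ k then
    r ^ ((k - i) + (k - j)) * cc (-((n : ℝ) - i + h)) (k - j) * cc (-((i : ℝ) + h + 1)) (k - i)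
    else 0

/-- Toeplitz determinant `D_n(ξ,h)`, `r² = ξ` -/
noncomputable def Dtoep (n : ℕ) (h r : ℝ) : ℝ :=
  (Matrix.of fun i j : Fin n => ∑' k : ℕ, if (i : ℕ) ≤ k ∧ (j : ℕ) ≤ k then
    r ^ ((k - i) + (k - j)) * cc h (k - i) * cc h (k - j) else 0).det

/-- Gram determinant of the first `k` columns of `α B - β A` -/
noncomputable def gram {n : ℕ} (k : ℕ) (hk : k ≤ n)
    (M : (Fin n → Fin n → ℂ) × (Fin n → Fin n → ℂ)) (e : ℂ × ℂ) : ℝ :=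
  ((((e.1 • Matrix.of M.2 - e.2 • Matrix.of M.1).submatrix id (Fin.castLE hk)).conjTranspose *
    ((e.1 • Matrix.of M.2 - e.2 • Matrix.of M.1).submatrix id (Fin.castLE hk))).det).re

/-- `∏_{j<k} Γ(n-j+s)/Γ(n-j)` -/
noncomputable def nrm (n k : ℕ) (s : ℝ) : ℝ :=
  ∏ j ∈ Finset.range k, (Real.Gamma ((n : ℝ) - j + s) / Real.Gamma ((n : ℝ) - j))

/-- normalised field -/
noncomputable def Yf {n : ℕ} (h : ℝ) (k : ℕ) (hk : k ≤ n)
    (M : (Fin n → Fin n → ℂ) × (Fin n → Fin n → ℂ)) (e : ℂ × ℂ) : ℝ :=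
  gram k hk M e ^ h / nrm n k h

end Pool.Agent.helper84.SG
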