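import Mathlib
import Pool.Agent.helper84.SG.Defs2

/-!
# The sphere, the stereographic projection and the spherical ensemble Green field (MP_55470d_pr)
-/

set_option autoImplicit false
open MeasureTheory ProbabilityTheory Filter Topology
open scoped NNReal ENNReal

namespace Pool.Agent.helper84.SG

/-- Euclidean space `ℝ³` -/
abbrev E3 : Type := EuclideanSpace ℝ (Fin 3)

/-- the unit sphere of `ℝ³` -/
abbrev S2 : Type := Metric.sphere (0 : E3) 1

instance : Nonempty S2 := ⟨⟨EuclideanSpace.single 2 1, by simp⟩⟩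

/-- the uniform probability measure on the sphere: normalised surface measure -/
noncomputable def nu : Measure S2 :=
  ((volume : Measure E3).toSphere Set.univ)⁻¹ • (volume : Measure E3).toSphere

/-- the stereographic projection from `e₃ = (0, 0, 1)` -/
noncomputable def ster (x : S2) : OnePoint ℂ :=
  if x.1 2 = 1 then OnePoint.infty
  else ((((x.1 0 : ℂ) + (x.1 1 : ℂ) * Complex.I) / (1 - (x.1 2 : ℂ)) : ℂ) : OnePoint ℂ)

/-- the inverse of the stereographic projection -/
noncomputable def sterInv : OnePoint ℂ → S2 := Function.invFun ster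

/-- the Green function of the sphere -/
noncomputable def gfun (x y : S2) : ℝ := Real.log (‖(x : E3) - (y : E3)‖ / 2)

/-- `L_n(g_x)`: the sum of the Green function over the eigenvalues of `A B⁻¹`, `M = (A, B)` -/
noncomputable def Ln {n : ℕ} (M : (Fin n → Fin n → ℂ) × (Fin n → Fin n → ℂ)) (x : S2) : ℝ :=
  ((Matrix.of M.1 * (Matrix.of M.2)⁻¹).charpoly.roots.map fun z : ℂ =>
    gfun x (sterInv (z : OnePoint ℂ))).sum

/-- the unit vector of `ℂ²` above the point `x` of the sphere -/
noncomputable def ev (x : S2) : ℂ × ℂ :=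
  if x.1 2 = 1 then (1, 0)
  else (((x.1 0 : ℂ) + (x.1 1 : ℂ) * Complex.I) / ((Real.sqrt (2 * (1 - x.1 2)) : ℝ) : ℂ),
    ((Real.sqrt ((1 - x.1 2) / 2) : ℝ) : ℂ))

end Pool.Agent.helper84.SG
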