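import Mathlib
import Pool.Agent.helper84.SG.Sphere

/-!
# Gamma ratios and the second moment of the truncated field (MP_55470d_pr, module D)
-/

set_option autoImplicit false
open MeasureTheory ProbabilityTheory Filter Topology
open scoped NNReal ENNReal

namespace Pool.Agent.helper84.SG

lemma gamma_add_le {x s : ℝ} (hx : 0 < x) (hs0 : 0 ≤ s) (hs1 : s ≤ 1) :
    Real.Gamma (x + s) ≤ Real.Gamma x * x ^ s := by
  rcases hs0.eq_or_lt with rfl | hs0
  · simp
  rcases hs1.eq_or_lt with rfl | hs1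
  · rw [Real.Gamma_add_one hx.ne', Real.rpow_one, mul_comm]
  have h1 := Real.Gamma_mul_add_mul_le_rpow_Gamma_mul_rpow_Gamma hx (show 0 < x + 1 by linarith)
    (show 0 < 1 - s by linarith) hs0 (by ring)
  have h2 : (1 - s) * x + s * (x + 1) = x + s := by ring
  rw [h2] at h1
  refine h1.trans (le_of_eq ?_)
  have hG : 0 < Real.Gamma x := Real.Gamma_pos_of_pos hx
  rw [Real.Gamma_add_one hx.ne', Real.mul_rpow hx.le hG.le, mul_comm (x ^ s), ← mul_assoc,
    ← Real.rpow_add hG]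
  norm_num

lemma gamma_lower {x s : ℝ} (hx : 0 < x) (hs0 : 0 ≤ s) (hs1 : s ≤ 1) :
    x * Real.Gamma x ≤ Real.Gamma (x + s) * (x + s) ^ (1 - s) := by
  have h1 := gamma_add_le (x := x + s) (s := 1 - s) (by linarith) (by linarith) (by linarith)
  have h2 : x + s + (1 - s) = x + 1 := by ring
  rwa [h2, Real.Gamma_add_one hx.ne'] at h1

lemma gamma_ratio {x h : ℝ} (hx : 1 ≤ x) (h0 : 0 < h) (h1 : h < 1) :
    Real.Gamma (x + 2 * h) * Real.Gamma x ≤ ((x + 1) / x) ^ 2 * Real.Gamma (x + h) ^ 2 := by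
  have hx0 : 0 < x := by linarith
  have hG : 0 < Real.Gamma x := Real.Gamma_pos_of_pos hx0
  have hGh : 0 < Real.Gamma (x + h) := Real.Gamma_pos_of_pos (by linarith)
  have hlow := gamma_lower hx0 h0.le h1.le
  have hsq : (x * Real.Gamma x) ^ 2 ≤ Real.Gamma (x + h) ^ 2 * (x + h) ^ (2 - 2 * h) := by
    have h3 : (x * Real.Gamma x) ^ 2 ≤ (Real.Gamma (x + h) * (x + h) ^ (1 - h)) ^ 2 := by
      gcongr
    refine h3.trans (le_of_eq ?_)
    rw [mul_pow, ← Real.rpow_natCast ((x + h) ^ (1 - h)), ← Real.rpow_mul (by linarith)]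
    congr 2
    push_cast; ring
  have hxh : (x + h) ^ (2 - 2 * h) ≤ (x + 1) ^ (2 - 2 * h) :=
    Real.rpow_le_rpow (by linarith) (by linarith) (by linarith)
  rcases le_or_gt (2 * h) 1 with h2 | h2
  · have h3 := gamma_add_le hx0 (by linarith : 0 ≤ 2 * h) h2
    calc Real.Gamma (x + 2 * h) * Real.Gamma x ≤ (Real.Gamma x * x ^ (2 * h)) * Real.Gamma x := by
          gcongr
      _ = (x * Real.Gamma x) ^ 2 * (x ^ (2 * h) / x ^ 2) := by
          field_simp
      _ ≤ (Real.Gamma (x + h) ^ 2 * (x + 1) ^ (2 - 2 * h)) * (x ^ (2 * h) / x ^ 2) := by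
          have := hsq.trans (mul_le_mul_of_nonneg_left hxh (sq_nonneg _))
          gcongr
      _ = ((x + 1) ^ (2 - 2 * h) * (x ^ (2 * h) / x ^ 2)) * Real.Gamma (x + h) ^ 2 := by ring
      _ ≤ ((x + 1) / x) ^ 2 * Real.Gamma (x + h) ^ 2 := by
          refine mul_le_mul_of_nonneg_right ?_ (sq_nonneg _)
          rw [div_pow, mul_div_assoc', div_le_div_iff_of_pos_right (by positivity)]
          calc (x + 1) ^ (2 - 2 * h) * x ^ (2 * h) ≤ (x + 1) ^ (2 - 2 * h) * (x + 1) ^ (2 * h) := by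
                refine mul_le_mul_of_nonneg_left ?_ (by positivity)
                exact Real.rpow_le_rpow hx0.le (by linarith) (by linarith)
            _ = (x + 1) ^ 2 := by
                rw [← Real.rpow_add (by linarith), ← Real.rpow_natCast]
                congr 1
                push_cast; ring
  · have h3 := gamma_add_le (x := x + 1) (s := 2 * h - 1) (by linarith) (by linarith) (by linarith)
    have h4 : x + 1 + (2 * h - 1) = x + 2 * h := by ring
    rw [h4, Real.Gamma_add_one hx0.ne'] at h3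
    calc Real.Gamma (x + 2 * h) * Real.Gamma x ≤
          (x * Real.Gamma x * (x + 1) ^ (2 * h - 1)) * Real.Gamma x := by gcongr
      _ = (x * Real.Gamma x) ^ 2 * ((x + 1) ^ (2 * h - 1) / x) := by
          field_simp
      _ ≤ (Real.Gamma (x + h) ^ 2 * (x + 1) ^ (2 - 2 * h)) * ((x + 1) ^ (2 * h - 1) / x) := by
          have := hsq.trans (mul_le_mul_of_nonneg_left hxh (sq_nonneg _))
          have h5 : 0 ≤ (x + 1) ^ (2 * h - 1) / x := by positivity
          exact mul_le_mul_of_nonneg_right this h5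
      _ = ((x + 1) ^ (2 - 2 * h) * (x + 1) ^ (2 * h - 1) / x) * Real.Gamma (x + h) ^ 2 := by ring
      _ ≤ ((x + 1) / x) ^ 2 * Real.Gamma (x + h) ^ 2 := by
          refine mul_le_mul_of_nonneg_right ?_ (sq_nonneg _)
          have h6 : (x + 1) ^ (2 - 2 * h) * (x + 1) ^ (2 * h - 1) = x + 1 := by
            rw [← Real.rpow_add (by linarith)]
            norm_num
          rw [h6]
          have h7 : 1 ≤ (x + 1) / x := by rw [le_div_iff₀ hx0]; linarith
          nlinarith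

lemma nrm_pos (n k : ℕ) (hk : k ≤ n) (s : ℝ) (hs : 0 ≤ s) : 0 < nrm n k s := by
  unfold nrm
  refine Finset.prod_pos fun j hj => ?_
  have hj' : j < k := Finset.mem_range.1 hj
  have h1 : (j : ℝ) + 1 ≤ n := by exact_mod_cast (by omega : j + 1 ≤ n)
  exact div_pos (Real.Gamma_pos_of_pos (by linarith)) (Real.Gamma_pos_of_pos (by linarith))

/-- telescoping bound -/
lemma nrm_ratio {n k : ℕ} (hk : k ≤ n) {h : ℝ} (h0 : 0 < h) (h1 : h < 1) :
    nrm n k (2 * h) ≤ (((n : ℝ) + 1) / ((n : ℝ) - k + 1)) ^ 2 * nrm n k h ^ 2 := by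
  induction k with
  | zero =>
    simp only [nrm, Finset.range_zero, Finset.prod_empty, Nat.cast_zero, sub_zero, one_pow, mul_one]
    rw [div_self (by positivity)]; norm_num
  | succ k ih =>
    have ih' := ih (by omega)
    have hkn : (k : ℝ) + 1 ≤ n := by exact_mod_cast hk
    unfold nrm at ih' ⊢
    rw [Finset.prod_range_succ, Finset.prod_range_succ]
    have hx : (1 : ℝ) ≤ (n : ℝ) - k := by linarith
    have hx0 : (0 : ℝ) < (n : ℝ) - k := by linarith
    have hr := gamma_ratio hx h0 h1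
    have hG : 0 < Real.Gamma ((n : ℝ) - k) := Real.Gamma_pos_of_pos hx0
    have hr' : Real.Gamma ((n : ℝ) - k + 2 * h) / Real.Gamma ((n : ℝ) - k) ≤
        (((n : ℝ) - k + 1) / ((n : ℝ) - k)) ^ 2 *
        (Real.Gamma ((n : ℝ) - k + h) / Real.Gamma ((n : ℝ) - k)) ^ 2 := by
      rw [div_pow (Real.Gamma ((n : ℝ) - k + h)), mul_div_assoc', div_le_div_iff₀ hG (by positivity)]
      have := mul_le_mul_of_nonneg_right hr hG.le
      nlinarith
    refine (mul_le_mul ih' hr' (by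
      exact div_nonneg (Real.Gamma_nonneg_of_nonneg (by linarith)) hG.le) (by positivity)).trans
      (le_of_eq ?_)
    have e1 : ((n : ℝ) - (k + 1 : ℕ) + 1) = (n : ℝ) - k := by push_cast; ring
    rw [e1]
    have h3 : (n : ℝ) - k + 1 ≠ 0 := by linarith
    field_simp

lemma nrm_ratio_floor {n : ℕ} {τ : ℝ} (hτ : 0 < τ) (hτ1 : τ < 1) (hk : ⌊τ * n⌋₊ ≤ n) {h : ℝ}
    (h0 : 0 < h) (h1 : h < 1) :
    nrm n ⌊τ * n⌋₊ (2 * h) / nrm n ⌊τ * n⌋₊ h ^ 2 ≤ (1 / (1 - τ)) ^ 2 := by
  have hp := nrm_pos n ⌊τ * n⌋₊ hk h h0.le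
  rw [div_le_iff₀ (by positivity)]
  refine (nrm_ratio hk h0 h1).trans ?_
  refine mul_le_mul_of_nonneg_right ?_ (sq_nonneg _)
  have h2 : (⌊τ * n⌋₊ : ℝ) ≤ τ * n := Nat.floor_le (by positivity)
  have h3 : 0 < (n : ℝ) - ⌊τ * n⌋₊ + 1 := by
    have : (⌊τ * n⌋₊ : ℝ) ≤ n := by exact_mod_cast hk
    linarith
  have hn : (0 : ℝ) ≤ n := Nat.cast_nonneg n
  refine pow_le_pow_left₀ (by positivity) ?_ 2
  rw [div_le_div_iff₀ h3 (by linarith)]
  nlinarith

end Pool.Agent.helper84.SG
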