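import Mathlib
import Pool.Agent.helper84.SG.Sphere
import Pool.Agent.helper10.SG.TwoPt
import Pool.Agent.helper10.SG.GammaLim
import Pool.Agent.helper10.SG.Limit
import Pool.Agent.helper13.SGC.CMain
import Pool.Agent.helper13.SGC.CMom
import Pool.Agent.helper40.SG.W4
import Pool.Agent.helper78.SG.E3

/-!
# Collection of the results of the modules A, B, C, E (MP_55470d_pr)
-/

set_option autoImplicit false
open MeasureTheory ProbabilityTheory Filter Topology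
open scoped NNReal ENNReal ComplexConjugate

namespace Pool.Agent.helper84.SG

theorem pencil_law (n : ℕ) (Ψ : (Fin (n + 1) → ℂ) → ℝ≥0∞) (hΨ : Measurable Ψ)
    (hinv : ∀ (ω : ℂ) (f), ‖ω‖ = 1 → Ψ (ω • f) = Ψ f) :
    (∫⁻ v, ENNReal.ofReal (vand v) ∂(ens n)) * ∫⁻ M, Ψ (pcoef n (ppoly M)) ∂(pen n) =
      ∫⁻ v, Ψ (pcoef n (vpoly v)) * ENNReal.ofReal (vand v) ∂(ens n) :=
  Pool.Agent.helper10.SG.pencil_law n Ψ hΨ hinv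

theorem measurable_Wc (n : ℕ) : Measurable (Wc : (Fin (n + 1) → ℂ) → ℝ) :=
  Pool.Agent.helper40.SG.measurable_Wc n

theorem W_indep (n : ℕ) (g : ℝ → ℝ≥0∞) (hg : Measurable g) (Ψ : (Fin (n + 1) → ℂ) → ℝ≥0∞)
    (hΨ : Measurable Ψ) (hinv : ∀ (c : ℂ) (f), c ≠ 0 → Ψ (c • f) = Ψ f) :
    ∫⁻ M, g (Wc (pcoef n (ppoly M))) * Ψ (pcoef n (ppoly M)) ∂(pen n) =
      (∫⁻ M, g (Wc (pcoef n (ppoly M))) ∂(pen n)) * ∫⁻ M, Ψ (pcoef n (ppoly M)) ∂(pen n) :=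
  Pool.Agent.helper40.SG.W_indep_of (pencil_law n) g hg Ψ hΨ hinv

theorem W_mellin (n : ℕ) (ζ : ℂ) (hζ : 0 ≤ ζ.re) :
    Integrable (fun M => ((Wc (pcoef n (ppoly M)) : ℝ) : ℂ) ^ (2 * ζ)) (pen n) ∧
    ∫ M, ((Wc (pcoef n (ppoly M)) : ℝ) : ℂ) ^ (2 * ζ) ∂(pen n) =
      (Complex.Gamma (n + 1 + ζ) / Complex.Gamma (n + 1)) ^ n :=
  Pool.Agent.helper40.SG.W_mellin_of (pencil_law n) ζ hζ

theorem ae_det_ne_zero (n : ℕ) : ∀ᵐ M ∂(pen n), (Matrix.of M.2).det ≠ 0 :=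
  Pool.Agent.helper40.SG.ae_det_ne_zero_of (pencil_law n)

theorem toeplitz_limit (h : ℝ) :
    (∀ n r, 0 ≤ r → r < 1 → 0 ≤ Dtoep n h r ∧ Dtoep n h r ≤ (1 - r ^ 2) ^ (-(h ^ 2))) ∧
    ∀ r, 0 ≤ r → r < 1 → Tendsto (fun n => Dtoep n h r) atTop (𝓝 ((1 - r ^ 2) ^ (-(h ^ 2)))) :=
  Pool.Agent.helper10.SG.toeplitz_limit h

theorem gram_moment {n : ℕ} (k : ℕ) (hk : k ≤ n) (s : ℝ) (hs : 0 ≤ s) (e : ℂ × ℂ) (he : Unit2 e) :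
    Integrable (fun M => gram k hk M e ^ s) (pen n) ∧
      ∫ M, gram k hk M e ^ s ∂(pen n) = nrm n k s :=
  Pool.Agent.helper13.SGC.gram_moment k hk s hs e he

theorem Yf_martingale {n : ℕ} (h : ℝ) (hh : 0 < h) (k : ℕ) (hk : k ≤ n) (e e' : ℂ × ℂ)
    (he : Unit2 e) (he' : Unit2 e') :
    ∫ M, Yf h n le_rfl M e * Yf h k hk M e' ∂(pen n) =
      ∫ M, Yf h k hk M e * Yf h k hk M e' ∂(pen n) :=
  Pool.Agent.helper13.SGC.Yf_martingale h hh k hk e e' he he'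

theorem Yf_clt (h τ : ℝ) (hh : 0 < h) (hτ : 0 < τ) (hτ1 : τ < 1) (l : ℕ) (e : Fin l → ℂ × ℂ)
    (he : ∀ a, Unit2 (e a)) (θ : Fin l → ℝ) :
    Tendsto (fun n : ℕ => ∫ M, Complex.exp (Complex.I *
        ((∑ a, θ a * Real.log (Yf h ⌊τ * n⌋₊ (Nat.floor_le_of_le (by nlinarith [(Nat.cast_nonneg n : (0:ℝ) ≤ n)])) M (e a)) : ℝ) : ℂ)) ∂(pen n))
      atTop (𝓝 (Complex.exp (((-(h ^ 2 / 2) * ∑ a, ∑ b, θ a * θ b *
          (-Real.log (1 - τ * ip2 (e a) (e b))) : ℝ) : ℂ)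
        - Complex.I * ((h ^ 2 / 2 * ∑ a, θ a * (-Real.log (1 - τ)) : ℝ) : ℂ)))) :=
  Pool.Agent.helper13.SGC.Yf_clt h τ hh hτ hτ1 l e he θ

theorem unit2_ev (x : S2) : Unit2 (ev x) :=
  Pool.Agent.helper78.SG.unit2_ev x

theorem measurable_ev : Measurable ev :=
  Pool.Agent.helper78.SG.measurable_ev 

theorem ip2_ev (x y : S2) : ip2 (ev x) (ev y) = 1 - ‖(x : E3) - (y : E3)‖ ^ 2 / 4 :=
  Pool.Agent.helper78.SG.ip2_ev x y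

theorem bijective_ster : Function.Bijective ster :=
  Pool.Agent.helper78.SG.bijective_ster 

theorem norm_sub_sterInv (x : S2) (w : ℂ) :
    ‖(x : E3) - (sterInv (w : OnePoint ℂ) : E3)‖ / 2 =
      ‖(ev x).1 - (ev x).2 * w‖ / Real.sqrt (1 + ‖w‖ ^ 2) :=
  Pool.Agent.helper78.SG.norm_sub_sterInv x w

theorem isProb_nu : IsProbabilityMeasure nu :=
  Pool.Agent.helper78.SG.isProb_nu 

theorem nu_singleton (x : S2) : nu {x} = 0 :=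
  Pool.Agent.helper78.SG.nu_singleton x

theorem integrable_kernel (s : ℝ) (hs0 : 0 ≤ s) (hs : s < 1) :
    Integrable (fun p : S2 × S2 => (1 - ip2 (ev p.1) (ev p.2)) ^ (-s)) (nu.prod nu) :=
  Pool.Agent.helper78.SG.integrable_kernel s hs0 hs

theorem exp_Ln {n : ℕ} (M : (Fin n → Fin n → ℂ) × (Fin n → Fin n → ℂ))
    (hM : (Matrix.of M.2).det ≠ 0) (x : S2) (hx : pf M (ev x) ≠ 0) :
    Real.exp (Ln M x) = ‖pf M (ev x)‖ / Wc (pcoef n (ppoly M)) :=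
  Pool.Agent.helper78.SG.exp_Ln hM x hx

theorem Wc_pos {n : ℕ} (M : (Fin n → Fin n → ℂ) × (Fin n → Fin n → ℂ))
    (hM : (Matrix.of M.2).det ≠ 0) : 0 < Wc (pcoef n (ppoly M)) :=
  Pool.Agent.helper78.SG.Wc_pos hM

theorem pf_le_Wc {n : ℕ} (M : (Fin n → Fin n → ℂ) × (Fin n → Fin n → ℂ))
    (hM : (Matrix.of M.2).det ≠ 0) (x : S2) : ‖pf M (ev x)‖ ≤ Wc (pcoef n (ppoly M)) :=
  Pool.Agent.helper78.SG.pf_le_Wc hM x

theorem Ln_nonpos {n : ℕ} (M : (Fin n → Fin n → ℂ) × (Fin n → Fin n → ℂ)) (x : S2) :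
    Ln M x ≤ 0 :=
  Pool.Agent.helper78.SG.Ln_nonpos M x

theorem measurable_Ln {n : ℕ} (M : (Fin n → Fin n → ℂ) × (Fin n → Fin n → ℂ)) :
    Measurable (Ln M) :=
  Pool.Agent.helper78.SG.measurable_Ln M

theorem ae_x_pf_ne_zero {n : ℕ} (M : (Fin n → Fin n → ℂ) × (Fin n → Fin n → ℂ))
    (hM : (Matrix.of M.2).det ≠ 0) : ∀ᵐ x ∂nu, pf M (ev x) ≠ 0 :=
  Pool.Agent.helper78.SG.ae_x_pf_ne_zero M hM

theorem ae_M_pf_ne_zero (n : ℕ) (e : ℂ × ℂ) (he : Unit2 e) : ∀ᵐ M ∂(pen n), pf M e ≠ 0 :=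
  Pool.Agent.helper78.SG.ae_M_pf_ne_zero n e he

theorem two_point (n : ℕ) (h : ℝ) (hh : 0 ≤ h) (e e' : ℂ × ℂ) (he : Unit2 e) (he' : Unit2 e')
    (hne : ip2 e e' < 1) :
    Integrable (fun M => ‖pf M e‖ ^ (2 * h) * ‖pf M e'‖ ^ (2 * h)) (pen n) ∧
    ∫ M, ‖pf M e‖ ^ (2 * h) * ‖pf M e'‖ ^ (2 * h) ∂(pen n) =
      nrm n n h ^ 2 * Dtoep n h (Real.sqrt (ip2 e e')) :=
  Pool.Agent.helper10.SG.two_point n h hh e e' he he' hne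

end Pool.Agent.helper84.SG
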