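import Mathlib
import Pool.Agent.helper84.SG.Glue
import Pool.Agent.helper84.SG.Fin1

/-!
# Basic properties of the Gram determinants and of the field (MP_55470d_pr, module D)
-/

set_option autoImplicit false
open MeasureTheory ProbabilityTheory Filter Topology
open scoped NNReal ENNReal ComplexConjugate

namespace Pool.Agent.helper84.SG

lemma gram_nonneg {n : ℕ} (k : ℕ) (hk : k ≤ n)
    (M : (Fin n → Fin n → ℂ) × (Fin n → Fin n → ℂ)) (e : ℂ × ℂ) : 0 ≤ gram k hk M e := by
  unfold gram
  open scoped ComplexOrder in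
  have h := (Matrix.posSemidef_conjTranspose_mul_self
    ((e.1 • Matrix.of M.2 - e.2 • Matrix.of M.1).submatrix id (Fin.castLE hk))).det_nonneg
  exact (Complex.nonneg_iff.1 h).1

lemma gram_full {n : ℕ} (M : (Fin n → Fin n → ℂ) × (Fin n → Fin n → ℂ)) (e : ℂ × ℂ) :
    gram n le_rfl M e = ‖pf M e‖ ^ 2 := by
  unfold gram pf
  have h1 : (e.1 • Matrix.of M.2 - e.2 • Matrix.of M.1).submatrix id
      (Fin.castLE (le_refl n)) = e.1 • Matrix.of M.2 - e.2 • Matrix.of M.1 := by
    ext i j
    simp [Matrix.submatrix_apply]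
  rw [h1, Matrix.det_mul, Matrix.det_conjTranspose]
  rw [← Complex.normSq_eq_norm_sq]
  simp [Complex.normSq_apply]

lemma continuous_gram {n : ℕ} (k : ℕ) (hk : k ≤ n) :
    Continuous (fun p : ((Fin n → Fin n → ℂ) × (Fin n → Fin n → ℂ)) × (ℂ × ℂ) =>
      gram k hk p.1 p.2) := by
  unfold gram
  apply Complex.continuous_re.comp
  apply Continuous.matrix_det
  apply Continuous.matrix_mul
  · apply Continuous.matrix_conjTranspose
    apply Continuous.matrix_submatrix
    refine Continuous.sub ?_ ?_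
    · exact (continuous_fst.comp continuous_snd).smul
        (continuous_snd.comp continuous_fst)
    · exact (continuous_snd.comp continuous_snd).smul
        (continuous_fst.comp continuous_fst)
  · apply Continuous.matrix_submatrix
    refine Continuous.sub ?_ ?_
    · exact (continuous_fst.comp continuous_snd).smul
        (continuous_snd.comp continuous_fst)
    · exact (continuous_snd.comp continuous_snd).smul
        (continuous_fst.comp continuous_fst)

lemma measurable_gram {n : ℕ} (k : ℕ) (hk : k ≤ n) :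
    Measurable (fun p : ((Fin n → Fin n → ℂ) × (Fin n → Fin n → ℂ)) × (ℂ × ℂ) =>
      gram k hk p.1 p.2) := (continuous_gram k hk).measurable

lemma measurable_gram_left {n : ℕ} (k : ℕ) (hk : k ≤ n) (e : ℂ × ℂ) :
    Measurable (fun M : (Fin n → Fin n → ℂ) × (Fin n → Fin n → ℂ) => gram k hk M e) := by
  have h1 : Measurable (fun M : (Fin n → Fin n → ℂ) × (Fin n → Fin n → ℂ) => (M, e)) :=
    measurable_prodMk_right
  have h2 := (measurable_gram k hk).comp h1
  simp only [Function.comp_def] at h2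
  exact h2

lemma measurable_Yf {n : ℕ} (h : ℝ) (k : ℕ) (hk : k ≤ n) :
    Measurable (fun p : ((Fin n → Fin n → ℂ) × (Fin n → Fin n → ℂ)) × (ℂ × ℂ) =>
      Yf h k hk p.1 p.2) := by
  unfold Yf
  exact ((measurable_gram k hk).pow_const h).div_const _

lemma measurable_Yf_left {n : ℕ} (h : ℝ) (k : ℕ) (hk : k ≤ n) (e : ℂ × ℂ) :
    Measurable (fun M : (Fin n → Fin n → ℂ) × (Fin n → Fin n → ℂ) => Yf h k hk M e) := by
  unfold Yf
  exact ((measurable_gram_left k hk e).pow_const h).div_const _

lemma Yf_nonneg {n : ℕ} {h : ℝ} (h0 : 0 ≤ h) (k : ℕ) (hk : k ≤ n)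
    (M : (Fin n → Fin n → ℂ) × (Fin n → Fin n → ℂ)) (e : ℂ × ℂ) : 0 ≤ Yf h k hk M e :=
  div_nonneg (Real.rpow_nonneg (gram_nonneg k hk M e) _) (nrm_pos n k hk h h0).le

/-- second moment -/
lemma Yf_sq {n : ℕ} {h : ℝ} (h0 : 0 < h) (k : ℕ) (hk : k ≤ n) (e : ℂ × ℂ) (he : Unit2 e) :
    Integrable (fun M => Yf h k hk M e ^ 2) (pen n) ∧
      ∫ M, Yf h k hk M e ^ 2 ∂(pen n) = nrm n k (2 * h) / nrm n k h ^ 2 := by
  have h1 : (fun M : (Fin n → Fin n → ℂ) × (Fin n → Fin n → ℂ) => Yf h k hk M e ^ 2) =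
      fun M => gram k hk M e ^ (2 * h) / nrm n k h ^ 2 := by
    funext M
    unfold Yf
    rw [div_pow, ← Real.rpow_natCast (gram k hk M e ^ h), ← Real.rpow_mul (gram_nonneg k hk M e)]
    congr 2
    push_cast; ring
  obtain ⟨h2, h3⟩ := gram_moment k hk (2 * h) (by linarith) e he
  rw [h1]
  exact ⟨h2.div_const _, by rw [integral_div, h3]⟩

/-- first moment -/
lemma Yf_mean {n : ℕ} {h : ℝ} (h0 : 0 ≤ h) (k : ℕ) (hk : k ≤ n) (e : ℂ × ℂ) (he : Unit2 e) :
    Integrable (fun M => Yf h k hk M e) (pen n) ∧ ∫ M, Yf h k hk M e ∂(pen n) = 1 := by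
  obtain ⟨h2, h3⟩ := gram_moment k hk h h0 e he
  unfold Yf
  refine ⟨h2.div_const _, ?_⟩
  rw [integral_div, h3, div_self (nrm_pos n k hk h h0).ne']

lemma integrable_Yf_mul {n : ℕ} {h : ℝ} (h0 : 0 < h) (k k' : ℕ) (hk : k ≤ n) (hk' : k' ≤ n)
    (e e' : ℂ × ℂ) (he : Unit2 e) (he' : Unit2 e') :
    Integrable (fun M => Yf h k hk M e * Yf h k' hk' M e') (pen n) := by
  refine Integrable.mono' ((Yf_sq h0 k hk e he).1.add (Yf_sq h0 k' hk' e' he').1) ?_ ?_
  · exact ((measurable_Yf_left h k hk e).mul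
      (measurable_Yf_left h k' hk' e')).aestronglyMeasurable
  · filter_upwards with M
    have h1 := Yf_nonneg h0.le k hk M e
    have h2 := Yf_nonneg h0.le k' hk' M e'
    rw [Real.norm_eq_abs, abs_of_nonneg (mul_nonneg h1 h2)]
    simp only [Pi.add_apply]
    nlinarith [sq_nonneg (Yf h k hk M e - Yf h k' hk' M e'), sq_nonneg (Yf h k hk M e),
      sq_nonneg (Yf h k' hk' M e')]

lemma continuous_nrm (n k : ℕ) (hk : k ≤ n) : ContinuousWithinAt (nrm n k) (Set.Ici 0) 0 := by
  have : ContinuousAt (nrm n k) 0 := by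
    unfold nrm
    apply tendsto_finsetProd
    intro j hj
    have hj' : j < k := Finset.mem_range.1 hj
    have h1 : (j : ℝ) + 1 ≤ n := by exact_mod_cast (by omega : j + 1 ≤ n)
    apply Tendsto.div_const
    have h2 : ContinuousAt Real.Gamma ((n : ℝ) - j + 0) := by
      apply (Real.differentiableAt_Gamma _).continuousAt
      intro m
      have : (0 : ℝ) ≤ m := Nat.cast_nonneg m
      linarith
    exact h2.tendsto.comp (tendsto_const_nhds.add tendsto_id)
  exact this.continuousWithinAt

/-- the Gram determinants are almost surely positive -/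
lemma gram_pos_ae {n : ℕ} (k : ℕ) (hk : k ≤ n) (e : ℂ × ℂ) (he : Unit2 e) :
    ∀ᵐ M ∂(pen n), 0 < gram k hk M e := by
  -- `E gram^{1/m} → P(gram > 0)`
  let u : ℕ → ℝ := fun m => 1 / ((m : ℝ) + 1)
  have hu0 : ∀ m, 0 < u m := fun m => by positivity
  have hu1 : ∀ m, u m ≤ 1 := fun m => by
    change 1 / ((m : ℝ) + 1) ≤ 1
    rw [div_le_one (by positivity)]
    have : (0 : ℝ) ≤ m := Nat.cast_nonneg m
    linarith
  have hut : Tendsto u atTop (𝓝 0) := tendsto_one_div_add_atTop_nhds_zero_nat
  have hmeas : Measurable fun M : (Fin n → Fin n → ℂ) × (Fin n → Fin n → ℂ) =>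
      gram k hk M e := measurable_gram_left k hk e
  have h1 : Tendsto (fun m => ∫ M, gram k hk M e ^ (u m) ∂(pen n)) atTop
      (𝓝 (∫ M, Set.indicator {M | 0 < gram k hk M e} (fun _ => (1 : ℝ)) M ∂(pen n))) := by
    refine tendsto_integral_of_dominated_convergence (fun M => 1 + gram k hk M e) ?_ ?_ ?_ ?_
    · intro m
      exact (hmeas.pow_const _).aestronglyMeasurable
    · have := (gram_moment k hk 1 zero_le_one e he).1
      simp only [Real.rpow_one] at this
      exact (integrable_const 1).add this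
    · intro m
      filter_upwards with M
      have hg := gram_nonneg k hk M e
      rw [Real.norm_eq_abs, abs_of_nonneg (Real.rpow_nonneg hg _)]
      rcases le_or_gt (gram k hk M e) 1 with h | h
      · have := Real.rpow_le_one hg h (hu0 m).le
        linarith
      · have := Real.rpow_le_rpow_of_exponent_le h.le (hu1 m)
        rw [Real.rpow_one] at this
        linarith
    · filter_upwards with M
      have hg := gram_nonneg k hk M e
      by_cases h : 0 < gram k hk M e
      · rw [Set.indicator_of_mem (show M ∈ {M | 0 < gram k hk M e} from h)]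
        have := (Real.continuous_const_rpow h.ne').tendsto 0
        rw [Real.rpow_zero] at this
        exact this.comp hut
      · rw [Set.indicator_of_notMem (show M ∉ {M | 0 < gram k hk M e} from h)]
        have h0 : gram k hk M e = 0 := le_antisymm (not_lt.1 h) hg
        simp only [h0]
        have : (fun m => (0 : ℝ) ^ (u m)) = fun _ => 0 := by
          funext m
          exact Real.zero_rpow (hu0 m).ne'
        rw [this]
        exact tendsto_const_nhds
  have h2 : Tendsto (fun m => ∫ M, gram k hk M e ^ (u m) ∂(pen n)) atTop (𝓝 1) := by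
    have h3 : (fun m => ∫ M, gram k hk M e ^ (u m) ∂(pen n)) = fun m => nrm n k (u m) := by
      funext m
      exact (gram_moment k hk (u m) (hu0 m).le e he).2
    rw [h3]
    have h4 : nrm n k 0 = 1 := by
      unfold nrm
      refine Finset.prod_eq_one fun j hj => ?_
      have hj' : j < k := Finset.mem_range.1 hj
      have h1 : (j : ℝ) + 1 ≤ n := by exact_mod_cast (by omega : j + 1 ≤ n)
      rw [add_zero, div_self]
      exact (Real.Gamma_pos_of_pos (by linarith)).ne'
    have h5 := (continuous_nrm n k hk).tendsto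
    rw [h4] at h5
    refine h5.comp (tendsto_nhdsWithin_iff.2 ⟨hut, Eventually.of_forall fun m => (hu0 m).le⟩)
  have h3 := tendsto_nhds_unique h1 h2
  have hset : MeasurableSet {M : (Fin n → Fin n → ℂ) × (Fin n → Fin n → ℂ) |
      0 < gram k hk M e} := measurableSet_lt measurable_const hmeas
  rw [integral_indicator_const _ hset, smul_eq_mul, mul_one] at h3
  have h6 : (pen n) {M | 0 < gram k hk M e} = 1 := by
    have h7 : ((pen n) {M | 0 < gram k hk M e}).toReal = 1 := h3
    rwa [ENNReal.toReal_eq_one_iff] at h7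
  exact (prob_compl_eq_zero_iff hset).2 h6

lemma Yf_pos_ae {n : ℕ} {h : ℝ} (h0 : 0 ≤ h) (k : ℕ) (hk : k ≤ n) (e : ℂ × ℂ) (he : Unit2 e) :
    ∀ᵐ M ∂(pen n), 0 < Yf h k hk M e := by
  filter_upwards [gram_pos_ae k hk e he] with M hM
  exact div_pos (Real.rpow_pos_of_pos hM _) (nrm_pos n k hk h h0)

end Pool.Agent.helper84.SG
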