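import Mathlib
import Pool.Agent.helper84.SG.Fin2

/-!
# Consequences of the central limit theorem for the columns (MP_55470d_pr, module D)
-/

set_option autoImplicit false
open MeasureTheory ProbabilityTheory Filter Topology
open scoped NNReal ENNReal ComplexConjugate BoundedContinuousFunction RealInnerProductSpace

namespace Pool.Agent.helper84.SG

/-- weak convergence along a sequence whose characteristic functions converge to a function
continuous at `0` -/
theorem conv_of_charFun_cont {E : Type*} [NormedAddCommGroup E] [InnerProductSpace ℝ E]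
    [FiniteDimensional ℝ E] [MeasurableSpace E] [BorelSpace E]
    (μ : ℕ → ProbabilityMeasure E) (f : E → ℂ) (hf : ContinuousAt f 0)
    (h : ∀ t, Tendsto (fun n => charFun (μ n : Measure E) t) atTop (𝓝 (f t))) (g : E →ᵇ ℝ) :
    ∃ L, Tendsto (fun n => ∫ y, g y ∂(μ n : Measure E)) atTop (𝓝 L) := by
  have ht : IsTightMeasureSet (Set.range fun n => (μ n : Measure E)) :=
    isTightMeasureSet_of_tendsto_charFun hf h
  have hcomp : IsCompact (closure (Set.range μ)) := by
    apply isCompact_closure_of_isTightMeasureSet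
    have h1 : {((ρ : ProbabilityMeasure E) : Measure E) | ρ ∈ Set.range μ} =
        Set.range fun n => (μ n : Measure E) := by
      ext κ
      constructor
      · rintro ⟨_, ⟨n, rfl⟩, rfl⟩; exact ⟨n, rfl⟩
      · rintro ⟨n, rfl⟩; exact ⟨μ n, ⟨n, rfl⟩, rfl⟩
    rw [h1]; exact ht
  obtain ⟨U, hU⟩ : ∃ U : Ultrafilter ℕ, (U : Filter ℕ) ≤ atTop :=
    ⟨Ultrafilter.of atTop, Ultrafilter.of_le atTop⟩
  have hmem : closure (Set.range μ) ∈ U.map μ := by
    rw [Ultrafilter.mem_map]
    have : μ ⁻¹' closure (Set.range μ) = Set.univ := by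
      ext n
      simp only [Set.mem_preimage, Set.mem_univ, iff_true]
      exact subset_closure ⟨n, rfl⟩
    rw [this]; exact Filter.univ_mem
  obtain ⟨μ0, -, hμ0⟩ := hcomp.ultrafilter_le_nhds' (U.map μ) hmem
  have hμ0' : Tendsto μ U (𝓝 μ0) := hμ0
  have hf0 : ∀ t, charFun (μ0 : Measure E) t = f t := by
    intro t
    have h1 := (ProbabilityMeasure.tendsto_iff_forall_integral_rclike_tendsto ℂ).1 hμ0'
      (BoundedContinuousFunction.innerProbChar t)
    simp_rw [← charFun_eq_integral_innerProbChar] at h1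
    exact tendsto_nhds_unique h1 ((h t).mono_left hU)
  have h2 : Tendsto μ atTop (𝓝 μ0) := by
    apply ProbabilityMeasure.tendsto_of_tendsto_charFun
    intro t
    rw [hf0]
    exact h t
  exact ⟨_, (ProbabilityMeasure.tendsto_iff_forall_integral_tendsto.1 h2) g⟩

variable {h τ : ℝ}

lemma floor_le_self {τ : ℝ} (hτ1 : τ < 1) (n : ℕ) : ⌊τ * n⌋₊ ≤ n :=
  Nat.floor_le_of_le (by nlinarith [(Nat.cast_nonneg n : (0 : ℝ) ≤ n)])

/-- H4 -/
theorem clip_conv (hh : 0 < h) (hτ : 0 < τ) (hτ1 : τ < 1) (B : ℝ≥0) (l : ℕ)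
    (e : Fin l → ℂ × ℂ) (he : ∀ a, Unit2 (e a)) :
    ∃ L, Tendsto (fun n : ℕ => ∫ M, ∏ i, min (Yf h ⌊τ * n⌋₊ (floor_le_self hτ1 n) M (e i)) B
      ∂(pen n)) atTop (𝓝 L) := by
  -- the vector of logarithms
  let X : ∀ n : ℕ, ((Fin n → Fin n → ℂ) × (Fin n → Fin n → ℂ)) → EuclideanSpace ℝ (Fin l) :=
    fun n M => WithLp.toLp 2 fun i => Real.log (Yf h ⌊τ * n⌋₊ (floor_le_self hτ1 n) M (e i))
  have hX : ∀ n, Measurable (X n) := by
    intro n
    apply (PiLp.continuous_toLp 2 _).measurable.comp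
    refine measurable_pi_lambda _ fun i => ?_
    exact (measurable_Yf_left h _ _ (e i)).log
  let μ : ℕ → ProbabilityMeasure (EuclideanSpace ℝ (Fin l)) := fun n =>
    ⟨(pen n).map (X n), Measure.isProbabilityMeasure_map (hX n).aemeasurable⟩
  let f : EuclideanSpace ℝ (Fin l) → ℂ := fun θ =>
    Complex.exp (((-(h ^ 2 / 2) * ∑ a, ∑ b, θ a * θ b *
          (-Real.log (1 - τ * ip2 (e a) (e b))) : ℝ) : ℂ)
        - Complex.I * ((h ^ 2 / 2 * ∑ a, θ a * (-Real.log (1 - τ)) : ℝ) : ℂ))
  have hf : Continuous f := by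
    apply Complex.continuous_exp.comp
    apply Continuous.sub
    · apply Complex.continuous_ofReal.comp
      apply Continuous.mul continuous_const
      refine continuous_finsetSum _ fun a _ => continuous_finsetSum _ fun b _ => ?_
      fun_prop
    · apply Continuous.mul continuous_const
      apply Complex.continuous_ofReal.comp
      apply Continuous.mul continuous_const
      refine continuous_finsetSum _ fun a _ => ?_
      fun_prop
  have hchar : ∀ t, Tendsto (fun n => charFun (μ n : Measure _) t) atTop (𝓝 (f t)) := by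
    intro t
    have h1 := Yf_clt h τ hh hτ hτ1 l e he (fun a => t a)
    refine h1.congr fun n => ?_
    change _ = charFun ((pen n).map (X n)) t
    rw [charFun_apply, integral_map (hX n).aemeasurable]
    · refine integral_congr_ae (Eventually.of_forall fun M => ?_)
      simp only
      rw [mul_comm]
      congr 3
    · exact (by fun_prop : Continuous fun x : EuclideanSpace ℝ (Fin l) =>
        Complex.exp ((⟪x, t⟫ : ℝ) * Complex.I)).aestronglyMeasurable
  -- the test function
  have hgc : Continuous fun u : EuclideanSpace ℝ (Fin l) => ∏ i, min (Real.exp (u i)) (B : ℝ) := by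
    refine continuous_finsetProd _ fun i _ => ?_
    fun_prop
  let g : EuclideanSpace ℝ (Fin l) →ᵇ ℝ := BoundedContinuousFunction.ofNormedAddCommGroup
    (fun u => ∏ i, min (Real.exp (u i)) (B : ℝ)) hgc (∏ _i : Fin l, (B : ℝ)) (by
      intro u
      have h0 : 0 ≤ ∏ i, min (Real.exp (u i)) (B : ℝ) :=
        Finset.prod_nonneg fun i _ => le_min (Real.exp_pos _).le B.2
      rw [Real.norm_eq_abs, abs_of_nonneg h0]
      exact Finset.prod_le_prod (fun i _ => le_min (Real.exp_pos _).le B.2)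
        (fun i _ => min_le_right _ _))
  obtain ⟨L, hL⟩ := conv_of_charFun_cont μ f hf.continuousAt hchar g
  refine ⟨L, hL.congr fun n => ?_⟩
  change ∫ y, g y ∂((pen n).map (X n)) = _
  rw [integral_map (hX n).aemeasurable g.continuous.aestronglyMeasurable]
  refine integral_congr_ae ?_
  have hpos : ∀ᵐ M ∂(pen n), ∀ i, 0 < Yf h ⌊τ * n⌋₊ (floor_le_self hτ1 n) M (e i) := by
    rw [ae_all_iff]
    exact fun i => Yf_pos_ae hh.le _ _ (e i) (he i)
  filter_upwards [hpos] with M hM
  change ∏ i, min (Real.exp (Real.log (Yf h ⌊τ * n⌋₊ (floor_le_self hτ1 n) M (e i)))) (B : ℝ) = _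
  refine Finset.prod_congr rfl fun i _ => ?_
  rw [Real.exp_log (hM i)]

lemma ip2_self {e : ℂ × ℂ} (he : Unit2 e) : ip2 e e = 1 := by
  unfold ip2
  unfold Unit2 at he
  have h1 : e.1 * (starRingEnd ℂ) e.1 + e.2 * (starRingEnd ℂ) e.2 = ((1 : ℝ) : ℂ) := by
    rw [Complex.mul_conj, Complex.mul_conj, Complex.normSq_eq_norm_sq, Complex.normSq_eq_norm_sq,
      ← Complex.ofReal_add, he]
  rw [h1]; simp

lemma ip2_comm (e e' : ℂ × ℂ) : ip2 e e' = ip2 e' e := by
  unfold ip2
  congr 1
  rw [← RCLike.norm_conj]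
  congr 1
  simp only [map_add, map_mul, Complex.conj_conj]
  ring

lemma ip2_nonneg (e e' : ℂ × ℂ) : 0 ≤ ip2 e e' := by unfold ip2; positivity

lemma ip2_le_one {e e' : ℂ × ℂ} (he : Unit2 e) (he' : Unit2 e') : ip2 e e' ≤ 1 := by
  unfold ip2
  unfold Unit2 at he he'
  have h1 : ‖e.1 * (starRingEnd ℂ) e'.1 + e.2 * (starRingEnd ℂ) e'.2‖ ≤
      ‖e.1‖ * ‖e'.1‖ + ‖e.2‖ * ‖e'.2‖ := by
    refine (norm_add_le _ _).trans ?_
    rw [norm_mul, norm_mul, RCLike.norm_conj, RCLike.norm_conj]
  have h2 : ‖e.1‖ * ‖e'.1‖ + ‖e.2‖ * ‖e'.2‖ ≤ 1 := by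
    nlinarith [sq_nonneg (‖e.1‖ - ‖e'.1‖), sq_nonneg (‖e.2‖ - ‖e'.2‖)]
  have h3 := h1.trans h2
  have h4 := norm_nonneg (e.1 * (starRingEnd ℂ) e'.1 + e.2 * (starRingEnd ℂ) e'.2)
  nlinarith

/-- H5 -/
theorem lower_conv (hh : 0 < h) (hτ : 0 < τ) (hτ1 : τ < 1) (e e' : ℂ × ℂ)
    (he : Unit2 e) (he' : Unit2 e') :
    Tendsto (fun n : ℕ => min (∫ M, Yf h ⌊τ * n⌋₊ (floor_le_self hτ1 n) M e *
      Yf h ⌊τ * n⌋₊ (floor_le_self hτ1 n) M e' ∂(pen n)) ((1 - τ * ip2 e e') ^ (-(h ^ 2))))
      atTop (𝓝 ((1 - τ * ip2 e e') ^ (-(h ^ 2)))) := by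
  set ξ := ip2 e e' with hξ
  have hξ0 : 0 ≤ ξ := ip2_nonneg _ _
  have hξ1 : ξ ≤ 1 := ip2_le_one he he'
  have hlt : 0 < 1 - τ * ξ := by nlinarith
  set Kt := (1 - τ * ξ) ^ (-(h ^ 2)) with hKt
  -- the sum of the logarithms
  let S : ∀ n : ℕ, ((Fin n → Fin n → ℂ) × (Fin n → Fin n → ℂ)) → ℝ := fun n M =>
    Real.log (Yf h ⌊τ * n⌋₊ (floor_le_self hτ1 n) M e) +
      Real.log (Yf h ⌊τ * n⌋₊ (floor_le_self hτ1 n) M e')
  have hS : ∀ n, Measurable (S n) := fun n =>
    ((measurable_Yf_left h _ _ e).log).add ((measurable_Yf_left h _ _ e').log)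
  let μ : ℕ → ProbabilityMeasure ℝ := fun n =>
    ⟨(pen n).map (S n), Measure.isProbabilityMeasure_map (hS n).aemeasurable⟩
  have hl1 : 0 ≤ -Real.log (1 - τ) := by
    have := Real.log_nonpos (by linarith : (0 : ℝ) ≤ 1 - τ) (by linarith)
    linarith
  have hl2 : 0 ≤ -Real.log (1 - τ * ξ) := by
    have := Real.log_nonpos hlt.le (by nlinarith)
    linarith
  let v : ℝ≥0 := ⟨2 * h ^ 2 * (-Real.log (1 - τ) + -Real.log (1 - τ * ξ)), by positivity⟩
  let m : ℝ := h ^ 2 * Real.log (1 - τ)
  let μ0 : ProbabilityMeasure ℝ := ⟨gaussianReal m v, inferInstance⟩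
  have hconv : Tendsto μ atTop (𝓝 μ0) := by
    apply ProbabilityMeasure.tendsto_of_tendsto_charFun
    intro s
    have h1 := Yf_clt h τ hh hτ hτ1 2 ![e, e'] (by
      intro a; fin_cases a
      · exact he
      · exact he') (fun _ => s)
    have h2 : charFun (μ0 : Measure ℝ) s = Complex.exp (((-(h ^ 2 / 2) * ∑ a : Fin 2, ∑ b : Fin 2,
        s * s * (-Real.log (1 - τ * ip2 (![e, e'] a) (![e, e'] b))) : ℝ) : ℂ)
        - Complex.I * ((h ^ 2 / 2 * ∑ _a : Fin 2, s * (-Real.log (1 - τ)) : ℝ) : ℂ)) := by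
      change charFun (gaussianReal m v) s = _
      rw [charFun_gaussianReal]
      congr 1
      simp only [Fin.sum_univ_two, Matrix.cons_val_zero, Matrix.cons_val_one, Fin.isValue]
      rw [ip2_self he, ip2_self he', ip2_comm e' e, ← hξ, mul_one]
      have hv : ((v : ℝ≥0) : ℝ) = 2 * h ^ 2 * (-Real.log (1 - τ) + -Real.log (1 - τ * ξ)) := rfl
      rw [hv]
      simp only [m]
      push_cast
      ring
    rw [h2]
    refine h1.congr fun n => ?_
    change _ = charFun ((pen n).map (S n)) s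
    rw [charFun_apply_real, integral_map (hS n).aemeasurable]
    · refine integral_congr_ae (Eventually.of_forall fun M => ?_)
      simp only [Fin.sum_univ_two, Matrix.cons_val_zero, Matrix.cons_val_one, Fin.isValue, S]
      congr 1
      push_cast
      ring
    · exact (by fun_prop : Continuous fun x : ℝ =>
        Complex.exp ((s : ℂ) * x * Complex.I)).aestronglyMeasurable
  -- the mean of the exponential under the limit
  have hmgf : ∫ u, Real.exp u ∂(gaussianReal m v) = Kt := by
    have h1 := congrFun (mgf_id_gaussianReal (μ := m) (v := v)) 1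
    have h2 : ∫ u, Real.exp u ∂(gaussianReal m v) = mgf id (gaussianReal m v) 1 := by
      unfold mgf; simp
    rw [h2, h1, hKt, Real.rpow_def_of_pos hlt]
    congr 1
    have hv : ((v : ℝ≥0) : ℝ) = 2 * h ^ 2 * (-Real.log (1 - τ) + -Real.log (1 - τ * ξ)) := rfl
    rw [hv]
    simp only [m]
    ring
  have hexpint : Integrable (fun u : ℝ => Real.exp u) (gaussianReal m v) := by
    have := integrable_exp_mul_gaussianReal (μ := m) (v := v) 1
    simpa using this
  have htrunc : Tendsto (fun B : ℕ => ∫ u, min (Real.exp u) (B : ℝ) ∂(gaussianReal m v)) atTop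
      (𝓝 Kt) := by
    rw [← hmgf]
    refine tendsto_integral_of_dominated_convergence (fun u => Real.exp u) ?_ hexpint ?_ ?_
    · intro B
      exact (by fun_prop : Continuous fun u : ℝ => min (Real.exp u) (B : ℝ)).aestronglyMeasurable
    · intro B
      filter_upwards with u
      rw [Real.norm_eq_abs, abs_of_nonneg (le_min (Real.exp_pos _).le (Nat.cast_nonneg _))]
      exact min_le_left _ _
    · filter_upwards with u
      apply tendsto_const_nhds.congr'
      obtain ⟨B0, hB0⟩ := exists_nat_ge (Real.exp u)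
      filter_upwards [eventually_ge_atTop B0] with B hB
      have : (B0 : ℝ) ≤ B := by exact_mod_cast hB
      rw [min_eq_left (hB0.trans this)]
  -- conclusion
  rw [tendsto_order]
  constructor
  · intro a ha
    obtain ⟨B, hB⟩ := ((tendsto_order.1 htrunc).1 a ha).exists
    have hgc : Continuous fun u : ℝ => min (Real.exp u) (B : ℝ) := by fun_prop
    let g : ℝ →ᵇ ℝ := BoundedContinuousFunction.ofNormedAddCommGroup
      (fun u => min (Real.exp u) (B : ℝ)) hgc B (by
        intro u
        rw [Real.norm_eq_abs, abs_of_nonneg (le_min (Real.exp_pos _).le (Nat.cast_nonneg _))]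
        exact min_le_right _ _)
    have h3 := (ProbabilityMeasure.tendsto_iff_forall_integral_tendsto.1 hconv) g
    have h4 : a < ∫ u, g u ∂(μ0 : Measure ℝ) := hB
    filter_upwards [(tendsto_order.1 h3).1 a h4] with n hn
    refine lt_min ?_ ha
    refine hn.trans_le ?_
    change ∫ y, g y ∂((pen n).map (S n)) ≤ _
    rw [integral_map (hS n).aemeasurable g.continuous.aestronglyMeasurable]
    refine integral_mono_ae ?_ (integrable_Yf_mul hh _ _ _ _ e e' he he') ?_
    · exact Integrable.of_bound (g.continuous.measurable.comp (hS n)).aestronglyMeasurable ‖g‖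
        (Eventually.of_forall fun M => g.norm_coe_le_norm _)
    · filter_upwards [Yf_pos_ae hh.le ⌊τ * n⌋₊ (floor_le_self hτ1 n) e he,
        Yf_pos_ae hh.le ⌊τ * n⌋₊ (floor_le_self hτ1 n) e' he'] with M h5 h6
      change min (Real.exp (S n M)) (B : ℝ) ≤ _
      refine (min_le_left _ _).trans ?_
      simp only [S]
      rw [Real.exp_add, Real.exp_log h5, Real.exp_log h6]
  · intro a ha
    exact Eventually.of_forall fun n => (min_le_right _ _).trans_lt ha

end Pool.Agent.helper84.SG
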