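import Mathlib
import Pool.Agent.helper84.SG.Fin3
import Pool.Agent.helper84.SG.Exist

/-!
# The field of the spherical ensemble satisfies the hypotheses of the approximation scheme
(MP_55470d_pr, module D)
-/

set_option autoImplicit false
open MeasureTheory ProbabilityTheory Filter Topology
open scoped NNReal ENNReal ComplexConjugate BoundedContinuousFunction

namespace Pool.Agent.helper84.SG

/-- pairs of matrices -/
abbrev Mat2 (n : ℕ) : Type := (Fin n → Fin n → ℂ) × (Fin n → Fin n → ℂ)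

instance : IsProbabilityMeasure nu := isProb_nu

/-- the field -/
noncomputable def Yn (h : ℝ) (n : ℕ) (M : Mat2 n) (x : S2) : ℝ := Yf h n le_rfl M (ev x)

/-- the levels `τ_j` -/
noncomputable def tau (j : ℕ) : ℝ := 1 - 1 / ((j : ℝ) + 2)

lemma tau_pos (j : ℕ) : 0 < tau j := by
  unfold tau
  have h1 : (0 : ℝ) ≤ j := Nat.cast_nonneg j
  have : 1 / ((j : ℝ) + 2) < 1 := by rw [div_lt_one (by linarith)]; linarith
  linarith

lemma tau_lt (j : ℕ) : tau j < 1 := by
  unfold tau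
  have : (0 : ℝ) < 1 / ((j : ℝ) + 2) := by positivity
  linarith

lemma tendsto_tau : Tendsto tau atTop (𝓝 1) := by
  unfold tau
  have h1 : Tendsto (fun j : ℕ => 1 / ((j : ℝ) + 2)) atTop (𝓝 0) := by
    apply Tendsto.div_atTop tendsto_const_nhds
    exact tendsto_atTop_add_const_right _ _ tendsto_natCast_atTop_atTop
  simpa using tendsto_const_nhds.sub h1

/-- the truncated field -/
noncomputable def Ytn (h : ℝ) (j n : ℕ) (M : Mat2 n) (x : S2) : ℝ :=
  Yf h ⌊tau j * n⌋₊ (floor_le_self (tau_lt j) n) M (ev x)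

/-- the limiting kernel -/
noncomputable def Kn (h : ℝ) (p : S2 × S2) : ℝ := (1 - ip2 (ev p.1) (ev p.2)) ^ (-(h ^ 2))

/-- the kernel at level `τ_j` -/
noncomputable def Ktn (h : ℝ) (j : ℕ) (p : S2 × S2) : ℝ :=
  (1 - tau j * ip2 (ev p.1) (ev p.2)) ^ (-(h ^ 2))

lemma measurable_ip2_ev : Measurable fun p : S2 × S2 => ip2 (ev p.1) (ev p.2) := by
  have h1 : (fun p : S2 × S2 => ip2 (ev p.1) (ev p.2)) =
      fun p : S2 × S2 => 1 - ‖(p.1 : E3) - (p.2 : E3)‖ ^ 2 / 4 := by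
    funext p
    exact ip2_ev p.1 p.2
  rw [h1]
  exact (by fun_prop : Continuous fun p : S2 × S2 => 1 - ‖(p.1 : E3) - (p.2 : E3)‖ ^ 2 / 4).measurable

lemma measurable_Yf_ev (h : ℝ) {n : ℕ} (k : ℕ) (hk : k ≤ n) :
    Measurable (fun q : Mat2 n × S2 => Yf h k hk q.1 (ev q.2)) := by
  have h1 : Measurable (fun q : Mat2 n × S2 => (q.1, ev q.2)) :=
    measurable_fst.prodMk (measurable_ev.comp measurable_snd)
  have h2 := (measurable_Yf h k hk).comp h1
  simp only [Function.comp_def] at h2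
  exact h2

lemma ae_ip2_lt : ∀ᵐ p ∂(nu.prod nu), ip2 (ev p.1) (ev p.2) < 1 := by
  have hm : MeasurableSet {p : S2 × S2 | ¬ ip2 (ev p.1) (ev p.2) < 1} :=
    (measurableSet_lt measurable_ip2_ev measurable_const).compl
  rw [ae_iff, Measure.measure_prod_null hm]
  refine Eventually.of_forall fun x => ?_
  have h1 : Prod.mk x ⁻¹' {p : S2 × S2 | ¬ ip2 (ev p.1) (ev p.2) < 1} ⊆ {x} := by
    intro y hy
    have hy' : ¬ ip2 (ev x) (ev y) < 1 := hy
    rw [ip2_ev] at hy'
    by_contra hne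
    apply hy'
    have h2 : (x : E3) - (y : E3) ≠ 0 := by
      intro h3
      apply hne
      exact (Subtype.ext (sub_eq_zero.1 h3)).symm
    have h4 : 0 < ‖(x : E3) - (y : E3)‖ := norm_pos_iff.2 h2
    have : 0 < ‖(x : E3) - (y : E3)‖ ^ 2 / 4 := by positivity
    linarith
  exact measure_mono_null h1 (nu_singleton x)

lemma ip2_ev_nonneg (x y : S2) : 0 ≤ ip2 (ev x) (ev y) := ip2_nonneg _ _

lemma Yn_eq {h : ℝ} (n : ℕ) (M : Mat2 n) (x : S2) :
    Yn h n M x = ‖pf M (ev x)‖ ^ (2 * h) / nrm n n h := by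
  unfold Yn Yf
  rw [gram_full, ← Real.rpow_natCast (‖pf M (ev x)‖) 2, ← Real.rpow_mul (norm_nonneg _)]
  norm_num

/-- the two point function of the field -/
lemma Yn_two_point {h : ℝ} (h0 : 0 < h) (n : ℕ) (x y : S2) (hxy : ip2 (ev x) (ev y) < 1) :
    Integrable (fun M => Yn h n M x * Yn h n M y) (pen n) ∧
      ∫ M, Yn h n M x * Yn h n M y ∂(pen n) = Dtoep n h (Real.sqrt (ip2 (ev x) (ev y))) := by
  obtain ⟨h1, h2⟩ := two_point n h h0.le (ev x) (ev y) (unit2_ev x) (unit2_ev y) hxy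
  have hp := nrm_pos n n le_rfl h h0.le
  have h3 : (fun M : Mat2 n => Yn h n M x * Yn h n M y) = fun M =>
      ‖pf M (ev x)‖ ^ (2 * h) * ‖pf M (ev y)‖ ^ (2 * h) / nrm n n h ^ 2 := by
    funext M
    rw [Yn_eq, Yn_eq, div_mul_div_comm, sq]
  rw [h3]
  refine ⟨h1.div_const _, ?_⟩
  rw [integral_div, h2, mul_comm, mul_div_assoc, div_self (by positivity), mul_one]

theorem fieldHyp {h : ℝ} (h0 : 0 < h) (h1 : h < 1) :
    FieldHyp nu (fun n => pen n) (fun n => Yn h n) (fun j n => Ytn h j n) (Kn h) (Ktn h) where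
  mY n := measurable_Yf_ev h n le_rfl
  mYt j n := measurable_Yf_ev h _ _
  Y0 n M x := Yf_nonneg h0.le _ _ _ _
  Yt0 j n M x := Yf_nonneg h0.le _ _ _ _
  mK := (measurable_const.sub measurable_ip2_ev).pow_const _
  mKt j := (measurable_const.sub (measurable_ip2_ev.const_mul _)).pow_const _
  Kt0 j p := by
    unfold Ktn
    apply Real.rpow_nonneg
    have h2 := ip2_le_one (unit2_ev p.1) (unit2_ev p.2)
    have h3 := ip2_ev_nonneg p.1 p.2
    nlinarith [tau_lt j, tau_pos j]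
  KtK j := by
    filter_upwards [ae_ip2_lt] with p hp
    unfold Ktn Kn
    have h3 := ip2_ev_nonneg p.1 p.2
    have h4 : 1 - ip2 (ev p.1) (ev p.2) ≤ 1 - tau j * ip2 (ev p.1) (ev p.2) := by
      nlinarith [tau_lt j, tau_pos j]
    have h5 : 0 < 1 - ip2 (ev p.1) (ev p.2) := by linarith
    exact Real.antitoneOn_rpow_Ioi_of_exponent_nonpos (by nlinarith [sq_nonneg h]) h5
      (h5.trans_le h4) h4
  Kint := integrable_kernel (h ^ 2) (sq_nonneg h) (by nlinarith)
  H1 n := by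
    filter_upwards [ae_ip2_lt] with p hp
    obtain ⟨h2, h3⟩ := Yn_two_point h0 n p.1 p.2 hp
    refine ⟨h2, ?_⟩
    rw [h3]
    have h4 := ((toeplitz_limit h).1 n (Real.sqrt (ip2 (ev p.1) (ev p.2))) (Real.sqrt_nonneg _)
      (by rw [Real.sqrt_lt' one_pos]; simpa using hp)).2
    rw [Real.sq_sqrt (ip2_ev_nonneg _ _)] at h4
    exact h4
  H1b := by
    filter_upwards [ae_ip2_lt] with p hp
    have h4 := (toeplitz_limit h).2 (Real.sqrt (ip2 (ev p.1) (ev p.2))) (Real.sqrt_nonneg _)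
      (by rw [Real.sqrt_lt' one_pos]; simpa using hp)
    rw [Real.sq_sqrt (ip2_ev_nonneg _ _)] at h4
    refine h4.congr fun n => ?_
    exact (Yn_two_point h0 n p.1 p.2 hp).2.symm
  H2 j n x y := by
    refine ⟨integrable_Yf_mul h0 _ _ _ _ _ _ (unit2_ev x) (unit2_ev y), ?_⟩
    exact Yf_martingale h h0 _ _ _ _ (unit2_ev x) (unit2_ev y)
  H3 j := by
    refine ⟨(1 / (1 - tau j)) ^ 2, fun n x => ?_⟩
    obtain ⟨h2, h3⟩ := Yf_sq h0 ⌊tau j * n⌋₊ (floor_le_self (tau_lt j) n) (ev x) (unit2_ev x)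
    refine ⟨h2, ?_⟩
    unfold Ytn
    exact h3.le.trans (nrm_ratio_floor (tau_pos j) (tau_lt j) (floor_le_self (tau_lt j) n) h0 h1)
  H4 j B l x := clip_conv h0 (tau_pos j) (tau_lt j) B l (fun a => ev (x a)) fun a => unit2_ev _
  H5 j := Eventually.of_forall fun p =>
    lower_conv h0 (tau_pos j) (tau_lt j) (ev p.1) (ev p.2) (unit2_ev _) (unit2_ev _)
  H6 := by
    filter_upwards [ae_ip2_lt] with p hp
    unfold Ktn Kn
    have h2 : Tendsto (fun j => 1 - tau j * ip2 (ev p.1) (ev p.2)) atTop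
        (𝓝 (1 - ip2 (ev p.1) (ev p.2))) := by
      simpa using tendsto_const_nhds.sub (tendsto_tau.mul_const (ip2 (ev p.1) (ev p.2)))
    exact h2.rpow_const (Or.inl (by linarith))

end Pool.Agent.helper84.SG
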