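import Mathlib
import Pool.Agent.helper84.SG.Fin4

/-!
# The random measures as functions of the coefficients of the pencil polynomial
(MP_55470d_pr, module D)
-/

set_option autoImplicit false
open MeasureTheory ProbabilityTheory Filter Topology
open scoped NNReal ENNReal ComplexConjugate BoundedContinuousFunction

namespace Pool.Agent.helper84.SG

/-- the coefficient vector of the pencil polynomial -/
noncomputable def pc (n : ℕ) (M : Mat2 n) : Fin (n + 1) → ℂ := pcoef n (ppoly M)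

lemma measurable_pc (n : ℕ) : Measurable (pc n) := Pool.Agent.helper40.SG.measurable_pc n

/-- the field as a function of the coefficients -/
noncomputable def YC (h : ℝ) (n : ℕ) (f : Fin (n + 1) → ℂ) (x : S2) : ℝ :=
  ‖hev f (ev x)‖ ^ (2 * h) / nrm n n h

lemma Yn_eq_YC {h : ℝ} (n : ℕ) (M : Mat2 n) (x : S2) : Yn h n M x = YC h n (pc n M) x := by
  rw [Yn_eq]
  unfold YC pc
  rw [Pool.Agent.helper28.SG.hev_ppoly]

lemma ev_le (x : S2) : ‖(ev x).1‖ ≤ 1 ∧ ‖(ev x).2‖ ≤ 1 := by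
  have h := unit2_ev x
  unfold Unit2 at h
  constructor
  · nlinarith [sq_nonneg ‖(ev x).2‖, norm_nonneg (ev x).1]
  · nlinarith [sq_nonneg ‖(ev x).1‖, norm_nonneg (ev x).2]

lemma norm_hev_le {n : ℕ} (f : Fin (n + 1) → ℂ) (x : S2) : ‖hev f (ev x)‖ ≤ ∑ k, ‖f k‖ := by
  unfold hev
  refine (norm_sum_le _ _).trans (Finset.sum_le_sum fun k _ => ?_)
  rw [norm_mul, norm_mul, norm_pow, norm_pow, mul_assoc]
  refine mul_le_of_le_one_right (norm_nonneg _) ?_
  exact mul_le_one₀ (pow_le_one₀ (norm_nonneg _) (ev_le x).1) (by positivity)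
    (pow_le_one₀ (norm_nonneg _) (ev_le x).2)

variable {h : ℝ}

lemma YC_nonneg (h0 : 0 ≤ h) (n : ℕ) (f : Fin (n + 1) → ℂ) (x : S2) : 0 ≤ YC h n f x :=
  div_nonneg (by positivity) (nrm_pos n n le_rfl h h0).le

lemma YC_le (h0 : 0 ≤ h) (n : ℕ) (f : Fin (n + 1) → ℂ) (x : S2) :
    YC h n f x ≤ (∑ k, ‖f k‖) ^ (2 * h) / nrm n n h := by
  unfold YC
  have hp := nrm_pos n n le_rfl h h0
  gcongr
  exact norm_hev_le f x

lemma measurable_YC (n : ℕ) : Measurable (fun p : (Fin (n + 1) → ℂ) × S2 => YC h n p.1 p.2) := by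
  unfold YC
  refine Measurable.div_const (Measurable.pow_const ?_ _) _
  refine Measurable.norm ?_
  unfold hev
  refine Finset.measurable_sum _ fun k _ => ?_
  have h1 : Measurable fun p : (Fin (n + 1) → ℂ) × S2 => p.1 k :=
    (measurable_pi_apply k).comp measurable_fst
  have h2 : Measurable fun p : (Fin (n + 1) → ℂ) × S2 => (ev p.2).1 :=
    measurable_fst.comp (measurable_ev.comp measurable_snd)
  have h3 : Measurable fun p : (Fin (n + 1) → ℂ) × S2 => (ev p.2).2 :=
    measurable_snd.comp (measurable_ev.comp measurable_snd)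
  exact (h1.mul (h2.pow_const _)).mul (h3.pow_const _)

lemma measurable_YC_right (n : ℕ) (f : Fin (n + 1) → ℂ) : Measurable (YC h n f) := by
  have h1 : Measurable (fun x : S2 => (f, x)) := measurable_prodMk_left
  have h2 := (measurable_YC (h := h) n).comp h1
  simp only [Function.comp_def] at h2
  exact h2

lemma continuous_YC_left (h0 : 0 ≤ h) (n : ℕ) (x : S2) :
    Continuous (fun f : Fin (n + 1) → ℂ => YC h n f x) := by
  unfold YC
  refine Continuous.div_const (Continuous.rpow_const ?_ fun _ => Or.inr (by linarith)) _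
  refine Continuous.norm ?_
  unfold hev
  fun_prop

lemma isFinite_YC (h0 : 0 ≤ h) (n : ℕ) (f : Fin (n + 1) → ℂ) :
    IsFiniteMeasure (nu.withDensity fun x => ENNReal.ofReal (YC h n f x)) := by
  refine isFiniteMeasure_withDensity_ofReal ?_
  refine (Integrable.of_bound (measurable_YC_right n f).aestronglyMeasurable
    ((∑ k, ‖f k‖) ^ (2 * h) / nrm n n h) (Eventually.of_forall fun x => ?_)).2
  rw [Real.norm_eq_abs, abs_of_nonneg (YC_nonneg h0 n f x)]
  exact YC_le h0 n f x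

/-- the measure with density `YC` -/
noncomputable def baseC (h0 : 0 ≤ h) (n : ℕ) (f : Fin (n + 1) → ℂ) : FiniteMeasure S2 :=
  ⟨nu.withDensity fun x => ENNReal.ofReal (YC h n f x), isFinite_YC h0 n f⟩

lemma integral_baseC (h0 : 0 ≤ h) (n : ℕ) (f : Fin (n + 1) → ℂ) (g : S2 → ℝ) :
    ∫ x, g x ∂(baseC h0 n f : Measure S2) = ∫ x, g x * YC h n f x ∂nu := by
  change ∫ x, g x ∂(nu.withDensity fun x => ENNReal.ofReal (YC h n f x)) = _
  have h1 : (fun x => ENNReal.ofReal (YC h n f x)) =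
      fun x => ((Real.toNNReal (YC h n f x) : ℝ≥0) : ℝ≥0∞) := rfl
  rw [h1, integral_withDensity_eq_integral_smul (measurable_YC_right n f).real_toNNReal]
  refine integral_congr_ae (Eventually.of_forall fun x => ?_)
  simp only [NNReal.smul_def, smul_eq_mul]
  rw [Real.coe_toNNReal _ (YC_nonneg h0 n f x), mul_comm]

lemma evl_baseC (h0 : 0 ≤ h) (n : ℕ) (f : Fin (n + 1) → ℂ) (g : C(S2, ℝ)) :
    evl g (baseC h0 n f) = ∫ x, g x * YC h n f x ∂nu := integral_baseC h0 n f g

lemma continuous_baseC (h0 : 0 ≤ h) (n : ℕ) :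
    Continuous (fun f : Fin (n + 1) → ℂ => baseC h0 n f) := by
  rw [continuous_iff_continuousAt]
  intro f0
  unfold ContinuousAt
  rw [FiniteMeasure.tendsto_iff_forall_integral_tendsto]
  intro g
  simp_rw [integral_baseC]
  set R : ℝ := ∑ k, ‖f0 k‖ + 1 with hR
  have hev : ∀ᶠ f in 𝓝 f0, ∑ k, ‖f k‖ ≤ R := by
    have hc : Continuous fun f : Fin (n + 1) → ℂ => ∑ k, ‖f k‖ := by fun_prop
    exact (hc.tendsto f0).eventually (eventually_le_nhds (by rw [hR]; linarith))
  refine tendsto_integral_filter_of_dominated_convergence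
    (fun _ => ‖g‖ * (R ^ (2 * h) / nrm n n h)) ?_ ?_ (integrable_const _) ?_
  · exact Eventually.of_forall fun f =>
      (g.continuous.measurable.mul (measurable_YC_right n f)).aestronglyMeasurable
  · filter_upwards [hev] with f hf
    refine Eventually.of_forall fun x => ?_
    rw [norm_mul]
    refine mul_le_mul (g.norm_coe_le_norm x) ?_ (norm_nonneg _) (norm_nonneg _)
    rw [Real.norm_eq_abs, abs_of_nonneg (YC_nonneg h0 n f x)]
    refine (YC_le h0 n f x).trans ?_
    have hp := nrm_pos n n le_rfl h h0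
    gcongr
  · refine Eventually.of_forall fun x => ?_
    exact ((continuous_YC_left h0 n x).tendsto f0).const_mul _

/-- the mean of `W ^ (2h)` -/
noncomputable def EW (h : ℝ) (n : ℕ) : ℝ := ∫ M, Wc (pc n M) ^ (2 * h) ∂(pen n)

/-- the normalised weight as a function of the coefficients -/
noncomputable def wC (h : ℝ) (n : ℕ) (f : Fin (n + 1) → ℂ) : ℝ := Wc f ^ (2 * h) / EW h n

lemma measurable_wC (n : ℕ) : Measurable (wC h n) :=
  ((measurable_Wc n).pow_const _).div_const _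

lemma Wc_nonneg {n : ℕ} (f : Fin (n + 1) → ℂ) : 0 ≤ Wc f := Pool.Agent.helper40.SG.Wc_nonneg f

lemma Wc_pos_ae (n : ℕ) : ∀ᵐ M ∂(pen n), 0 < Wc (pc n M) := by
  filter_upwards [ae_det_ne_zero n] with M hM
  exact Wc_pos M hM

/-- real moments of `W` -/
lemma W_moment (h0 : 0 ≤ h) (n : ℕ) :
    Integrable (fun M => Wc (pc n M) ^ (2 * h)) (pen n) ∧
      EW h n = (Real.Gamma ((n : ℝ) + 1 + h) / Real.Gamma ((n : ℝ) + 1)) ^ n := by
  obtain ⟨h1, h2⟩ := W_mellin n (h : ℂ) (by simpa using h0)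
  have h3 : ∀ M : Mat2 n, ((Wc (pc n M) : ℝ) : ℂ) ^ (2 * (h : ℂ)) =
      ((Wc (pc n M) ^ (2 * h) : ℝ) : ℂ) := by
    intro M
    rw [Complex.ofReal_cpow (Wc_nonneg _)]
    push_cast; ring_nf
  have h4 : Integrable (fun M => ((Wc (pc n M) ^ (2 * h) : ℝ) : ℂ)) (pen n) := by
    refine h1.congr (Eventually.of_forall fun M => ?_)
    exact h3 M
  refine ⟨?_, ?_⟩
  · have := h4.re
    simpa using this
  · have h5 : ((EW h n : ℝ) : ℂ) =
        (((Real.Gamma ((n : ℝ) + 1 + h) / Real.Gamma ((n : ℝ) + 1)) ^ n : ℝ) : ℂ) := by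
      unfold EW
      rw [← integral_complex_ofReal]
      have h6 : ∫ M, ((Wc (pc n M) ^ (2 * h) : ℝ) : ℂ) ∂(pen n) =
          ∫ M, ((Wc (pcoef n (ppoly M)) : ℝ) : ℂ) ^ (2 * (h : ℂ)) ∂(pen n) :=
        integral_congr_ae (Eventually.of_forall fun M => (h3 M).symm)
      rw [h6, h2]
      push_cast
      rw [← Complex.Gamma_ofReal, ← Complex.Gamma_ofReal]
      push_cast
      rfl
    exact_mod_cast h5

lemma EW_pos (h0 : 0 ≤ h) (n : ℕ) : 0 < EW h n := by
  rw [(W_moment h0 n).2]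
  have : (0 : ℝ) ≤ n := Nat.cast_nonneg n
  have h1 := Real.Gamma_pos_of_pos (by linarith : 0 < (n : ℝ) + 1 + h)
  have h2 := Real.Gamma_pos_of_pos (by linarith : 0 < (n : ℝ) + 1)
  positivity

/-- the random measure as a function of the coefficients -/
noncomputable def MfC (h0 : 0 ≤ h) (n : ℕ) (f : Fin (n + 1) → ℂ) : FiniteMeasure S2 :=
  Real.toNNReal ((wC h n f)⁻¹) • baseC h0 n f

lemma wC_nonneg (h0 : 0 ≤ h) (n : ℕ) (f : Fin (n + 1) → ℂ) : 0 ≤ wC h n f :=
  div_nonneg (Real.rpow_nonneg (Wc_nonneg f) _) (EW_pos h0 n).le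

lemma evl_MfC (h0 : 0 ≤ h) (n : ℕ) (f : Fin (n + 1) → ℂ) (g : C(S2, ℝ)) :
    evl g (MfC h0 n f) = (wC h n f)⁻¹ * ∫ x, g x * YC h n f x ∂nu := by
  rw [← evl_baseC h0]
  unfold evl MfC
  rw [FiniteMeasure.toMeasure_smul, integral_smul_nnreal_measure, NNReal.smul_def, smul_eq_mul,
    Real.coe_toNNReal _ (inv_nonneg.2 (wC_nonneg h0 n f))]

lemma measurable_evl_MfC (h0 : 0 ≤ h) (n : ℕ) (g : C(S2, ℝ)) :
    Measurable fun f : Fin (n + 1) → ℂ => evl g (MfC h0 n f) := by
  simp_rw [evl_MfC]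
  refine (measurable_wC n).inv.mul ?_
  have h1 : Measurable fun p : (Fin (n + 1) → ℂ) × S2 => g p.2 * YC h n p.1 p.2 :=
    (g.continuous.measurable.comp measurable_snd).mul (measurable_YC n)
  exact h1.stronglyMeasurable.integral_prod_right.measurable

/-- Borel measurability of the random measure -/
lemma borel_MfC (h0 : 0 ≤ h) (n : ℕ) :
    @Measurable (Fin (n + 1) → ℂ) (FiniteMeasure S2) _ (borel _) (MfC h0 n) := by
  have h1 : Continuous fun p : ℝ≥0 × (Fin (n + 1) → ℂ) => p.1 • baseC h0 n p.2 :=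
    continuous_fst.smul ((continuous_baseC h0 n).comp continuous_snd)
  have h2 : @Measurable (ℝ≥0 × (Fin (n + 1) → ℂ)) (FiniteMeasure S2) _ (borel _)
      (fun p => p.1 • baseC h0 n p.2) := by
    letI : MeasurableSpace (FiniteMeasure S2) := borel _
    haveI : BorelSpace (FiniteMeasure S2) := ⟨rfl⟩
    exact h1.measurable
  have h3 : Measurable fun f : Fin (n + 1) → ℂ => (Real.toNNReal ((wC h n f)⁻¹), f) :=
    ((measurable_wC n).inv.real_toNNReal).prodMk measurable_id
  exact h2.comp h3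

end Pool.Agent.helper84.SG
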