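import Mathlib
import Pool.Agent.helper84.SG.Fin5

/-!
# Independence and Mellin transform of the weight (MP_55470d_pr, module D)
-/

set_option autoImplicit false
open MeasureTheory ProbabilityTheory Filter Topology
open scoped NNReal ENNReal ComplexConjugate BoundedContinuousFunction

namespace Pool.Agent.helper84.SG

variable {h : ℝ}

lemma hev_smul {n : ℕ} (c : ℂ) (f : Fin (n + 1) → ℂ) (e : ℂ × ℂ) :
    hev (c • f) e = c * hev f e := by
  unfold hev
  rw [Finset.mul_sum]
  refine Finset.sum_congr rfl fun k _ => ?_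
  simp only [Pi.smul_apply, smul_eq_mul]
  ring

lemma Wc_smul {n : ℕ} (c : ℂ) (f : Fin (n + 1) → ℂ) : Wc (c • f) = ‖c‖ * Wc f :=
  Pool.Agent.helper40.SG.Wc_smul c f

lemma evl_MfC_smul (h0 : 0 < h) (n : ℕ) (c : ℂ) (hc : c ≠ 0) (f : Fin (n + 1) → ℂ)
    (g : C(S2, ℝ)) : evl g (MfC h0.le n (c • f)) = evl g (MfC h0.le n f) := by
  have hcn : 0 < ‖c‖ := norm_pos_iff.2 hc
  have hcp : 0 < ‖c‖ ^ (2 * h) := Real.rpow_pos_of_pos hcn _
  rw [evl_MfC, evl_MfC]
  have h1 : wC h n (c • f) = ‖c‖ ^ (2 * h) * wC h n f := by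
    unfold wC
    rw [Wc_smul, Real.mul_rpow hcn.le (Wc_nonneg f), mul_div_assoc]
  have h2 : ∀ x, g x * YC h n (c • f) x = ‖c‖ ^ (2 * h) * (g x * YC h n f x) := by
    intro x
    unfold YC
    rw [hev_smul, norm_mul, Real.mul_rpow hcn.le (norm_nonneg _)]
    ring
  simp_rw [h1, h2]
  rw [integral_const_mul, mul_inv]
  field_simp

/-- the family of all evaluations -/
noncomputable def evs (h0 : 0 < h) (n : ℕ) (f : Fin (n + 1) → ℂ) : C(S2, ℝ) → ℝ :=
  fun g => evl g (MfC h0.le n f)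

lemma measurable_evs (h0 : 0 < h) (n : ℕ) : Measurable (evs h0 n) :=
  measurable_pi_lambda _ fun g => measurable_evl_MfC h0.le n g

lemma evs_smul (h0 : 0 < h) (n : ℕ) (c : ℂ) (hc : c ≠ 0) (f : Fin (n + 1) → ℂ) :
    evs h0 n (c • f) = evs h0 n f := by
  funext g
  exact evl_MfC_smul h0 n c hc f g

/-- independence of the weight and of a homogeneous function of the coefficients -/
lemma indep_hom {α : Type*} [MeasurableSpace α] (n : ℕ) (F : (Fin (n + 1) → ℂ) → α)
    (hF : Measurable F) (hinv : ∀ (c : ℂ) (f), c ≠ 0 → F (c • f) = F f) :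
    IndepFun (fun M : Mat2 n => wC h n (pc n M)) (fun M : Mat2 n => F (pc n M)) (pen n) := by
  rw [indepFun_iff_measure_inter_preimage_eq_mul]
  intro s t hs ht
  let A : Set ℝ := {u : ℝ | u ^ (2 * h) / EW h n ∈ s}
  have hA : MeasurableSet A := by
    have : Measurable fun u : ℝ => u ^ (2 * h) / EW h n :=
      (measurable_id.pow_const _).div_const _
    exact this hs
  let B : Set (Fin (n + 1) → ℂ) := {f | F f ∈ t}
  have hB : MeasurableSet B := hF ht
  have key := W_indep n (A.indicator fun _ => 1) (measurable_const.indicator hA)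
    (B.indicator fun _ => 1) (measurable_const.indicator hB) (by
      intro c f hc
      by_cases hf : f ∈ B
      · have hcf : c • f ∈ B := by
          change F (c • f) ∈ t
          rw [hinv c f hc]; exact hf
        rw [Set.indicator_of_mem hf, Set.indicator_of_mem hcf]
      · have hcf : c • f ∉ B := by
          change ¬ F (c • f) ∈ t
          rw [hinv c f hc]; exact hf
        rw [Set.indicator_of_notMem hf, Set.indicator_of_notMem hcf])
  have mA : MeasurableSet {M : Mat2 n | Wc (pc n M) ∈ A} :=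
    ((measurable_Wc n).comp (measurable_pc n)) hA
  have mB : MeasurableSet {M : Mat2 n | pc n M ∈ B} := (measurable_pc n) hB
  have e1 : ∀ M : Mat2 n, (A.indicator (fun _ => (1 : ℝ≥0∞))) (Wc (pcoef n (ppoly M))) =
      ({M : Mat2 n | Wc (pc n M) ∈ A}.indicator fun _ => (1 : ℝ≥0∞)) M := by
    intro M
    by_cases hM : Wc (pc n M) ∈ A
    · rw [Set.indicator_of_mem (show M ∈ {M : Mat2 n | Wc (pc n M) ∈ A} from hM)]
      exact Set.indicator_of_mem hM _
    · rw [Set.indicator_of_notMem (show M ∉ {M : Mat2 n | Wc (pc n M) ∈ A} from hM)]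
      exact Set.indicator_of_notMem hM _
  have e2 : ∀ M : Mat2 n, (B.indicator (fun _ => (1 : ℝ≥0∞))) (pcoef n (ppoly M)) =
      ({M : Mat2 n | pc n M ∈ B}.indicator fun _ => (1 : ℝ≥0∞)) M := by
    intro M
    by_cases hM : pc n M ∈ B
    · rw [Set.indicator_of_mem (show M ∈ {M : Mat2 n | pc n M ∈ B} from hM)]
      exact Set.indicator_of_mem hM _
    · rw [Set.indicator_of_notMem (show M ∉ {M : Mat2 n | pc n M ∈ B} from hM)]
      exact Set.indicator_of_notMem hM _
  simp_rw [e1, e2] at key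
  rw [lintegral_indicator_const mA, lintegral_indicator_const mB, one_mul, one_mul] at key
  have e3 : ∀ M : Mat2 n, ({M : Mat2 n | Wc (pc n M) ∈ A}.indicator fun _ => (1 : ℝ≥0∞)) M *
      ({M : Mat2 n | pc n M ∈ B}.indicator fun _ => (1 : ℝ≥0∞)) M =
      (({M : Mat2 n | Wc (pc n M) ∈ A} ∩ {M : Mat2 n | pc n M ∈ B}).indicator
        fun _ => (1 : ℝ≥0∞)) M := by
    intro M
    rw [← Set.inter_indicator_mul]
    simp
  simp_rw [e3] at key
  rw [lintegral_indicator_const (mA.inter mB), one_mul] at key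
  exact key

/-- independence of the weight and of the random measure -/
lemma indep_w (h0 : 0 < h) (n : ℕ) :
    IndepFun (fun M : Mat2 n => wC h n (pc n M))
      (fun (M : Mat2 n) (g : C(S2, ℝ)) => evl g (MfC h0.le n (pc n M))) (pen n) :=
  indep_hom n (evs h0 n) (measurable_evs h0 n) fun c f hc => evs_smul h0 n c hc f

/-- independence of the weight and of the normalised density at a point -/
lemma indep_pt (n : ℕ) (x : S2) :
    IndepFun (fun M : Mat2 n => wC h n (pc n M))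
      (fun M : Mat2 n => (wC h n (pc n M))⁻¹ * YC h n (pc n M) x) (pen n) := by
  refine indep_hom n (fun f => (wC h n f)⁻¹ * YC h n f x) ?_ ?_
  · refine (measurable_wC n).inv.mul ?_
    have h1 : Measurable (fun f : Fin (n + 1) → ℂ => (f, x)) := measurable_prodMk_right
    have h2 := (measurable_YC (h := h) n).comp h1
    simp only [Function.comp_def] at h2
    exact h2
  · intro c f hc
    have hcn : 0 < ‖c‖ := norm_pos_iff.2 hc
    have hcp : 0 < ‖c‖ ^ (2 * h) := Real.rpow_pos_of_pos hcn _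
    have h1 : wC h n (c • f) = ‖c‖ ^ (2 * h) * wC h n f := by
      unfold wC
      rw [Wc_smul, Real.mul_rpow hcn.le (Wc_nonneg f), mul_div_assoc]
    have h2 : YC h n (c • f) x = ‖c‖ ^ (2 * h) * YC h n f x := by
      unfold YC
      rw [hev_smul, norm_mul, Real.mul_rpow hcn.le (norm_nonneg _)]
      ring
    rw [h1, h2, mul_inv]
    field_simp

/-- the Mellin transform of the weight converges -/
lemma mell_w (h0 : 0 < h) (ζ : ℂ) (hζ : 0 ≤ ζ.re) : ∃ φ : ℂ, φ ≠ 0 ∧
    Tendsto (fun n => ∫ M : Mat2 n, ((wC h n (pc n M) : ℝ) : ℂ) ^ ζ ∂(pen n)) atTop (𝓝 φ) := by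
  -- exact formula
  have h1 : ∀ n : ℕ, ∫ M : Mat2 n, ((wC h n (pc n M) : ℝ) : ℂ) ^ ζ ∂(pen n) =
      (Complex.Gamma (n + 1 + h * ζ) / Complex.Gamma (n + 1)) ^ n / ((EW h n : ℝ) : ℂ) ^ ζ := by
    intro n
    have hE := EW_pos h0.le n
    have h2 := (W_mellin n ((h : ℂ) * ζ) (by
      simp only [Complex.mul_re, Complex.ofReal_re, Complex.ofReal_im, zero_mul, sub_zero]
      positivity)).2
    rw [← h2, ← integral_div]
    refine integral_congr_ae ?_
    filter_upwards [Wc_pos_ae n] with M hM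
    have hM' : 0 < Wc (pcoef n (ppoly M)) := hM
    unfold wC pc
    have h3 : (0 : ℝ) < Wc (pcoef n (ppoly M)) ^ (2 * h) := Real.rpow_pos_of_pos hM' _
    rw [div_eq_mul_inv, Complex.ofReal_mul,
      Complex.mul_cpow_ofReal_nonneg h3.le (inv_pos.2 hE).le, div_eq_mul_inv]
    congr 1
    · rw [← Complex.cpow_mul_ofReal_nonneg hM'.le]
      congr 1
      push_cast; ring
    · rw [Complex.ofReal_inv, Complex.inv_cpow]
      rw [Complex.arg_ofReal_of_nonneg hE.le]
      exact Real.pi_pos.ne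
  have hc0 : Tendsto (fun n : ℕ => (EW h n / ((n : ℝ) ^ h) ^ n)) atTop
      (𝓝 (Real.exp (h * (h + 1) / 2))) := by
    have h2 := gamma_pow_limit (h : ℂ) (by simpa using h0.le)
    have h3 := (Complex.continuous_re.tendsto _).comp h2
    have h4 : (Complex.exp ((h : ℂ) * (h + 1) / 2)).re = Real.exp (h * (h + 1) / 2) := by
      have : (h : ℂ) * (h + 1) / 2 = ((h * (h + 1) / 2 : ℝ) : ℂ) := by push_cast; ring
      rw [this, Complex.exp_ofReal_re]
    rw [h4] at h3
    refine h3.congr fun n => ?_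
    have h5 : (Complex.Gamma (n + 1 + h) / (Complex.Gamma (n + 1) * (n : ℂ) ^ (h : ℂ))) ^ n =
        ((EW h n / ((n : ℝ) ^ h) ^ n : ℝ) : ℂ) := by
      rw [(W_moment h0.le n).2]
      have e1 : ((n : ℂ) + 1 + h) = (((n : ℝ) + 1 + h : ℝ) : ℂ) := by push_cast; ring
      have e2 : ((n : ℂ) + 1) = (((n : ℝ) + 1 : ℝ) : ℂ) := by push_cast; ring
      have e3 : (n : ℂ) ^ (h : ℂ) = (((n : ℝ) ^ h : ℝ) : ℂ) := by
        rw [Complex.ofReal_cpow (Nat.cast_nonneg n)]; simp
      rw [e1, e2, e3, Complex.Gamma_ofReal, Complex.Gamma_ofReal, ← div_div, div_pow]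
      push_cast
      rfl
    simp only [Function.comp_apply]
    rw [h5, Complex.ofReal_re]
  have hzre : 0 ≤ ((h : ℂ) * ζ).re := by
    simp only [Complex.mul_re, Complex.ofReal_re, Complex.ofReal_im, zero_mul, sub_zero]
    positivity
  have hnum := gamma_pow_limit ((h : ℂ) * ζ) hzre
  have hden : Tendsto (fun n : ℕ => ((EW h n / ((n : ℝ) ^ h) ^ n : ℝ) : ℂ) ^ ζ) atTop
      (𝓝 (((Real.exp (h * (h + 1) / 2) : ℝ) : ℂ) ^ ζ)) := by
    have h2 : ContinuousAt (fun x : ℂ => x ^ ζ) ((Real.exp (h * (h + 1) / 2) : ℝ) : ℂ) :=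
      continuousAt_cpow_const (Complex.ofReal_mem_slitPlane.2 (Real.exp_pos _))
    exact h2.tendsto.comp ((Complex.continuous_ofReal.tendsto _).comp hc0)
  have hne : (((Real.exp (h * (h + 1) / 2) : ℝ) : ℂ) ^ ζ) ≠ 0 := by
    rw [Ne, Complex.cpow_eq_zero_iff]
    rintro ⟨h2, -⟩
    exact (Real.exp_pos _).ne' (by exact_mod_cast h2)
  refine ⟨_, div_ne_zero (Complex.exp_ne_zero _) hne, (hnum.div hden hne).congr' ?_⟩
  filter_upwards [eventually_gt_atTop 0] with n hn
  rw [h1 n]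
  have hn0 : (0 : ℝ) < n := by exact_mod_cast hn
  have hnC : (n : ℂ) ≠ 0 := by exact_mod_cast hn.ne'
  have hE := EW_pos h0.le n
  have hp : 0 < ((n : ℝ) ^ h) ^ n := by positivity
  have h2 : ((EW h n : ℝ) : ℂ) ^ ζ = ((EW h n / ((n : ℝ) ^ h) ^ n : ℝ) : ℂ) ^ ζ *
      ((n : ℂ) ^ ((h : ℂ) * ζ)) ^ n := by
    have h3 : EW h n = (EW h n / ((n : ℝ) ^ h) ^ n) * ((n : ℝ) ^ h) ^ n := by
      field_simp
    conv_lhs => rw [h3]
    rw [Complex.ofReal_mul, Complex.mul_cpow_ofReal_nonneg (by positivity) hp.le]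
    congr 1
    rw [← Real.rpow_natCast ((n : ℝ) ^ h), ← Real.rpow_mul hn0.le,
      ← Complex.cpow_mul_ofReal_nonneg hn0.le, ← Complex.cpow_nat_mul]
    push_cast
    congr 1
    ring
  have h4 : ((n : ℂ) ^ ((h : ℂ) * ζ)) ^ n ≠ 0 := by
    apply pow_ne_zero
    rw [Ne, Complex.cpow_eq_zero_iff]
    rintro ⟨h2, -⟩
    exact hnC h2
  rw [h2, Pi.div_apply, ← div_div (Complex.Gamma (n + 1 + h * ζ)), div_pow _ ((n : ℂ) ^ _),
    div_div]
  congr 1
  ring

end Pool.Agent.helper84.SG
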