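import Mathlib
import Pool.Agent.helper84.SG.Fin6

/-!
# The random measures satisfy the hypotheses of the main convergence theorem
(MP_55470d_pr, module D)
-/

set_option autoImplicit false
open MeasureTheory ProbabilityTheory Filter Topology
open scoped NNReal ENNReal ComplexConjugate BoundedContinuousFunction

namespace Pool.Agent.helper84.SG

variable {h : ℝ}

/-- the weight -/
noncomputable def wn (h : ℝ) (n : ℕ) (M : Mat2 n) : ℝ := wC h n (pc n M)

/-- the random measure -/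
noncomputable def Mf (h0 : 0 < h) (n : ℕ) (M : Mat2 n) : FiniteMeasure S2 :=
  MfC h0.le n (pc n M)

lemma measurable_wn (n : ℕ) : Measurable (wn h n) := (measurable_wC n).comp (measurable_pc n)

lemma wn_pos_ae (h0 : 0 < h) (n : ℕ) : ∀ᵐ M ∂(pen n), 0 < wn h n M := by
  filter_upwards [Wc_pos_ae n] with M hM
  exact div_pos (Real.rpow_pos_of_pos hM _) (EW_pos h0.le n)

lemma wn_mean (h0 : 0 < h) (n : ℕ) : Integrable (wn h n) (pen n) ∧ ∫ M, wn h n M ∂(pen n) = 1 := by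
  have h1 := (W_moment h0.le n).1
  refine ⟨h1.div_const _, ?_⟩
  change ∫ M, Wc (pc n M) ^ (2 * h) / EW h n ∂(pen n) = 1
  rw [integral_div]
  exact div_self (EW_pos h0.le n).ne'

lemma wn_sq (h0 : 0 < h) (n : ℕ) : Integrable (fun M => wn h n M ^ 2) (pen n) ∧
    1 ≤ ∫ M, wn h n M ^ 2 ∂(pen n) := by
  have h1 := (W_moment (h := 2 * h) (by linarith) n).1
  have h2 : Integrable (fun M => wn h n M ^ 2) (pen n) := by
    refine (h1.div_const (EW h n ^ 2)).congr (Eventually.of_forall fun M => ?_)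
    change Wc (pc n M) ^ (2 * (2 * h)) / EW h n ^ 2 = (Wc (pc n M) ^ (2 * h) / EW h n) ^ 2
    rw [div_pow, ← Real.rpow_natCast (Wc (pc n M) ^ (2 * h)), ← Real.rpow_mul (Wc_nonneg _)]
    congr 2
    push_cast; ring
  refine ⟨h2, ?_⟩
  obtain ⟨h3, h4⟩ := wn_mean h0 n
  have h5 : 0 ≤ ∫ M, (wn h n M ^ 2 - 2 * wn h n M + 1) ∂(pen n) := by
    refine integral_nonneg fun M => ?_
    change 0 ≤ wn h n M ^ 2 - 2 * wn h n M + 1
    nlinarith [sq_nonneg (wn h n M - 1)]
  have h6 : ∫ M, (wn h n M ^ 2 - 2 * wn h n M + 1) ∂(pen n) =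
      ∫ M, wn h n M ^ 2 ∂(pen n) - 2 * ∫ M, wn h n M ∂(pen n) + 1 := by
    have h7 : Integrable (fun M => wn h n M ^ 2 - 2 * wn h n M) (pen n) :=
      h2.sub (h3.const_mul 2)
    have h8 : Integrable (fun M => 2 * wn h n M) (pen n) := h3.const_mul 2
    rw [integral_add h7 (integrable_const 1), integral_sub h2 h8, integral_const_mul]
    simp
  rw [h6, h4] at h5
  linarith

/-- Fubini for the field -/
lemma Yn_prod (h0 : 0 < h) (n : ℕ) (g : C(S2, ℝ)) :
    Integrable (fun q : Mat2 n × S2 => g q.2 * Yn h n q.1 q.2) ((pen n).prod nu) := by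
  have hY : Integrable (fun q : Mat2 n × S2 => Yn h n q.1 q.2) ((pen n).prod nu) := by
    have hm : Measurable (fun q : Mat2 n × S2 => Yn h n q.1 q.2) := measurable_Yf_ev h n le_rfl
    rw [integrable_prod_iff' hm.aestronglyMeasurable]
    refine ⟨Eventually.of_forall fun x => (Yf_mean h0.le n le_rfl (ev x) (unit2_ev x)).1, ?_⟩
    have h1 : (fun x : S2 => ∫ M, ‖Yn h n M x‖ ∂(pen n)) = fun _ => 1 := by
      funext x
      rw [← (Yf_mean h0.le n le_rfl (ev x) (unit2_ev x)).2]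
      refine integral_congr_ae (Eventually.of_forall fun M => ?_)
      exact abs_of_nonneg (Yf_nonneg h0.le _ _ _ _)
    rw [h1]
    exact integrable_const 1
  refine hY.bdd_mul (c := ‖g‖) ?_ ?_
  · exact (g.continuous.measurable.comp measurable_snd).aestronglyMeasurable
  · exact Eventually.of_forall fun q => g.norm_coe_le_norm _

lemma Yn_fubini (h0 : 0 < h) (n : ℕ) (g : C(S2, ℝ)) :
    Integrable (fun M : Mat2 n => ∫ x, g x * Yn h n M x ∂nu) (pen n) ∧
      ∫ M, ∫ x, g x * Yn h n M x ∂nu ∂(pen n) = ∫ x, g x ∂nu := by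
  have h1 := Yn_prod h0 n g
  refine ⟨h1.integral_prod_left, ?_⟩
  rw [integral_integral_swap h1]
  refine integral_congr_ae (Eventually.of_forall fun x => ?_)
  change ∫ M, g x * Yn h n M x ∂(pen n) = g x
  rw [integral_const_mul]
  have := (Yf_mean h0.le n le_rfl (ev x) (unit2_ev x)).2
  change g x * ∫ M, Yf h n le_rfl M (ev x) ∂(pen n) = g x
  rw [this, mul_one]

lemma rel_w (h0 : 0 < h) (n : ℕ) (M : Mat2 n) (hw : 0 < wn h n M) (g : C(S2, ℝ)) :
    ∫ x, g x * Yn h n M x ∂nu = wn h n M * evl g (Mf h0 n M) := by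
  unfold Mf
  rw [evl_MfC]
  simp_rw [Yn_eq_YC]
  rw [← mul_assoc]
  change _ = (wn h n M * (wn h n M)⁻¹) * _
  rw [mul_inv_cancel₀ hw.ne', one_mul]

lemma measurable_evl_Mf (h0 : 0 < h) (n : ℕ) (g : C(S2, ℝ)) :
    Measurable fun M => evl g (Mf h0 n M) := (measurable_evl_MfC h0.le n g).comp (measurable_pc n)

lemma indep_evl (h0 : 0 < h) (n : ℕ) (g : C(S2, ℝ)) :
    IndepFun (wn h n) (fun M => evl g (Mf h0 n M)) (pen n) :=
  (indep_w h0 n).comp measurable_id (measurable_pi_apply g)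

lemma evl_one_Mf (h0 : 0 < h) (n : ℕ) :
    ∫⁻ M, ENNReal.ofReal (evl 1 (Mf h0 n M)) ∂(pen n) = 1 := by
  have h1 := lintegral_mul_eq_lintegral_mul_lintegral_of_indepFun'' (μ := pen n)
    (f := fun M => ENNReal.ofReal (wn h n M))
    (g := fun M => ENNReal.ofReal (evl 1 (Mf h0 n M)))
    (measurable_wn n).ennreal_ofReal.aemeasurable
    (measurable_evl_Mf h0 n 1).ennreal_ofReal.aemeasurable
    ((indep_evl h0 n 1).comp ENNReal.measurable_ofReal ENNReal.measurable_ofReal)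
  have h2 : ∫⁻ M, ENNReal.ofReal (wn h n M) ∂(pen n) = 1 := by
    rw [← ofReal_integral_eq_lintegral_ofReal (wn_mean h0 n).1, (wn_mean h0 n).2,
      ENNReal.ofReal_one]
    filter_upwards [wn_pos_ae h0 n] with M hM using hM.le
  have h3 : ∫⁻ M, ENNReal.ofReal (wn h n M) * ENNReal.ofReal (evl 1 (Mf h0 n M)) ∂(pen n) = 1 := by
    have h4 : ∫⁻ M, ENNReal.ofReal (wn h n M) * ENNReal.ofReal (evl 1 (Mf h0 n M)) ∂(pen n) =
        ∫⁻ M, ENNReal.ofReal (∫ x, (1 : C(S2, ℝ)) x * Yn h n M x ∂nu) ∂(pen n) := by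
      refine lintegral_congr_ae ?_
      filter_upwards [wn_pos_ae h0 n] with M hM
      rw [rel_w h0 n M hM, ENNReal.ofReal_mul hM.le]
    rw [h4, ← ofReal_integral_eq_lintegral_ofReal (Yn_fubini h0 n 1).1, (Yn_fubini h0 n 1).2]
    · simp
    · refine Eventually.of_forall fun M => integral_nonneg fun x => ?_
      simp only [ContinuousMap.one_apply, one_mul]
      exact Yf_nonneg h0.le _ _ _ _
  rw [h3, h2, one_mul] at h1
  exact h1.symm

lemma integrable_evl_one (h0 : 0 < h) (n : ℕ) :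
    Integrable (fun M => evl 1 (Mf h0 n M)) (pen n) := by
  refine ⟨(measurable_evl_Mf h0 n 1).aestronglyMeasurable, ?_⟩
  rw [hasFiniteIntegral_iff_ofReal (Eventually.of_forall fun M => evl_one_nonneg _), evl_one_Mf]
  exact ENNReal.one_lt_top

/-- the mean of the random measure is `nu` -/
lemma evl_mean (h0 : 0 < h) (n : ℕ) (g : C(S2, ℝ)) :
    Integrable (fun M => evl g (Mf h0 n M)) (pen n) ∧
      ∫ M, evl g (Mf h0 n M) ∂(pen n) = ∫ x, g x ∂nu := by
  have h1 : Integrable (fun M => evl g (Mf h0 n M)) (pen n) := by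
    refine Integrable.mono' ((integrable_evl_one h0 n).const_mul ‖g‖)
      (measurable_evl_Mf h0 n g).aestronglyMeasurable (Eventually.of_forall fun M => ?_)
    rw [evl_one]
    exact abs_evl_le g _
  refine ⟨h1, ?_⟩
  have h2 := (indep_evl h0 n g).integral_fun_mul_eq_mul_integral
    (measurable_wn n).aestronglyMeasurable (measurable_evl_Mf h0 n g).aestronglyMeasurable
  rw [(wn_mean h0 n).2, one_mul] at h2
  rw [← h2, ← (Yn_fubini h0 n g).2]
  refine integral_congr_ae ?_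
  filter_upwards [wn_pos_ae h0 n] with M hM
  exact (rel_w h0 n M hM g).symm

theorem mHyp (h0 : 0 < h) : MHyp nu (fun n => pen n) (fun n => Yn h n) (fun n => Mf h0 n)
    (fun n => wn h n) where
  mM n g := measurable_evl_Mf h0 n g
  mw n := measurable_wn n
  wpos n := wn_pos_ae h0 n
  rel n := by
    filter_upwards [wn_pos_ae h0 n] with M hM
    exact fun g => rel_w h0 n M hM g
  indep n := indep_w h0 n
  mell s := mell_w h0 _ (by rw [zeta_re]; norm_num)
  Ymean n := by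
    have h1 := Yn_fubini h0 n 1
    simp only [ContinuousMap.one_apply, one_mul] at h1
    refine ⟨h1.1, ?_⟩
    rw [h1.2]
    simp
  Mmean n := by
    obtain ⟨h1, h2⟩ := evl_mean h0 n 1
    refine ⟨h1, ?_⟩
    rw [h2]
    simp

/-- second moments of the masses are bounded -/
lemma evl_sq (h0 : 0 < h) (h1 : h < 1) : ∃ C : ℝ, ∀ n,
    Integrable (fun M => (evl 1 (Mf h0 n M)) ^ 2) (pen n) ∧
      ∫ M, (evl 1 (Mf h0 n M)) ^ 2 ∂(pen n) ≤ C := by
  have H := fieldHyp h0 h1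
  refine ⟨∫ p, Kn h p ∂(nu.prod nu), fun n => ?_⟩
  obtain ⟨i1, e1⟩ := two_fold nu (pen n) (FieldHyp.intYY H n) (1 : C(S2, ℝ)) 1
  have hb : ∫ M, (∫ x, (1 : C(S2, ℝ)) x * Yn h n M x ∂nu) *
      (∫ x, (1 : C(S2, ℝ)) x * Yn h n M x ∂nu) ∂(pen n) ≤ ∫ p, Kn h p ∂(nu.prod nu) := by
    rw [e1]
    refine integral_mono_of_nonneg ?_ H.Kint ?_
    · refine Eventually.of_forall fun p => ?_
      simp only [ContinuousMap.one_apply, one_mul, Pi.zero_apply]
      exact integral_nonneg fun M => mul_nonneg (H.Y0 n M _) (H.Y0 n M _)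
    · filter_upwards [H.H1 n] with p hp
      simp only [ContinuousMap.one_apply, one_mul]
      exact hp.2
  obtain ⟨w1, w2⟩ := wn_sq h0 n
  have hw0 : 0 < ∫ M, wn h n M ^ 2 ∂(pen n) := by linarith
  have hY0 : ∀ M : Mat2 n, 0 ≤ ∫ x, (1 : C(S2, ℝ)) x * Yn h n M x ∂nu := fun M =>
    integral_nonneg fun x => by
      simp only [ContinuousMap.one_apply, one_mul]
      exact Yf_nonneg h0.le _ _ _ _
  -- product formula for the second moments
  have h2 := lintegral_mul_eq_lintegral_mul_lintegral_of_indepFun'' (μ := pen n)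
    (f := fun M => ENNReal.ofReal (wn h n M ^ 2))
    (g := fun M => ENNReal.ofReal (evl 1 (Mf h0 n M) ^ 2))
    ((measurable_wn n).pow_const 2).ennreal_ofReal.aemeasurable
    ((measurable_evl_Mf h0 n 1).pow_const 2).ennreal_ofReal.aemeasurable
    ((indep_evl h0 n 1).comp (φ := fun u => ENNReal.ofReal (u ^ 2))
      (ψ := fun u => ENNReal.ofReal (u ^ 2)) (by fun_prop) (by fun_prop))
  have h3 : ∫⁻ M, ENNReal.ofReal (wn h n M ^ 2) * ENNReal.ofReal (evl 1 (Mf h0 n M) ^ 2) ∂(pen n) =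
      ENNReal.ofReal (∫ M, (∫ x, (1 : C(S2, ℝ)) x * Yn h n M x ∂nu) *
      (∫ x, (1 : C(S2, ℝ)) x * Yn h n M x ∂nu) ∂(pen n)) := by
    rw [ofReal_integral_eq_lintegral_ofReal i1
      (Eventually.of_forall fun M => mul_nonneg (hY0 M) (hY0 M))]
    refine lintegral_congr_ae ?_
    filter_upwards [wn_pos_ae h0 n] with M hM
    rw [rel_w h0 n M hM, ← ENNReal.ofReal_mul (sq_nonneg _)]
    congr 1
    ring
  have h4 : ∫⁻ M, ENNReal.ofReal (wn h n M ^ 2) ∂(pen n) =
      ENNReal.ofReal (∫ M, wn h n M ^ 2 ∂(pen n)) :=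
    (ofReal_integral_eq_lintegral_ofReal w1 (Eventually.of_forall fun M => sq_nonneg _)).symm
  rw [h3, h4] at h2
  have h5 : ∫⁻ M, ENNReal.ofReal (evl 1 (Mf h0 n M) ^ 2) ∂(pen n) ≤
      ENNReal.ofReal (∫ p, Kn h p ∂(nu.prod nu)) := by
    calc ∫⁻ M, ENNReal.ofReal (evl 1 (Mf h0 n M) ^ 2) ∂(pen n)
        = 1 * ∫⁻ M, ENNReal.ofReal (evl 1 (Mf h0 n M) ^ 2) ∂(pen n) := (one_mul _).symm
      _ ≤ ENNReal.ofReal (∫ M, wn h n M ^ 2 ∂(pen n)) *
          ∫⁻ M, ENNReal.ofReal (evl 1 (Mf h0 n M) ^ 2) ∂(pen n) := by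
          gcongr
          rw [← ENNReal.ofReal_one]
          exact ENNReal.ofReal_le_ofReal w2
      _ ≤ ENNReal.ofReal (∫ p, Kn h p ∂(nu.prod nu)) := by
          rw [← h2]
          exact ENNReal.ofReal_le_ofReal hb
  have h6 : Integrable (fun M => (evl 1 (Mf h0 n M)) ^ 2) (pen n) := by
    refine ⟨((measurable_evl_Mf h0 n 1).pow_const 2).aestronglyMeasurable, ?_⟩
    rw [hasFiniteIntegral_iff_ofReal (Eventually.of_forall fun M => sq_nonneg _)]
    exact h5.trans_lt ENNReal.ofReal_lt_top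
  refine ⟨h6, ?_⟩
  rw [← ofReal_integral_eq_lintegral_ofReal h6 (Eventually.of_forall fun M => sq_nonneg _)] at h5
  refine (ENNReal.ofReal_le_ofReal_iff ?_).1 h5
  have := (integral_nonneg fun M : Mat2 n => mul_nonneg (hY0 M) (hY0 M)).trans hb
  exact this

lemma borel_Mf (h0 : 0 < h) (n : ℕ) :
    @Measurable (Mat2 n) (FiniteMeasure S2) _ (borel _) (Mf h0 n) :=
  (borel_MfC h0.le n).comp (measurable_pc n)

end Pool.Agent.helper84.SG
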