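import Mathlib
import Pool.Agent.helper84.SG.Fin7

/-!
# The chaos measure of the spherical ensemble (MP_55470d_pr, module D)
-/

set_option autoImplicit false
open MeasureTheory ProbabilityTheory Filter Topology
open scoped NNReal ENNReal ComplexConjugate BoundedContinuousFunction

namespace Pool.Agent.helper84.SG

/-- the measure `M_{n,γ}` of the problem -/
noncomputable def chaos (γ : ℝ) (n : ℕ) (M : Mat2 n) : Measure S2 :=
  nu.withDensity fun x =>
    ENNReal.ofReal (Real.exp (γ * Ln M x) / ∫ M', Real.exp (γ * Ln M' x) ∂(pen n))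

variable {h : ℝ}

lemma exp_eq {n : ℕ} (h0 : 0 < h) (M : Mat2 n) (hM : (Matrix.of M.2).det ≠ 0) (x : S2)
    (hx : pf M (ev x) ≠ 0) :
    Real.exp (2 * h * Ln M x) = nrm n n h / EW h n * ((wn h n M)⁻¹ * Yn h n M x) := by
  have h1 := exp_Ln M hM x hx
  have h2 := Wc_pos M hM
  have hE := EW_pos h0.le n
  have hN := nrm_pos n n le_rfl h h0.le
  rw [mul_comm, Real.exp_mul, h1, Real.div_rpow (norm_nonneg _) h2.le, Yn_eq]
  unfold wn wC pc
  have h3 : 0 < Wc (pcoef n (ppoly M)) ^ (2 * h) := Real.rpow_pos_of_pos h2 _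
  field_simp

lemma pt_mean (h0 : 0 < h) (n : ℕ) (x : S2) :
    Integrable (fun M : Mat2 n => (wn h n M)⁻¹ * Yn h n M x) (pen n) ∧
      ∫ M, (wn h n M)⁻¹ * Yn h n M x ∂(pen n) = 1 := by
  have hYm : Measurable fun M : Mat2 n => Yn h n M x := measurable_Yf_left h n le_rfl (ev x)
  have hm : Measurable fun M : Mat2 n => (wn h n M)⁻¹ * Yn h n M x :=
    (measurable_wn n).inv.mul hYm
  have hw0 : ∀ M : Mat2 n, 0 ≤ wn h n M := fun M => wC_nonneg h0.le n _
  have hY0 : ∀ M : Mat2 n, 0 ≤ Yn h n M x := fun M => Yf_nonneg h0.le _ _ _ _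
  have hZ0 : ∀ M : Mat2 n, 0 ≤ (wn h n M)⁻¹ * Yn h n M x := fun M =>
    mul_nonneg (inv_nonneg.2 (hw0 M)) (hY0 M)
  have hind : IndepFun (wn h n) (fun M : Mat2 n => (wn h n M)⁻¹ * Yn h n M x) (pen n) := by
    have := indep_pt (h := h) n x
    simp_rw [← Yn_eq_YC] at this
    exact this
  have h1 := lintegral_mul_eq_lintegral_mul_lintegral_of_indepFun'' (μ := pen n)
    (f := fun M => ENNReal.ofReal (wn h n M))
    (g := fun M => ENNReal.ofReal ((wn h n M)⁻¹ * Yn h n M x))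
    (measurable_wn n).ennreal_ofReal.aemeasurable hm.ennreal_ofReal.aemeasurable
    (hind.comp ENNReal.measurable_ofReal ENNReal.measurable_ofReal)
  have h2 : ∫⁻ M, ENNReal.ofReal (wn h n M) ∂(pen n) = 1 := by
    rw [← ofReal_integral_eq_lintegral_ofReal (wn_mean h0 n).1 (Eventually.of_forall hw0),
      (wn_mean h0 n).2, ENNReal.ofReal_one]
  obtain ⟨iY, eY⟩ := Yf_mean h0.le n le_rfl (ev x) (unit2_ev x)
  have h3 : ∫⁻ M, ENNReal.ofReal (wn h n M) *
      ENNReal.ofReal ((wn h n M)⁻¹ * Yn h n M x) ∂(pen n) = 1 := by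
    have h4 : ∫⁻ M, ENNReal.ofReal (wn h n M) *
        ENNReal.ofReal ((wn h n M)⁻¹ * Yn h n M x) ∂(pen n) =
        ∫⁻ M, ENNReal.ofReal (Yn h n M x) ∂(pen n) := by
      refine lintegral_congr_ae ?_
      filter_upwards [wn_pos_ae h0 n] with M hM
      rw [← ENNReal.ofReal_mul hM.le, ← mul_assoc, mul_inv_cancel₀ hM.ne', one_mul]
    rw [h4]
    have h5 : ∫⁻ M, ENNReal.ofReal (Yn h n M x) ∂(pen n) =
        ENNReal.ofReal (∫ M, Yn h n M x ∂(pen n)) :=
      (ofReal_integral_eq_lintegral_ofReal iY (Eventually.of_forall hY0)).symm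
    rw [h5]
    have h6 : ∫ M, Yn h n M x ∂(pen n) = 1 := eY
    rw [h6, ENNReal.ofReal_one]
  rw [h3, h2, one_mul] at h1
  have hint : Integrable (fun M : Mat2 n => (wn h n M)⁻¹ * Yn h n M x) (pen n) := by
    refine ⟨hm.aestronglyMeasurable, ?_⟩
    rw [hasFiniteIntegral_iff_ofReal (Eventually.of_forall hZ0), ← h1]
    exact ENNReal.one_lt_top
  refine ⟨hint, ?_⟩
  rw [integral_eq_lintegral_of_nonneg_ae (Eventually.of_forall hZ0) hm.aestronglyMeasurable, ← h1]
  simp

/-- the normalising constant -/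
lemma mean_exp (h0 : 0 < h) (n : ℕ) (x : S2) :
    ∫ M, Real.exp (2 * h * Ln M x) ∂(pen n) = nrm n n h / EW h n := by
  have h1 : ∫ M, Real.exp (2 * h * Ln M x) ∂(pen n) =
      ∫ M, nrm n n h / EW h n * ((wn h n M)⁻¹ * Yn h n M x) ∂(pen n) := by
    refine integral_congr_ae ?_
    filter_upwards [ae_det_ne_zero n, ae_M_pf_ne_zero n (ev x) (unit2_ev x)] with M h2 h3
    exact exp_eq h0 M h2 x h3
  rw [h1, integral_const_mul, (pt_mean h0 n x).2, mul_one]

lemma chaos_finite (h0 : 0 < h) (n : ℕ) (M : Mat2 n) : IsFiniteMeasure (chaos (2 * h) n M) := by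
  unfold chaos
  simp_rw [mean_exp h0]
  have hc : 0 < nrm n n h / EW h n := div_pos (nrm_pos n n le_rfl h h0.le) (EW_pos h0.le n)
  refine isFiniteMeasure_withDensity_ofReal ?_
  refine (Integrable.of_bound ?_ (1 / (nrm n n h / EW h n))
    (Eventually.of_forall fun x => ?_)).2
  · exact (((measurable_Ln M).const_mul _).exp.div_const _).aestronglyMeasurable
  · rw [Real.norm_eq_abs, abs_of_nonneg (by positivity)]
    gcongr
    rw [Real.exp_le_one_iff]
    have := Ln_nonpos M x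
    nlinarith

/-- the measure as an element of the space of finite measures -/
noncomputable def chaosF (h0 : 0 < h) (n : ℕ) (M : Mat2 n) : FiniteMeasure S2 :=
  ⟨chaos (2 * h) n M, chaos_finite h0 n M⟩

lemma chaosF_ae (h0 : 0 < h) (n : ℕ) : chaosF h0 n =ᵐ[pen n] Mf h0 n := by
  filter_upwards [ae_det_ne_zero n] with M hM
  apply FiniteMeasure.toMeasure_injective
  change chaos (2 * h) n M = ((Mf h0 n M : FiniteMeasure S2) : Measure S2)
  have hw : 0 < wn h n M := div_pos (Real.rpow_pos_of_pos (Wc_pos M hM) _) (EW_pos h0.le n)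
  have hc : 0 < nrm n n h / EW h n := div_pos (nrm_pos n n le_rfl h h0.le) (EW_pos h0.le n)
  unfold chaos
  simp_rw [mean_exp h0]
  have h1 : nu.withDensity (fun x => ENNReal.ofReal (Real.exp (2 * h * Ln M x) /
      (nrm n n h / EW h n))) =
      nu.withDensity (fun x => (Real.toNNReal ((wn h n M)⁻¹) : ℝ≥0∞) *
        ENNReal.ofReal (YC h n (pc n M) x)) := by
    apply withDensity_congr_ae
    filter_upwards [ae_x_pf_ne_zero M hM] with x hx
    have h3 : nrm n n h / EW h n * ((wn h n M)⁻¹ * Yn h n M x) / (nrm n n h / EW h n) =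
        (wn h n M)⁻¹ * Yn h n M x := mul_div_cancel_left₀ _ hc.ne'
    rw [exp_eq h0 M hM x hx, h3, Yn_eq_YC, ENNReal.ofReal_mul (inv_nonneg.2 hw.le)]
    rfl
  rw [h1]
  have h2 : (fun x => (Real.toNNReal ((wn h n M)⁻¹) : ℝ≥0∞) *
        ENNReal.ofReal (YC h n (pc n M) x)) =
      (Real.toNNReal ((wn h n M)⁻¹) : ℝ≥0∞) • fun x => ENNReal.ofReal (YC h n (pc n M) x) := rfl
  rw [h2, withDensity_smul _ (measurable_YC_right n (pc n M)).ennreal_ofReal]
  rfl

end Pool.Agent.helper84.SG
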